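import Pool.Agent.FBM.F.Stmts3

/-!
# FBM, block F: EDG, configurations are good boundary data
-/

namespace FBM
namespace F
namespace EDG

open Metric Set Filter Topology
open Pool.Agent.FBM

/-- `2π/3` -/
noncomputable def c : ℝ := 2 * Real.pi / 3

theorem c_pos : 0 < c := by
  unfold c
  positivity

theorem two_pi : 2 * Real.pi = 3 * c := by
  unfold c
  ring

theorem mem_pe {S : Set ℝ} {t : ℝ} : t ∈ pe S ↔ ∃ n : ℤ, t + n * (3 * c) ∈ S := by
  rw [← two_pi]
  rfl

theorem pe_mono {S T : Set ℝ} (h : S ⊆ T) : pe S ⊆ pe T := fun _ ⟨n, hn⟩ => ⟨n, h hn⟩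

theorem pe_open {S : Set ℝ} (h : IsOpen S) : IsOpen (pe S) := by
  have h1 : pe S = ⋃ n : ℤ, (fun t : ℝ => t + n * (2 * Real.pi)) ⁻¹' S := by
    ext t
    simp only [mem_iUnion, mem_preimage]
    rfl
  rw [h1]
  exact isOpen_iUnion fun n => h.preimage (by fun_prop)

theorem pe_closed {S : Set ℝ} (h : IsCompact S) : IsClosed (pe S) := by
  have h1 : pe S = (fun t : ℝ => (t : AddCircle (2 * Real.pi))) ⁻¹'
      ((fun t : ℝ => (t : AddCircle (2 * Real.pi))) '' S) := by
    ext t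
    constructor
    · rintro ⟨n, hn⟩
      refine ⟨_, hn, ?_⟩
      rw [← sub_eq_zero, ← AddCircle.coe_sub, AddCircle.coe_eq_zero_iff]
      exact ⟨n, by rw [zsmul_eq_mul]; ring⟩
    · rintro ⟨s, hs, he⟩
      have he' : ((s - t : ℝ) : AddCircle (2 * Real.pi)) = 0 := by
        rw [AddCircle.coe_sub, sub_eq_zero]
        exact he
      obtain ⟨n, hn⟩ := (AddCircle.coe_eq_zero_iff _).1 he'
      refine ⟨n, ?_⟩
      rw [zsmul_eq_mul] at hn
      rw [hn, add_sub_cancel]
      exact hs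
  rw [h1]
  exact (h.image (AddCircle.continuous_mk' _)).isClosed.preimage (AddCircle.continuous_mk' _)

theorem pe_per (S : Set ℝ) (t : ℝ) : t + 2 * Real.pi ∈ pe S ↔ t ∈ pe S := by
  constructor
  · rintro ⟨n, hn⟩
    refine ⟨n + 1, ?_⟩
    have e : t + ((n + 1 : ℤ) : ℝ) * (2 * Real.pi) = t + 2 * Real.pi + n * (2 * Real.pi) := by
      push_cast
      ring
    rw [e]
    exact hn
  · rintro ⟨n, hn⟩
    refine ⟨n - 1, ?_⟩
    have e : t + 2 * Real.pi + ((n - 1 : ℤ) : ℝ) * (2 * Real.pi) = t + n * (2 * Real.pi) := by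
      push_cast
      ring
    rw [e]
    exact hn

/-- The open sector number `k`. -/
def Sec (k : ℤ) (s : ℝ) : Prop := k * c < s ∧ s < (k + 1) * c

theorem int_lt {i j : ℤ} (h : (i : ℝ) * c < j * c) : i < j := by
  have := lt_of_mul_lt_mul_right h c_pos.le
  exact_mod_cast this

theorem mem_sec {k j : ℤ} {s : ℝ} (h : Sec k s) :
    s ∈ pe (Ioo (j * c) ((j + 1) * c)) ↔ (3 : ℤ) ∣ (k - j) := by
  rw [mem_pe]
  constructor
  · rintro ⟨n, h1, h2⟩
    have h3 : j < k + 1 + 3 * n := by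
      apply int_lt
      push_cast
      nlinarith [h.1, h.2]
    have h4 : k + 3 * n < j + 1 := by
      apply int_lt
      push_cast
      nlinarith [h.1, h.2]
    exact ⟨-n, by omega⟩
  · rintro ⟨n, hn⟩
    refine ⟨-n, ?_, ?_⟩
    · have e : (k : ℝ) = j + 3 * n := by
        have : k = j + 3 * n := by omega
        rw [this]
        push_cast
        ring
      have := h.1
      rw [e] at this
      push_cast
      linarith
    · have e : (k : ℝ) = j + 3 * n := by
        have : k = j + 3 * n := by omega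
        rw [this]
        push_cast
        ring
      have := h.2
      rw [e] at this
      push_cast
      linarith

theorem side_eq (i : Fin 3) : ∃ j : ℤ, side i = pe (Ioo (j * c) ((j + 1) * c)) ∧
    j = (match i with | 0 => 0 | 1 => -1 | 2 => 1) := by
  fin_cases i
  · refine ⟨0, ?_, rfl⟩
    change pe (Ioo 0 (2 * Real.pi / 3)) = _
    congr 2
    · simp
    · simp [c]
  · refine ⟨-1, ?_, rfl⟩
    change pe (Ioo (-(2 * Real.pi / 3)) 0) = _
    congr 2
    · simp [c]
    · simp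
  · refine ⟨1, ?_, rfl⟩
    change pe (Ioo (2 * Real.pi / 3) (4 * Real.pi / 3)) = _
    congr 2
    · simp [c]
    · simp only [c]
      push_cast
      ring

theorem side_open (i : Fin 3) : IsOpen (side i) := by
  obtain ⟨j, hj, -⟩ := side_eq i
  rw [hj]
  exact pe_open isOpen_Ioo

theorem side_per (i : Fin 3) (t : ℝ) : t + 2 * Real.pi ∈ side i ↔ t ∈ side i := by
  obtain ⟨j, hj, -⟩ := side_eq i
  rw [hj]
  exact pe_per _ t

/-- The side of a sector. -/
theorem sec_side {k : ℤ} : ∃ i : Fin 3, ∀ s, Sec k s → s ∈ side i ∧ ∀ j, j ≠ i → s ∉ side j := by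
  obtain ⟨a, ha, ha'⟩ := side_eq 0
  obtain ⟨b, hb, hb'⟩ := side_eq 1
  obtain ⟨d, hd, hd'⟩ := side_eq 2
  simp only at ha' hb' hd'
  have h0 : ∀ s, Sec k s → (s ∈ side 0 ↔ (3 : ℤ) ∣ k) := fun s hs => by
    rw [ha, mem_sec hs, ha', sub_zero]
  have h1 : ∀ s, Sec k s → (s ∈ side 1 ↔ (3 : ℤ) ∣ (k + 1)) := fun s hs => by
    rw [hb, mem_sec hs, hb', sub_neg_eq_add]
  have h2 : ∀ s, Sec k s → (s ∈ side 2 ↔ (3 : ℤ) ∣ (k - 1)) := fun s hs => by
    rw [hd, mem_sec hs, hd']
  rcases (show (3 : ℤ) ∣ k ∨ (3 : ℤ) ∣ (k + 1) ∨ (3 : ℤ) ∣ (k - 1) by omega) with h | h | h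
  · refine ⟨0, fun s hs => ⟨(h0 s hs).2 h, fun j hj => ?_⟩⟩
    fin_cases j
    · exact absurd rfl hj
    · exact fun hh => by have := (h1 s hs).1 hh; omega
    · exact fun hh => by have := (h2 s hs).1 hh; omega
  · refine ⟨1, fun s hs => ⟨(h1 s hs).2 h, fun j hj => ?_⟩⟩
    fin_cases j
    · exact fun hh => by have := (h0 s hs).1 hh; omega
    · exact absurd rfl hj
    · exact fun hh => by have := (h2 s hs).1 hh; omega
  · refine ⟨2, fun s hs => ⟨(h2 s hs).2 h, fun j hj => ?_⟩⟩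
    fin_cases j
    · exact fun hh => by have := (h0 s hs).1 hh; omega
    · exact fun hh => by have := (h1 s hs).1 hh; omega
    · exact absurd rfl hj

/-- A filter that decides all half-lines. -/
structure HL (l : Filter ℝ) : Prop where
  lt : ∀ x : ℝ, (∀ᶠ s in l, s < x) ∨ ∀ᶠ s in l, ¬ s < x
  le : ∀ x : ℝ, (∀ᶠ s in l, s ≤ x) ∨ ∀ᶠ s in l, ¬ s ≤ x
  sec : ∃ k, ∀ᶠ s in l, Sec k s

theorem hl_right (θ : ℝ) : HL (𝓝[>] θ) where
  lt x := by
    rcases lt_or_ge θ x with h | h
    · exact Or.inl (eventually_nhdsWithin_of_eventually_nhds (eventually_lt_nhds h))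
    · refine Or.inr ?_
      filter_upwards [self_mem_nhdsWithin] with s hs
      exact not_lt.2 (h.trans (le_of_lt hs))
  le x := by
    rcases lt_or_ge θ x with h | h
    · exact Or.inl (eventually_nhdsWithin_of_eventually_nhds
        ((eventually_lt_nhds h).mono fun _ hs => hs.le))
    · refine Or.inr ?_
      filter_upwards [self_mem_nhdsWithin] with s hs
      exact not_le.2 (lt_of_le_of_lt h hs)
  sec := by
    refine ⟨⌊θ / c⌋, ?_⟩
    have h1 : (⌊θ / c⌋ : ℝ) * c ≤ θ := by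
      have := Int.floor_le (θ / c)
      rwa [le_div_iff₀ c_pos] at this
    have h2 : θ < (⌊θ / c⌋ + 1 : ℝ) * c := by
      have := Int.lt_floor_add_one (θ / c)
      rwa [div_lt_iff₀ c_pos] at this
    filter_upwards [self_mem_nhdsWithin,
      eventually_nhdsWithin_of_eventually_nhds (eventually_lt_nhds h2)] with s hs hs'
    exact ⟨lt_of_le_of_lt h1 hs, hs'⟩

theorem hl_left (θ : ℝ) : HL (𝓝[<] θ) where
  lt x := by
    rcases le_or_gt θ x with h | h
    · refine Or.inl ?_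
      filter_upwards [self_mem_nhdsWithin] with s hs
      exact lt_of_lt_of_le hs h
    · exact Or.inr (eventually_nhdsWithin_of_eventually_nhds
        ((eventually_gt_nhds h).mono fun _ hs => not_lt.2 hs.le))
  le x := by
    rcases le_or_gt θ x with h | h
    · refine Or.inl ?_
      filter_upwards [self_mem_nhdsWithin] with s hs
      exact (lt_of_lt_of_le hs h).le
    · exact Or.inr (eventually_nhdsWithin_of_eventually_nhds
        ((eventually_gt_nhds h).mono fun _ hs => not_le.2 hs))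
  sec := by
    refine ⟨⌈θ / c⌉ - 1, ?_⟩
    have h1 : ((⌈θ / c⌉ - 1 : ℤ) : ℝ) * c < θ := by
      have := Int.ceil_lt_add_one (θ / c)
      have h3 : ((⌈θ / c⌉ - 1 : ℤ) : ℝ) < θ / c := by
        push_cast
        linarith
      rwa [lt_div_iff₀ c_pos] at h3
    have h2 : θ ≤ (((⌈θ / c⌉ - 1 : ℤ) : ℝ) + 1) * c := by
      have := Int.le_ceil (θ / c)
      rw [div_le_iff₀ c_pos] at this
      push_cast
      linarith
    filter_upwards [self_mem_nhdsWithin,
      eventually_nhdsWithin_of_eventually_nhds (eventually_gt_nhds h1)] with s hs hs'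
    exact ⟨hs', lt_of_lt_of_le hs h2⟩

theorem dec_Icc {l : Filter ℝ} (hl : HL l) (x y d : ℝ) :
    (∀ᶠ s in l, s + d ∈ Icc x y) ∨ ∀ᶠ s in l, s + d ∉ Icc x y := by
  rcases hl.lt (x - d) with h | h
  · refine Or.inr (h.mono fun s hs hh => ?_)
    linarith [hh.1]
  · rcases hl.le (y - d) with h' | h'
    · refine Or.inl ((h.and h').mono fun s hs => ⟨?_, ?_⟩)
      · linarith [not_lt.1 hs.1]
      · linarith [hs.2]
    · refine Or.inr (h'.mono fun s hs hh => hs ?_)
      linarith [hh.2]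

theorem dec_union {l : Filter ℝ} {ι : Type} [Finite ι] (A : ι → Set ℝ)
    (h : ∀ i, (∀ᶠ s in l, s ∈ A i) ∨ ∀ᶠ s in l, s ∉ A i) :
    (∀ᶠ s in l, s ∈ ⋃ i, A i) ∨ ∀ᶠ s in l, s ∉ ⋃ i, A i := by
  by_cases hh : ∃ i, ∀ᶠ s in l, s ∈ A i
  · obtain ⟨i, hi⟩ := hh
    exact Or.inl (hi.mono fun s hs => mem_iUnion.2 ⟨i, hs⟩)
  · have h1 : ∀ i, ∀ᶠ s in l, s ∉ A i := fun i => (h i).resolve_left fun h2 => hh ⟨i, h2⟩
    refine Or.inr ((eventually_all.2 h1).mono fun s hs h2 => ?_)
    obtain ⟨i, hi⟩ := mem_iUnion.1 h2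
    exact hs i hi

section

variable {m : ℕ} {a b : Fin m → ℝ} (hp : (a, b) ∈ Par m)

include hp

theorem par_le (k : Fin m) : -c ≤ a k ∧ b k ≤ c := by
  obtain ⟨h1, -, h3⟩ := hp k
  exact ⟨h1, h3⟩

theorem sub_Icc : (⋃ k, Icc (a k) (b k)) ⊆ Icc (-c) c := by
  intro t ht
  obtain ⟨k, hk⟩ := mem_iUnion.1 ht
  obtain ⟨h1, h2⟩ := par_le hp k
  exact ⟨h1.trans hk.1, hk.2.trans h2⟩

theorem hh_sec {k q : ℤ} (hq : 3 * q ≤ k ∧ k ≤ 3 * q + 2) {s : ℝ} (hs : Sec k s) :
    s ∈ HH m a b ↔ s ∈ ⋃ (e : Bool × Fin m), {s : ℝ | s + (if e.1 then -(q * (3 * c)) else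
      -((q + 1) * (3 * c))) ∈ Icc (a e.2) (b e.2)} := by
  constructor
  · intro h
    obtain ⟨n, hn⟩ := mem_pe.1 h
    have h1 := sub_Icc hp hn
    have h2 : -1 - 3 * n < k + 1 := by
      apply int_lt
      push_cast
      nlinarith [h1.1, hs.2]
    have h3 : k < 1 - 3 * n := by
      apply int_lt
      push_cast
      nlinarith [h1.2, hs.1]
    obtain ⟨j, hj⟩ := mem_iUnion.1 hn
    rcases (show n = -q ∨ n = -(q + 1) by omega) with h4 | h4
    · refine mem_iUnion.2 ⟨(true, j), ?_⟩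
      subst h4
      push_cast at hj
      change s + (if true then -(q * (3 * c)) else -((q + 1) * (3 * c))) ∈ Icc (a j) (b j)
      rw [if_pos rfl]
      have e : s + -(q * (3 * c)) = s + -q * (3 * c) := by ring
      rw [e]
      exact hj
    · refine mem_iUnion.2 ⟨(false, j), ?_⟩
      subst h4
      push_cast at hj
      change s + (if false = true then -(q * (3 * c)) else -((q + 1) * (3 * c))) ∈ Icc (a j) (b j)
      rw [if_neg (by decide)]
      have e : s + -((q + 1) * (3 * c)) = s + (-1 + -q) * (3 * c) := by ring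
      have e' : (-(1 : ℝ) + -q) = -(q + 1) := by ring
      rw [e, e']
      first
        | exact hj
        | (rw [← e']; exact hj)
  · intro h
    obtain ⟨⟨e, j⟩, hj⟩ := mem_iUnion.1 h
    rw [HH, mem_pe]
    cases e
    · refine ⟨-(q + 1), mem_iUnion.2 ⟨j, ?_⟩⟩
      change s + (if false = true then -(q * (3 * c)) else -((q + 1) * (3 * c))) ∈
        Icc (a j) (b j) at hj
      rw [if_neg (by decide)] at hj
      have e : s + ((-(q + 1) : ℤ) : ℝ) * (3 * c) = s + -((q + 1) * (3 * c)) := by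
        push_cast
        ring
      rw [e]
      exact hj
    · refine ⟨-q, mem_iUnion.2 ⟨j, ?_⟩⟩
      change s + (if true then -(q * (3 * c)) else -((q + 1) * (3 * c))) ∈ Icc (a j) (b j) at hj
      rw [if_pos rfl] at hj
      have e : s + ((-q : ℤ) : ℝ) * (3 * c) = s + -(q * (3 * c)) := by
        push_cast
        ring
      rw [e]
      exact hj

theorem dec_HH {l : Filter ℝ} (hl : HL l) :
    (∀ᶠ s in l, s ∈ HH m a b) ∨ ∀ᶠ s in l, s ∉ HH m a b := by
  obtain ⟨k, hk⟩ := hl.sec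
  have hq : 3 * (k / 3) ≤ k ∧ k ≤ 3 * (k / 3) + 2 := by omega
  have h1 := dec_union (l := l) (fun e : Bool × Fin m => {s : ℝ | s + (if e.1 then
    -(((k / 3 : ℤ) : ℝ) * (3 * c)) else -((((k / 3 : ℤ) : ℝ) + 1) * (3 * c))) ∈
      Icc (a e.2) (b e.2)}) (fun e => dec_Icc hl _ _ _)
  rcases h1 with h1 | h1
  · exact Or.inl ((h1.and hk).mono fun s hs => (hh_sec hp hq hs.2).2 hs.1)
  · exact Or.inr ((h1.and hk).mono fun s hs hh => hs.1 ((hh_sec hp hq hs.2).1 hh))

theorem hh_side2 {s : ℝ} (h : s ∈ HH m a b) : s ∉ side 2 := by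
  intro h2
  obtain ⟨n, hn⟩ := mem_pe.1 h
  have h1 := sub_Icc hp hn
  obtain ⟨j, hj, hj'⟩ := side_eq 2
  rw [hj, hj'] at h2
  obtain ⟨k, hk1, hk2⟩ := mem_pe.1 h2
  have h3 : n < k := by
    apply int_lt
    push_cast at hk1
    nlinarith [h1.2, c_pos]
  have h4 : 3 * k < 3 * n + 3 := by
    apply int_lt
    push_cast at hk2
    push_cast
    nlinarith [h1.1, c_pos]
  omega

theorem hh_closed : IsClosed (HH m a b) := pe_closed (isCompact_iUnion fun _ => isCompact_Icc)

theorem edge {l : Filter ℝ} (hl : HL l) : ∃ e, ∀ᶠ s in l, OnEdge (Dcfg m a b) s e := by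
  rcases dec_HH hp hl with h | h
  · refine ⟨.H, h.mono fun s hs => ⟨hs, fun j => ?_⟩⟩
    fin_cases j
    · exact fun hh => hh.2 hs
    · exact fun hh => hh.2 hs
    · exact fun hh => hh_side2 hp hs hh
  · obtain ⟨k, hk⟩ := hl.sec
    obtain ⟨i, hi⟩ := sec_side (k := k)
    refine ⟨.W i, (h.and hk).mono fun s hs => ⟨?_, hs.1, fun j hj => ?_⟩⟩
    · have h1 := (hi s hs.2).1
      fin_cases i
      · exact ⟨h1, hs.1⟩
      · exact ⟨h1, hs.1⟩
      · exact h1
    · have h1 := (hi s hs.2).2 j hj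
      fin_cases j
      · exact fun hh => h1 hh.1
      · exact fun hh => h1 hh.1
      · exact h1

end

end EDG

open Set Filter Topology Pool.Agent.FBM EDG in
theorem EDG_thm : Stmt_EDG := by
  intro m a b hp
  have hper : ∀ t, t + 2 * Real.pi ∈ HH m a b ↔ t ∈ HH m a b := fun t => pe_per _ t
  refine ⟨?_, ?_, fun θ => edge hp (hl_right θ), fun θ => edge hp (hl_left θ), ?_, ?_, ?_, rfl⟩
  · intro i
    fin_cases i
    · exact (side_open 0).sdiff (hh_closed hp)
    · exact (side_open 1).sdiff (hh_closed hp)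
    · exact side_open 2
  · intro i t
    fin_cases i
    · exact and_congr (side_per 0 t) (not_congr (hper t))
    · exact and_congr (side_per 1 t) (not_congr (hper t))
    · exact side_per 2 t
  · refine closure_minimal ?_ (pe_closed isCompact_Icc)
    exact fun t ht => pe_mono Ioo_subset_Icc_self ht.1
  · refine closure_minimal ?_ (pe_closed isCompact_Icc)
    exact fun t ht => pe_mono Ioo_subset_Icc_self ht.1
  · refine closure_minimal ?_ (pe_closed isCompact_Icc)
    exact fun t ht => pe_mono Ioo_subset_Icc_self ht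

end F
end FBM
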