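/-
FBM, block F (immersion), part 2a: power series lemmas at a boundary point.  Architect helper5.
The mathematics is in Pool/Agent/FBM/F/PAPER_F.md.
-/
import Mathlib

namespace FBM
namespace F

open Metric Set Complex

/-- BHP: the Hopf lemma by power series, half disc. -/
def Stmt_BHP : Prop :=
  ∀ (h : ℂ → ℂ) (ρ : ℝ), 0 < ρ → DifferentiableOn ℂ h (ball 0 ρ) →
    (∀ w ∈ ball (0 : ℂ) ρ, 0 < w.im → 0 ≤ (h w).re) → (h 0).re = 0 → (deriv h 0).im = 0 →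
    ∀ w ∈ ball (0 : ℂ) ρ, h w = h 0

/-- BQR: quadrant, real part even across the real axis. -/
def Stmt_BQR : Prop :=
  ∀ (h : ℂ → ℂ) (ρ : ℝ), 0 < ρ → DifferentiableOn ℂ h (ball 0 ρ) →
    (∀ w ∈ ball (0 : ℂ) ρ, (h ((starRingEnd ℂ) w)).re = (h w).re) →
    (∀ w ∈ ball (0 : ℂ) ρ, 0 < w.re → 0 < w.im → 0 ≤ (h w).re) →
    (h 0).re = 0 → (deriv h 0).re = 0 →
    ∀ w ∈ ball (0 : ℂ) ρ, h w = h 0

/-- BQI: quadrant, real part even across the imaginary axis. -/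
def Stmt_BQI : Prop :=
  ∀ (h : ℂ → ℂ) (ρ : ℝ), 0 < ρ → DifferentiableOn ℂ h (ball 0 ρ) →
    (∀ w ∈ ball (0 : ℂ) ρ, (h (-(starRingEnd ℂ) w)).re = (h w).re) →
    (∀ w ∈ ball (0 : ℂ) ρ, 0 < w.re → 0 < w.im → 0 ≤ (h w).re) →
    (h 0).re = 0 → (deriv h 0).im = 0 →
    ∀ w ∈ ball (0 : ℂ) ρ, h w = h 0

end F
end FBM
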