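/-
FBM, block F: power series lemmas at a boundary point (Hopf lemma by power series).
-/
import Pool.Agent.FBM.F.Stmts2

namespace FBM
namespace F

open Metric Set Complex Filter Topology

namespace BHP

/-- The leading coefficient has nonnegative real part after rotation by all directions of the
upper half plane. -/
lemma leading {g k : ℂ → ℂ} {ρ : ℝ} {n : ℕ} (hρ : 0 < ρ) (hn : 0 < n)
    (hpos : ∀ w ∈ ball (0 : ℂ) ρ, 0 < w.im → 0 ≤ (g w).re)
    (hk : ContinuousAt k 0) (hg : ∀ᶠ z in 𝓝 (0 : ℂ), g z = z ^ n * k z)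
    (θ : ℝ) (h0 : 0 < θ) (h1 : θ < n * Real.pi) :
    0 ≤ (exp (θ * I) * k 0).re := by
  have hn' : (0 : ℝ) < n := by exact_mod_cast hn
  set φ : ℝ := θ / n with hφ
  have hφ0 : 0 < φ := div_pos h0 hn'
  have hφ1 : φ < Real.pi := by
    rw [hφ, div_lt_iff₀ hn']
    linarith [mul_comm (n : ℝ) Real.pi]
  have hsin : 0 < Real.sin φ := Real.sin_pos_of_pos_of_lt_pi hφ0 hφ1
  have hcont : Tendsto (fun s : ℝ => (s : ℂ) * exp (φ * I)) (𝓝[>] 0) (𝓝 0) := by
    have h : Tendsto (fun s : ℝ => (s : ℂ) * exp (φ * I)) (𝓝 0) (𝓝 (((0 : ℝ) : ℂ) * exp (φ * I))) :=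
      (continuous_ofReal.mul continuous_const).tendsto 0
    rw [ofReal_zero, zero_mul] at h
    exact h.mono_left nhdsWithin_le_nhds
  have hlim : Tendsto (fun s : ℝ => (exp (θ * I) * k ((s : ℂ) * exp (φ * I))).re) (𝓝[>] 0)
      (𝓝 (exp (θ * I) * k 0).re) := by
    have h := (hk.tendsto.comp hcont).const_mul (exp (θ * I))
    exact (continuous_re.tendsto _).comp h
  refine ge_of_tendsto hlim ?_
  have hball : ∀ᶠ s : ℝ in 𝓝[>] 0, (s : ℂ) * exp (φ * I) ∈ ball (0 : ℂ) ρ :=
    hcont.eventually (ball_mem_nhds 0 hρ)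
  have hev : ∀ᶠ s : ℝ in 𝓝[>] 0, g ((s : ℂ) * exp (φ * I)) =
      ((s : ℂ) * exp (φ * I)) ^ n * k ((s : ℂ) * exp (φ * I)) := hcont.eventually hg
  filter_upwards [hball, hev, self_mem_nhdsWithin] with s hs1 hs2 hs3
  have hs : (0 : ℝ) < s := hs3
  have him : 0 < ((s : ℂ) * exp (φ * I)).im := by
    rw [im_ofReal_mul, exp_ofReal_mul_I_im]
    exact mul_pos hs hsin
  have h := hpos _ hs1 him
  have hpow : ((s : ℂ) * exp (φ * I)) ^ n = ((s ^ n : ℝ) : ℂ) * exp (θ * I) := by
    rw [mul_pow, ← exp_nat_mul]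
    push_cast
    congr 2
    rw [hφ]
    push_cast
    have : (n : ℂ) ≠ 0 := by exact_mod_cast hn.ne'
    field_simp
  rw [hs2, hpow, mul_assoc, re_ofReal_mul] at h
  exact nonneg_of_mul_nonneg_right h (pow_pos hs n)

lemma identity {h : ℂ → ℂ} {ρ : ℝ} (hρ : 0 < ρ) (hd : DifferentiableOn ℂ h (ball 0 ρ))
    (hev : ∀ᶠ z in 𝓝 (0 : ℂ), h z - h 0 = 0) : ∀ w ∈ ball (0 : ℂ) ρ, h w = h 0 := by
  have han : AnalyticOnNhd ℂ (fun z => h z - h 0) (ball 0 ρ) :=
    (hd.sub (differentiableOn_const _)).analyticOnNhd isOpen_ball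
  have := han.eqOn_zero_of_preconnected_of_eventuallyEq_zero
    (convex_ball (0 : ℂ) ρ).isPreconnected (mem_ball_self hρ) hev
  intro w hw
  exact sub_eq_zero.1 (this hw)

end BHP

theorem BHP_thm : Stmt_BHP := by
  intro h ρ hρ hd hpos h0 him
  by_cases hev : ∀ᶠ z in 𝓝 (0 : ℂ), h z - h 0 = 0
  · exact BHP.identity hρ hd hev
  exfalso
  have han : AnalyticAt ℂ (fun z => h z - h 0) 0 :=
    ((hd.sub (differentiableOn_const _)).analyticOnNhd isOpen_ball) 0 (mem_ball_self hρ)
  obtain ⟨n, k, hk, hk0, hg⟩ := (han.exists_eventuallyEq_pow_smul_nonzero_iff).2 hev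
  have hg' : ∀ᶠ z in 𝓝 (0 : ℂ), h z - h 0 = z ^ n * k z := by
    filter_upwards [hg] with z hz
    rw [hz, sub_zero, smul_eq_mul]
  have hn : 0 < n := by
    rcases Nat.eq_zero_or_pos n with hn | hn
    · exfalso
      have := hg'.self_of_nhds
      rw [hn, pow_zero, one_mul, sub_self] at this
      exact hk0 this.symm
    · exact hn
  have hpos' : ∀ w ∈ ball (0 : ℂ) ρ, 0 < w.im → 0 ≤ (h w - h 0).re := by
    intro w hw hw'
    rw [sub_re, h0, sub_zero]
    exact hpos w hw hw'
  have key := BHP.leading hρ hn hpos' hk.continuousAt hg'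
  have hpi := Real.pi_pos
  have e1 : ∀ θ : ℝ, (exp (θ * I) * k 0).re = Real.cos θ * (k 0).re - Real.sin θ * (k 0).im := by
    intro θ
    rw [mul_re, exp_ofReal_mul_I_re, exp_ofReal_mul_I_im]
  have hs2 : (0 : ℝ) < Real.sqrt 2 / 2 := by positivity
  rcases Nat.lt_or_ge n 2 with hn2 | hn2
  · -- n = 1
    have hn1 : n = 1 := by omega
    subst hn1
    have hder : deriv h 0 = k 0 := by
      have hd1 : HasDerivAt (fun z : ℂ => z * k z) (1 * k 0 + 0 * deriv k 0) 0 :=
        (hasDerivAt_id (0 : ℂ)).mul hk.differentiableAt.hasDerivAt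
      have hd2 : HasDerivAt (fun z : ℂ => h z - h 0) (1 * k 0 + 0 * deriv k 0) 0 := by
        refine hd1.congr_of_eventuallyEq ?_
        filter_upwards [hg'] with z hz
        rw [hz, pow_one]
      have hd3 : HasDerivAt h (1 * k 0 + 0 * deriv k 0) 0 := by
        have := hd2.add_const (h 0)
        simpa using this
      rw [hd3.deriv]
      ring
    rw [hder] at him
    have k1 := key (Real.pi / 4) (by positivity) (by push_cast; linarith)
    have k2 := key (Real.pi - Real.pi / 4) (by linarith) (by push_cast; linarith)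
    rw [e1, him, mul_zero, sub_zero] at k1 k2
    rw [Real.cos_pi_sub] at k2
    rw [Real.cos_pi_div_four] at k1 k2
    have : (k 0).re = 0 := by nlinarith
    exact hk0 (Complex.ext this him)
  · have hn3 : (2 : ℝ) ≤ n := by exact_mod_cast hn2
    have hb : 2 * Real.pi ≤ n * Real.pi := mul_le_mul_of_nonneg_right hn3 hpi.le
    have k1 := key (Real.pi / 2) (by positivity) (by linarith)
    have k2 := key (Real.pi / 2 + Real.pi) (by positivity) (by linarith)
    have k3 := key (Real.pi / 4) (by positivity) (by linarith)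
    have k4 := key (Real.pi / 4 + Real.pi) (by positivity) (by linarith)
    rw [e1] at k1 k2 k3 k4
    rw [Real.cos_add_pi, Real.sin_add_pi] at k2 k4
    rw [Real.cos_pi_div_two, Real.sin_pi_div_two] at k1 k2
    rw [Real.cos_pi_div_four, Real.sin_pi_div_four] at k3 k4
    have him0 : (k 0).im = 0 := by linarith
    have hre0 : (k 0).re = 0 := by
      rw [him0] at k3 k4
      nlinarith
    exact hk0 (Complex.ext hre0 him0)

theorem BQR_thm : Stmt_BQR := by
  intro h ρ hρ hd hsym hpos h0 hre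
  -- positivity on the right half disc
  have hcont : ContinuousOn h (ball 0 ρ) := hd.continuousOn
  have hright : ∀ w ∈ ball (0 : ℂ) ρ, 0 < w.re → 0 ≤ (h w).re := by
    intro w hw hwre
    rcases lt_trichotomy w.im 0 with him | him | him
    · have hc : (starRingEnd ℂ) w ∈ ball (0 : ℂ) ρ := by
        rw [mem_ball_zero_iff] at hw ⊢
        rwa [RCLike.norm_conj]
      rw [← hsym w hw]
      exact hpos _ hc (by simpa using hwre) (by simpa using him)
    · have hlim : Tendsto (fun s : ℝ => w + s * I) (𝓝[>] 0) (𝓝 w) := by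
        have h' : Tendsto (fun s : ℝ => w + s * I) (𝓝 0) (𝓝 (w + ((0 : ℝ) : ℂ) * I)) :=
          (continuous_const.add (continuous_ofReal.mul continuous_const)).tendsto 0
        rw [ofReal_zero, zero_mul, add_zero] at h'
        exact h'.mono_left nhdsWithin_le_nhds
      have hc : Tendsto (fun s : ℝ => (h (w + s * I)).re) (𝓝[>] 0) (𝓝 (h w).re) :=
        (continuous_re.tendsto _).comp
          ((hcont.continuousAt (isOpen_ball.mem_nhds hw)).tendsto.comp hlim)
      refine ge_of_tendsto hc ?_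
      filter_upwards [hlim.eventually (isOpen_ball.mem_nhds hw), self_mem_nhdsWithin] with s hs1 hs2
      have hs : (0 : ℝ) < s := hs2
      refine hpos _ hs1 ?_ ?_
      · simpa using hwre
      · simpa [him] using hs
    · exact hpos w hw hwre him
  have hmem : ∀ w ∈ ball (0 : ℂ) ρ, -I * w ∈ ball (0 : ℂ) ρ := by
    intro w hw
    rw [mem_ball_zero_iff] at hw ⊢
    simpa using hw
  have hmaps : MapsTo (fun w : ℂ => -I * w) (ball 0 ρ) (ball 0 ρ) := hmem
  have hlin : DifferentiableOn ℂ (fun w : ℂ => -I * w) (ball 0 ρ) :=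
    (differentiable_id.const_mul (-I)).differentiableOn
  have hH : DifferentiableOn ℂ (fun w => h (-I * w)) (ball 0 ρ) := hd.comp hlin hmaps
  have hder : deriv (fun w => h (-I * w)) 0 = -I * deriv h 0 := by
    have h1 : HasDerivAt h (deriv h (-I * 0)) (-I * 0) := by
      rw [mul_zero]
      exact (hd.differentiableAt (ball_mem_nhds 0 hρ)).hasDerivAt
    have h2 : HasDerivAt (fun w : ℂ => -I * w) (-I * 1) 0 := (hasDerivAt_id (0 : ℂ)).const_mul (-I)
    have h3 := h1.comp (0 : ℂ) h2
    have h4 : deriv (fun w => h (-I * w)) 0 = deriv h (-I * 0) * (-I * 1) := h3.deriv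
    rw [h4, mul_zero, mul_one, mul_comm]
  have key := BHP_thm (fun w => h (-I * w)) ρ hρ hH ?_ ?_ ?_
  · intro w hw
    have hw' : I * w ∈ ball (0 : ℂ) ρ := by
      rw [mem_ball_zero_iff] at hw ⊢
      simpa using hw
    have := key (I * w) hw'
    simp only [mul_zero] at this
    rw [← this]
    congr 1
    rw [← mul_assoc, neg_mul, I_mul_I]
    ring
  · intro w hw him
    refine hright _ (hmem w hw) ?_
    simpa using him
  · simpa using h0
  · rw [hder]
    simpa using hre

theorem BQI_thm : Stmt_BQI := by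
  intro h ρ hρ hd hsym hpos h0 him0
  have hcont : ContinuousOn h (ball 0 ρ) := hd.continuousOn
  refine BHP_thm h ρ hρ hd ?_ h0 him0
  intro w hw hwim
  rcases lt_trichotomy w.re 0 with hre | hre | hre
  · have hc : -(starRingEnd ℂ) w ∈ ball (0 : ℂ) ρ := by
      rw [mem_ball_zero_iff] at hw ⊢
      rwa [norm_neg, RCLike.norm_conj]
    rw [← hsym w hw]
    exact hpos _ hc (by simpa using hre) (by simpa using hwim)
  · have hlim : Tendsto (fun s : ℝ => w + s) (𝓝[>] 0) (𝓝 w) := by
      have h' : Tendsto (fun s : ℝ => w + s) (𝓝 0) (𝓝 (w + ((0 : ℝ) : ℂ))) :=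
        (continuous_const.add continuous_ofReal).tendsto 0
      rw [ofReal_zero, add_zero] at h'
      exact h'.mono_left nhdsWithin_le_nhds
    have hc : Tendsto (fun s : ℝ => (h (w + s)).re) (𝓝[>] 0) (𝓝 (h w).re) :=
      (continuous_re.tendsto _).comp
        ((hcont.continuousAt (isOpen_ball.mem_nhds hw)).tendsto.comp hlim)
    refine ge_of_tendsto hc ?_
    filter_upwards [hlim.eventually (isOpen_ball.mem_nhds hw), self_mem_nhdsWithin] with s hs1 hs2
    have hs : (0 : ℝ) < s := hs2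
    refine hpos _ hs1 ?_ ?_
    · simpa [hre] using hs
    · simpa using hwim
  · exact hpos w hw hre hwim

end F
end FBM
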