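import Pool.Agent.FBM.F.Stmts

/-!
# COMP: maximum principle for `y / x` on a nodal component (PAPER_F.md, section COMP)
-/

namespace FBM
namespace F

open Metric Set Complex Filter Topology

namespace COMP

/-- Joining by segments. -/
theorem joinedIn_of_segment {s : Set ℂ} {a b : ℂ} (h : segment ℝ a b ⊆ s) : JoinedIn s a b :=
  (((convex_segment a b).isPathConnected ⟨a, left_mem_segment ℝ a b⟩).joinedIn a
    (left_mem_segment ℝ a b) b (right_mem_segment ℝ a b)).mono h

/-- Points of the closed disc have norm at most one. -/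
theorem norm_le {p : ℂ} (hp : p ∈ closedBall (0 : ℂ) 1) : ‖p‖ ≤ 1 := by
  simpa using hp

/-- The segment from an interior point to a point of the closed disc. -/
theorem segment_mem {a p : ℂ} {r : ℝ} (ha : a ∈ ball (0 : ℂ) 1) (har : a ∈ ball p r)
    (hp : p ∈ closedBall (0 : ℂ) 1) :
    segment ℝ a p ⊆ (ball (0 : ℂ) 1 ∩ ball p r) ∪ {p} := by
  rintro w ⟨s, t, hs, ht, hst, rfl⟩
  have ha' : ‖a‖ < 1 := by simpa using ha
  have hp' : ‖p‖ ≤ 1 := norm_le hp
  have har' : ‖a - p‖ < r := by rwa [mem_ball, dist_eq_norm] at har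
  rcases hs.eq_or_lt with h0 | h0
  · right
    have ht1 : t = 1 := by linarith
    rw [← h0, ht1, zero_smul, one_smul, zero_add]
    rfl
  · left
    constructor
    · rw [mem_ball, dist_zero_right]
      calc ‖s • a + t • p‖ ≤ ‖s • a‖ + ‖t • p‖ := norm_add_le _ _
        _ = s * ‖a‖ + t * ‖p‖ := by
          rw [norm_smul, norm_smul, Real.norm_of_nonneg hs, Real.norm_of_nonneg ht]
        _ < s * 1 + t * 1 := by nlinarith
        _ = 1 := by linarith
    · rw [mem_ball, dist_eq_norm]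
      have h1 : s • a + t • p - p = s • (a - p) := by
        have : t = 1 - s := by linarith
        rw [this, sub_smul, one_smul, smul_sub]
        ring
      rw [h1, norm_smul, Real.norm_of_nonneg hs]
      have h2 : 0 ≤ ‖a - p‖ := norm_nonneg _
      nlinarith

/-- `x` is nonnegative on the closed disc. -/
theorem nonneg {x : ℂ → ℝ} (hx : PosHarm x) {p : ℂ} (hp : p ∈ closedBall (0 : ℂ) 1) :
    0 ≤ x p := by
  have h1 : closure (ball (0 : ℂ) 1) = closedBall 0 1 := closure_ball 0 one_ne_zero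
  have h2 : ContinuousOn x (closure (ball (0 : ℂ) 1)) := by rw [h1]; exact hx.cont
  have h3 : p ∈ closure (ball (0 : ℂ) 1) := by rwa [h1]
  have h4 : MapsTo x (closure (ball (0 : ℂ) 1)) (closure (Ici 0)) :=
    MapsTo.closure_of_continuousOn (fun z hz => (hx.pos z hz).le) h2
  have h5 := h4 h3
  rwa [isClosed_Ici.closure_eq] at h5

/-- If `y = M x` in the open disc, then on the closed disc. -/
theorem eq_closed {x y : ℂ → ℝ} (hx : PosHarm x) (hy : PosHarm y) {M : ℝ}
    (h : ∀ z ∈ ball (0 : ℂ) 1, y z = M * x z) {p : ℂ} (hp : p ∈ closedBall (0 : ℂ) 1) :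
    y p = M * x p := by
  have h1 : closure (ball (0 : ℂ) 1) = closedBall 0 1 := closure_ball 0 one_ne_zero
  have h2 : ContinuousOn (fun z => y z - M * x z) (closure (ball (0 : ℂ) 1)) := by
    rw [h1]
    exact hy.cont.sub (continuousOn_const.mul hx.cont)
  have h3 : p ∈ closure (ball (0 : ℂ) 1) := by rwa [h1]
  have h4 : MapsTo (fun z => y z - M * x z) (closure (ball (0 : ℂ) 1)) (closure {(0 : ℝ)}) := by
    refine MapsTo.closure_of_continuousOn (fun z hz => ?_) h2
    simp only [mem_singleton_iff]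
    rw [h z hz, sub_self]
  have h5 := h4 h3
  rw [isClosed_singleton.closure_eq, mem_singleton_iff] at h5
  linarith

/-- The maximum principle inside the disc. -/
theorem max_inside {x y : ℂ → ℝ} (hx : PosHarm x) (hy : PosHarm y) {M : ℝ} {p : ℂ}
    (hp : p ∈ ball (0 : ℂ) 1) (hle : ∀ᶠ z in 𝓝 p, y z ≤ M * x z) (heq : y p = M * x p) :
    ∀ z ∈ ball (0 : ℂ) 1, y z = M * x z := by
  obtain ⟨f, hf, hfx⟩ := hx.hol
  obtain ⟨g, hg, hgy⟩ := hy.hol
  set h : ℂ → ℂ := fun z => exp (g z - M * f z) with hh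
  have hd : DifferentiableOn ℂ h (ball 0 1) := (hg.sub (hf.const_mul (M : ℂ))).cexp
  have hnorm : ∀ z ∈ ball (0 : ℂ) 1, ‖h z‖ = Real.exp (y z - M * x z) := by
    intro z hz
    rw [hh]
    simp only
    rw [norm_exp, sub_re, re_ofReal_mul, hfx z hz, hgy z hz]
  have hnhds : ∀ᶠ z in 𝓝 p, z ∈ ball (0 : ℂ) 1 := isOpen_ball.mem_nhds hp
  have h1 : ∀ᶠ z in 𝓝 p, h z = h p := by
    refine eventually_eq_of_isLocalMax_norm ?_ ?_
    · filter_upwards [hnhds] with z hz
      exact (hd z hz).differentiableAt (isOpen_ball.mem_nhds hz)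
    · change ∀ᶠ z in 𝓝 p, ‖h z‖ ≤ ‖h p‖
      filter_upwards [hnhds, hle] with z hz hz2
      rw [hnorm z hz, hnorm p hp]
      apply Real.exp_le_exp.2
      linarith
  have h2 : EqOn h (fun _ => h p) (ball 0 1) := by
    refine AnalyticOnNhd.eqOn_of_preconnected_of_eventuallyEq (𝕜 := ℂ)
      (hd.analyticOnNhd isOpen_ball) analyticOnNhd_const
      (convex_ball (0 : ℂ) 1).isPreconnected hp h1
  intro z hz
  have h3 : ‖h z‖ = ‖h p‖ := by rw [h2 hz]
  rw [hnorm z hz, hnorm p hp, Real.exp_eq_exp, heq] at h3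
  linarith

/-- The set `{y > c x}`. -/
def P (x y : ℂ → ℝ) (c : ℝ) : Set ℂ := {w | w ∈ ball (0 : ℂ) 1 ∧ c * x w < y w}

theorem isOpen_P {x y : ℂ → ℝ} (hx : PosHarm x) (hy : PosHarm y) (c : ℝ) :
    IsOpen (P x y c) := by
  have h1 : ContinuousOn (fun z => y z - c * x z) (ball (0 : ℂ) 1) :=
    (hy.cont.sub (continuousOn_const.mul hx.cont)).mono ball_subset_closedBall
  have h2 := h1.isOpen_inter_preimage isOpen_ball (isOpen_Ioi (a := (0 : ℝ)))
  have h3 : ball (0 : ℂ) 1 ∩ (fun z => y z - c * x z) ⁻¹' Ioi 0 = P x y c := by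
    ext z
    simp only [P, mem_inter_iff, mem_preimage, mem_Ioi, mem_setOf_eq, sub_pos]
  rwa [h3] at h2

/-- Close to a point of the closure of the component with `y > c x`. -/
theorem near {x y : ℂ → ℝ} (hx : PosHarm x) (hy : PosHarm y) {c : ℝ} {z p : ℂ}
    (hp : p ∈ closedBall (0 : ℂ) 1) (hpc : c * x p < y p)
    (hcl : ∀ r > 0, ∃ w, JoinedIn (P x y c) z w ∧ w ∈ ball p r) :
    ∃ r > 0, (∀ w ∈ ball (0 : ℂ) 1 ∩ ball p r, JoinedIn (P x y c) z w) ∧
      JoinedIn (P x y c ∪ {p}) z p := by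
  have h1 : ContinuousOn (fun z => y z - c * x z) (closedBall (0 : ℂ) 1) :=
    hy.cont.sub (continuousOn_const.mul hx.cont)
  have h2 : ∀ᶠ w in 𝓝[closedBall (0 : ℂ) 1] p, 0 < y w - c * x w :=
    (h1 p hp).eventually (isOpen_Ioi.mem_nhds (sub_pos.2 hpc))
  obtain ⟨r, hr, hrs⟩ := Metric.mem_nhdsWithin_iff.1 h2
  have hsub : ball (0 : ℂ) 1 ∩ ball p r ⊆ P x y c := by
    intro w hw
    refine ⟨hw.1, ?_⟩
    have := hrs ⟨hw.2, ball_subset_closedBall hw.1⟩
    simp only [mem_setOf_eq, sub_pos] at this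
    exact this
  obtain ⟨w1, hw1, hw1r⟩ := hcl r hr
  have hw1P : w1 ∈ P x y c := hw1.target_mem
  have hw1B : w1 ∈ ball (0 : ℂ) 1 := hw1P.1
  refine ⟨r, hr, fun w hw => ?_, ?_⟩
  · have hconv : Convex ℝ (ball (0 : ℂ) 1 ∩ ball p r) := (convex_ball _ _).inter (convex_ball _ _)
    exact hw1.trans (joinedIn_of_segment ((hconv.segment_subset ⟨hw1B, hw1r⟩ hw).trans hsub))
  · refine (hw1.mono subset_union_left).trans (joinedIn_of_segment ?_)
    exact (segment_mem hw1B hw1r hp).trans (union_subset_union_left _ hsub)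

end COMP

theorem COMP_thm : Stmt_COMP := by
  intro x y hx hy hq0 hhopf hcorner c hc z hz hcz
  obtain ⟨q0, hq0s, hxq0, hyq0⟩ := hq0
  -- the component
  have hzP : z ∈ COMP.P x y c := ⟨hz, hcz⟩
  -- not proportional
  have hnot : ∀ M : ℝ, ¬ ∀ w ∈ ball (0 : ℂ) 1, y w = M * x w := by
    intro M hM
    have := COMP.eq_closed hx hy hM (sphere_subset_closedBall hq0s)
    rw [hxq0, mul_zero] at this
    exact hyq0.ne' this
  -- convergence along sequences in the disc
  have hlim : ∀ (u : ℂ → ℝ), ContinuousOn u (closedBall (0 : ℂ) 1) → ∀ (w : ℕ → ℂ) (p : ℂ),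
      p ∈ closedBall (0 : ℂ) 1 → (∀ n, w n ∈ closedBall (0 : ℂ) 1) → Tendsto w atTop (𝓝 p) →
      Tendsto (fun n => u (w n)) atTop (𝓝 (u p)) := by
    intro u hu w p hp hw hwp
    exact (hu p hp).tendsto.comp
      (tendsto_nhdsWithin_iff.2 ⟨hwp, Filter.Eventually.of_forall hw⟩)
  -- the limit point
  obtain ⟨p, hp, hcl, hcase⟩ : ∃ p ∈ closedBall (0 : ℂ) 1,
      (∀ r > 0, ∃ w, JoinedIn (COMP.P x y c) z w ∧ w ∈ ball p r) ∧
      (x p = 0 ∨ ∃ M, c < M ∧ (∀ w, JoinedIn (COMP.P x y c) z w → y w ≤ M * x w) ∧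
        y p = M * x p) := by
    set S : Set ℝ := {t | ∃ w, JoinedIn (COMP.P x y c) z w ∧ y w / x w = t} with hS
    have hSne : S.Nonempty := ⟨_, z, JoinedIn.refl hzP, rfl⟩
    -- a sequence in the component has a cluster point
    have hseq : ∀ w : ℕ → ℂ, (∀ n, JoinedIn (COMP.P x y c) z (w n)) →
        ∃ p ∈ closedBall (0 : ℂ) 1, ∃ φ : ℕ → ℕ, StrictMono φ ∧
          Tendsto (fun n => w (φ n)) atTop (𝓝 p) ∧
          ∀ r > 0, ∃ w, JoinedIn (COMP.P x y c) z w ∧ w ∈ ball p r := by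
      intro w hw
      obtain ⟨p, hp, φ, hφ, hφp⟩ := (isCompact_closedBall (0 : ℂ) 1).tendsto_subseq
        (fun n => ball_subset_closedBall (hw n).target_mem.1)
      refine ⟨p, hp, φ, hφ, hφp, fun r hr => ?_⟩
      obtain ⟨n, hn⟩ := (hφp.eventually (ball_mem_nhds p hr)).exists
      exact ⟨w (φ n), hw _, hn⟩
    by_cases hb : BddAbove S
    · obtain ⟨u, -, hu, huS⟩ := exists_seq_tendsto_sSup hSne hb
      choose w hw hwu using huS
      obtain ⟨p, hp, φ, hφ, hφp, hcl⟩ := hseq w hw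
      refine ⟨p, hp, hcl, Or.inr ⟨sSup S, ?_, ?_, ?_⟩⟩
      · have h1 : c < y z / x z := by
          rw [lt_div_iff₀ (hx.pos z hz)]
          exact hcz
        exact lt_of_lt_of_le h1 (le_csSup hb ⟨z, JoinedIn.refl hzP, rfl⟩)
      · intro w' hw'
        have h1 : y w' / x w' ≤ sSup S := le_csSup hb ⟨w', hw', rfl⟩
        rwa [div_le_iff₀ (hx.pos w' hw'.target_mem.1)] at h1
      · have hwB : ∀ n, w (φ n) ∈ closedBall (0 : ℂ) 1 := fun n =>
          ball_subset_closedBall (hw _).target_mem.1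
        have h1 := hlim y hy.cont _ p hp hwB hφp
        have h2 := hlim x hx.cont _ p hp hwB hφp
        have h3 : Tendsto (fun n => u (φ n)) atTop (𝓝 (sSup S)) := hu.comp hφ.tendsto_atTop
        have h4 : Tendsto (fun n => u (φ n) * x (w (φ n))) atTop (𝓝 (sSup S * x p)) :=
          h3.mul h2
        have h5 : (fun n => u (φ n) * x (w (φ n))) = fun n => y (w (φ n)) := by
          funext n
          rw [← hwu (φ n), div_mul_cancel₀]
          exact (hx.pos _ (hw _).target_mem.1).ne'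
        rw [h5] at h4
        exact tendsto_nhds_unique h1 h4
    · have hbig : ∀ n : ℕ, ∃ w, JoinedIn (COMP.P x y c) z w ∧ (n : ℝ) < y w / x w := by
        intro n
        by_contra hcon
        push Not at hcon
        apply hb
        refine ⟨n, ?_⟩
        rintro t ⟨w, hw, rfl⟩
        exact hcon w hw
      choose w hw hwn using hbig
      obtain ⟨p, hp, φ, hφ, hφp, hcl⟩ := hseq w hw
      refine ⟨p, hp, hcl, Or.inl ?_⟩
      by_contra hxp
      have hwB : ∀ n, w (φ n) ∈ closedBall (0 : ℂ) 1 := fun n =>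
        ball_subset_closedBall (hw _).target_mem.1
      have h1 := hlim y hy.cont _ p hp hwB hφp
      have h2 := hlim x hx.cont _ p hp hwB hφp
      have h3 : Tendsto (fun n => y (w (φ n)) / x (w (φ n))) atTop (𝓝 (y p / x p)) :=
        h1.div h2 hxp
      have h4 : Tendsto (fun n => y (w (φ n)) / x (w (φ n))) atTop atTop := by
        refine tendsto_atTop_mono (fun n => (hwn (φ n)).le) ?_
        exact tendsto_natCast_atTop_atTop.comp hφ.tendsto_atTop
      exact not_tendsto_nhds_of_tendsto_atTop h4 _ h3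
  -- the conclusion when `x p = 0`
  have hzero : x p = 0 → ∃ q ∈ sphere (0 : ℂ) 1, x q = 0 ∧ 0 < y q ∧
      JoinedIn ({w | w ∈ ball (0 : ℂ) 1 ∧ c * x w < y w} ∪ {q}) z q := by
    intro hxp
    have hps : p ∈ sphere (0 : ℂ) 1 := by
      rw [mem_sphere]
      refine le_antisymm hp ?_
      by_contra hlt
      push Not at hlt
      exact (hx.pos p hlt).ne' hxp
    rcases (COMP.nonneg hy hp).eq_or_lt with h0 | h0
    · obtain ⟨r, hr, hrq⟩ := hcorner p hps hxp h0.symm c hc
      obtain ⟨w1, hw1, hw1r⟩ := hcl r hr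
      obtain ⟨q, hqs, hxq, hyq, hj⟩ := hrq w1 ⟨hw1.target_mem.1, hw1r⟩ hw1.target_mem.2
      exact ⟨q, hqs, hxq, hyq, (hw1.mono subset_union_left).trans hj⟩
    · obtain ⟨r, hr, -, hj⟩ := COMP.near hx hy hp (by rw [hxp, mul_zero]; exact h0) hcl
      exact ⟨p, hps, hxp, h0, hj⟩
  rcases hcase with hxp | ⟨M, hcM, hMle, hMp⟩
  · exact hzero hxp
  · rcases (COMP.nonneg hx hp).eq_or_lt with h0 | h0
    · exact hzero h0.symm
    · exfalso
      have hpc : c * x p < y p := by rw [hMp]; nlinarith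
      obtain ⟨r, hr, hnear, -⟩ := COMP.near hx hy hp hpc hcl
      rcases (COMP.norm_le hp).eq_or_lt with h1 | h1
      · have hps : p ∈ sphere (0 : ℂ) 1 := by simpa using h1
        have hyp : 0 < y p := by rw [hMp]; exact mul_pos (hc.trans hcM) h0
        exact hnot M (hhopf p hps h0 hyp M ⟨r, hr, fun w hw => hMle w (hnear w hw)⟩ hMp)
      · have hpb : p ∈ ball (0 : ℂ) 1 := by simpa using h1
        refine hnot M (COMP.max_inside hx hy hpb ?_ hMp)
        filter_upwards [isOpen_ball.mem_nhds hpb, ball_mem_nhds p hr] with w hw1 hw2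
        exact hMle w (hnear w ⟨hw1, hw2⟩)

end F
end FBM
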