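/-
FBM, block F (immersion), part 1: the abstract Rado theorem.  Architect helper5.
The mathematics is in Pool/Agent/FBM/F/PAPER_F.md.  These statements do not depend
on the definitions of the other blocks.
-/
import Mathlib

namespace FBM
namespace F

open Metric Set Complex

/-- Two curves that cross at one point `z0` must meet a second time (plane topology, by
continuous logarithms). -/
def Stmt_TOP : Prop :=
  ∀ (z0 : ℂ) (δ α β : ℝ) (S T : Set ℂ), 0 < δ → 0 < β → 3 * β < 2 * Real.pi →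
    Disjoint S T → z0 ∉ S → z0 ∉ T →
    (∀ t : ℝ, 0 < t → t ≤ δ → z0 + t * exp (α * I) ∈ S) →
    (∀ t : ℝ, 0 < t → t ≤ δ → z0 + t * exp ((α + β : ℝ) * I) ∈ T) →
    (∀ t : ℝ, 0 < t → t ≤ δ → z0 + t * exp ((α + 2 * β : ℝ) * I) ∈ S) →
    (∀ t : ℝ, 0 < t → t ≤ δ → z0 + t * exp ((α + 3 * β : ℝ) * I) ∈ T) →
    JoinedIn S (z0 + δ * exp (α * I)) (z0 + δ * exp ((α + 2 * β : ℝ) * I)) →
    JoinedIn T (z0 + δ * exp ((α + β : ℝ) * I)) (z0 + δ * exp ((α + 3 * β : ℝ) * I)) →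
    False

/-- Local structure of `Re U` at a zero of order at least two. -/
def Stmt_LOC : Prop :=
  ∀ (U : ℂ → ℂ) (z0 : ℂ) (s : Set ℂ), IsOpen s → z0 ∈ s → DifferentiableOn ℂ U s →
    U z0 = 0 → deriv U z0 = 0 → (¬ ∀ᶠ z in nhds z0, U z = 0) →
    ∃ (k : ℕ) (α δ : ℝ), 2 ≤ k ∧ 0 < δ ∧ closedBall z0 δ ⊆ s ∧
      (∀ t : ℝ, 0 < t → t ≤ δ → 0 < (U (z0 + t * exp (α * I))).re) ∧
      (∀ t : ℝ, 0 < t → t ≤ δ →
        (U (z0 + t * exp ((α + Real.pi / k : ℝ) * I))).re < 0) ∧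
      (∀ t : ℝ, 0 < t → t ≤ δ →
        0 < (U (z0 + t * exp ((α + 2 * (Real.pi / k) : ℝ) * I))).re) ∧
      (∀ t : ℝ, 0 < t → t ≤ δ →
        (U (z0 + t * exp ((α + 3 * (Real.pi / k) : ℝ) * I))).re < 0)

/-- `x` is the real part of a holomorphic function on the open unit disc, continuous on the
closed disc and positive inside. -/
structure PosHarm (x : ℂ → ℝ) : Prop where
  hol : ∃ f : ℂ → ℂ, DifferentiableOn ℂ f (ball 0 1) ∧ ∀ z ∈ ball (0 : ℂ) 1, x z = (f z).re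
  cont : ContinuousOn x (closedBall 0 1)
  pos : ∀ z ∈ ball (0 : ℂ) 1, 0 < x z

/-- The Hopf property at the boundary point `p` for the ordered pair `(x, y)`: if
`y ≤ M x` in the disc near `p` with equality at `p`, then `y = M x` in the disc. -/
def HopfAt (x y : ℂ → ℝ) (p : ℂ) : Prop :=
  ∀ M : ℝ, (∃ r > 0, ∀ z ∈ ball (0 : ℂ) 1 ∩ ball p r, y z ≤ M * x z) → y p = M * x p →
    ∀ z ∈ ball (0 : ℂ) 1, y z = M * x z

/-- The corner property at a boundary point `p` with `x p = y p = 0`: close to `p` every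
point of `{y > c x}` can be joined inside `{y > c x}` to a point of the circle where
`x = 0 < y`. -/
def CornerAt (x y : ℂ → ℝ) (p : ℂ) : Prop :=
  ∀ c : ℝ, 0 < c → ∃ r > 0, ∀ z ∈ ball (0 : ℂ) 1 ∩ ball p r, c * x z < y z →
    ∃ q ∈ sphere (0 : ℂ) 1, x q = 0 ∧ 0 < y q ∧
      JoinedIn ({w | w ∈ ball (0 : ℂ) 1 ∧ c * x w < y w} ∪ {q}) z q

/-- Maximum principle: every point of `{y > c x}` is joined inside this set to a point of the
circle where `x = 0 < y`. -/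
def Stmt_COMP : Prop :=
  ∀ (x y : ℂ → ℝ), PosHarm x → PosHarm y →
    (∃ q ∈ sphere (0 : ℂ) 1, x q = 0 ∧ 0 < y q) →
    (∀ p ∈ sphere (0 : ℂ) 1, 0 < x p → 0 < y p → HopfAt x y p) →
    (∀ p ∈ sphere (0 : ℂ) 1, x p = 0 → y p = 0 → CornerAt x y p) →
    ∀ c : ℝ, 0 < c → ∀ z ∈ ball (0 : ℂ) 1, c * x z < y z →
      ∃ q ∈ sphere (0 : ℂ) 1, x q = 0 ∧ 0 < y q ∧
        JoinedIn ({w | w ∈ ball (0 : ℂ) 1 ∧ c * x w < y w} ∪ {q}) z q

/-- Abstract Rado theorem: no common critical point of `x` and `y` inside the disc. -/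
def Stmt_RADO : Prop :=
  ∀ (x y : ℂ → ℝ) (I1 I2 : Set ℂ), PosHarm x → PosHarm y →
    (∃ q ∈ sphere (0 : ℂ) 1, x q = 0 ∧ 0 < y q) →
    (∃ q ∈ sphere (0 : ℂ) 1, y q = 0 ∧ 0 < x q) →
    I1 ⊆ sphere 0 1 → I2 ⊆ sphere 0 1 → Disjoint I1 I2 →
    IsPathConnected I1 → IsPathConnected I2 →
    (∀ p ∈ sphere (0 : ℂ) 1, x p = 0 → 0 < y p → p ∈ I1) →
    (∀ p ∈ sphere (0 : ℂ) 1, y p = 0 → 0 < x p → p ∈ I2) →
    (∀ p ∈ sphere (0 : ℂ) 1, 0 < x p → 0 < y p → HopfAt x y p ∧ HopfAt y x p) →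
    (∀ p ∈ sphere (0 : ℂ) 1, x p = 0 → y p = 0 → CornerAt x y p ∧ CornerAt y x p) →
    ∀ (f g : ℂ → ℂ), DifferentiableOn ℂ f (ball 0 1) → DifferentiableOn ℂ g (ball 0 1) →
      (∀ z ∈ ball (0 : ℂ) 1, x z = (f z).re) → (∀ z ∈ ball (0 : ℂ) 1, y z = (g z).re) →
      ∀ z ∈ ball (0 : ℂ) 1, ¬ (deriv f z = 0 ∧ deriv g z = 0)

end F
end FBM
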