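/-
FBM, block F (immersion), part 2b: immersion at the boundary and inside.  Architect helper5.
The mathematics is in Pool/Agent/FBM/F/PAPER_F.md.
-/
import Pool.Agent.FBM.Defs
import Pool.Agent.FBM.F.Stmts
import Pool.Agent.FBM.F.Stmts2

namespace FBM
namespace F

open Metric Set Complex MeasureTheory Filter Topology
open Pool.Agent.FBM

/-- Input of block F from blocks D and E. -/
structure FIn (D : Dat) (X : Fin 3 → ℝ → ℝ) (lam : ℝ → ℝ) (T : Fin 3 → ℝ → ℝ) : Prop where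
  crit : Crit D X lam T
  cont : ∀ i, ContinuousOn (Fx (X i)) (closedBall 0 1)
  eq : ∀ i, ∀ z ∈ ball (0 : ℂ) 1, Fx (X i) z = hz (X i) z
  hol : ∀ i, DifferentiableOn ℂ (hz (X i)) (ball 0 1)
  re : ∀ i, ∀ᵐ (t : ℝ) ∂cm, (Fx (X i) (exp (t * I))).re = X i t
  reg : ∀ θ e, EdgeR D θ e → EdgeL D θ e → ∃ ρ G, LocReg X θ e ρ G ∧
    (e = Edge.H → ∃ κ : ℝ, ∀ j, (deriv (G j) 0).im = κ * (G j 0).re)
  cor : ∀ θ eR eL, EdgeR D θ eR → EdgeL D θ eL → eR ≠ eL → ∃ ρ G, LocCor X θ eR eL ρ G ∧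
    (eR = Edge.H → ∃ κ : ℝ, ∀ j, (deriv (G j) 0).im = κ * (G j 0).re) ∧
    (eL = Edge.H → ∃ κ : ℝ, ∀ j, (deriv (G j) 0).re = κ * (G j 0).re)

/-- Combinatorial properties of the boundary data. -/
structure GoodD (D : Dat) : Prop where
  op : ∀ i, IsOpen (D.Z i)
  per : ∀ i t, t + 2 * Real.pi ∈ D.Z i ↔ t ∈ D.Z i
  edR : ∀ θ, ∃ e, EdgeR D θ e
  edL : ∀ θ, ∃ e, EdgeL D θ e
  cl0 : closure (D.Z 0) ⊆ pe (Icc 0 (2 * Real.pi / 3))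
  cl1 : closure (D.Z 1) ⊆ pe (Icc (-(2 * Real.pi / 3)) 0)
  cl2 : closure (D.Z 2) ⊆ pe (Icc (2 * Real.pi / 3) (4 * Real.pi / 3))
  z2 : D.Z 2 = side 2

/-- EDG: configurations are good. -/
def Stmt_EDG : Prop := ∀ (m : ℕ) (a b : Fin m → ℝ), (a, b) ∈ Par m → GoodD (Dcfg m a b)

/-- The properties of the coordinate used in block F. -/
structure PsiP : Prop where
  maps : ∀ (θ : ℝ) (w : ℂ), ‖w‖ < 1 → 0 < w.im → psi θ w ∈ ball (0 : ℂ) 1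
  circ : ∀ (θ x : ℝ), ‖psi θ x‖ = 1
  zero : ∀ θ : ℝ, psi θ 0 = exp (θ * I)
  cont : ∀ θ : ℝ, ContinuousOn (psi θ) (ball 0 1)
  onto : ∀ (θ ρ : ℝ), 0 < ρ → ∃ r > 0, ∀ z ∈ ball (0 : ℂ) 1, ‖z - exp (θ * I)‖ < r →
    ∃ w : ℂ, ‖w‖ < ρ ∧ 0 < w.im ∧ psi θ w = z
  onto2 : ∀ (θ ρ : ℝ), 0 < ρ → ∃ r > 0, ∀ z ∈ ball (0 : ℂ) 1, ‖z - exp (θ * I)‖ < r →
    ∃ w : ℂ, ‖w‖ < ρ ∧ 0 < w.re ∧ 0 < w.im ∧ psi θ (w ^ 2) = z

/-- PSI: these properties hold. -/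
def Stmt_PSI : Prop := PsiP

/-- Positivity and boundary values of the surface. -/
structure PosP (D : Dat) (X : Fin 3 → ℝ → ℝ) : Prop where
  pos : ∀ z ∈ ball (0 : ℂ) 1, ∀ i, 0 < pt X z i
  lt_one : ∀ z ∈ ball (0 : ℂ) 1, ∑ i, pt X z i ^ 2 < 1
  bpos : ∀ (θ : ℝ) (i : Fin 3), θ ∉ closure (D.Z i) → 0 < pt X (exp (θ * I)) i
  bzero : ∀ (θ : ℝ) (i : Fin 3), θ ∈ closure (D.Z i) → pt X (exp (θ * I)) i = 0
  cont : ∀ i, ContinuousOn (fun z => pt X z i) (closedBall 0 1)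

/-- F0: interior positivity, boundary values. -/
def Stmt_F0 : Prop :=
  ∀ (D : Dat) (X : Fin 3 → ℝ → ℝ) (lam : ℝ → ℝ) (T : Fin 3 → ℝ → ℝ), GoodD D → FIn D X lam T →
    0 < ven X X → PosP D X

/-- F1A: immersion at interior points of the edges. -/
def Stmt_F1A : Prop :=
  ∀ (D : Dat) (X : Fin 3 → ℝ → ℝ), GoodD D → PosP D X →
    ∀ (θ : ℝ) (e : Edge) (ρ : ℝ) (G : Fin 3 → ℂ → ℂ), EdgeR D θ e → EdgeL D θ e →
      LocReg X θ e ρ G → ∃ j, deriv (G j) 0 ≠ 0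

/-- F1B: immersion at the corners and junctions. -/
def Stmt_F1B : Prop :=
  ∀ (D : Dat) (X : Fin 3 → ℝ → ℝ), GoodD D → PosP D X →
    ∀ (θ : ℝ) (eR eL : Edge) (ρ : ℝ) (G : Fin 3 → ℂ → ℂ), EdgeR D θ eR → EdgeL D θ eL →
      eR ≠ eL → LocCor X θ eR eL ρ G → ∃ j, deriv (G j) 0 ≠ 0

/-- HPA: the Hopf property where two components are positive. -/
def Stmt_HPA : Prop :=
  ∀ (D : Dat) (X : Fin 3 → ℝ → ℝ) (lam : ℝ → ℝ) (T : Fin 3 → ℝ → ℝ), GoodD D → FIn D X lam T →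
    PosP D X → ∀ (θ : ℝ) (i k : Fin 3), i ≠ k → 0 < pt X (exp (θ * I)) i →
      0 < pt X (exp (θ * I)) k →
      HopfAt (fun z => pt X z i) (fun z => pt X z k) (exp (θ * I))

/-- CRN: the corner property where two components vanish. -/
def Stmt_CRN : Prop :=
  ∀ (D : Dat) (X : Fin 3 → ℝ → ℝ) (lam : ℝ → ℝ) (T : Fin 3 → ℝ → ℝ), GoodD D → FIn D X lam T →
    PosP D X → ∀ (θ : ℝ) (i k : Fin 3), i ≠ k → pt X (exp (θ * I)) i = 0 →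
      pt X (exp (θ * I)) k = 0 →
      CornerAt (fun z => pt X z i) (fun z => pt X z k) (exp (θ * I))

/-- ZNE: no zero set is empty. -/
def Stmt_ZNE : Prop :=
  ∀ (D : Dat) (X : Fin 3 → ℝ → ℝ) (lam : ℝ → ℝ) (T : Fin 3 → ℝ → ℝ), Crit D X lam T →
    0 < ven X X → ∀ i, (D.Z i).Nonempty

/-- F2: interior immersion. -/
def Stmt_F2 : Prop :=
  ∀ (D : Dat) (X : Fin 3 → ℝ → ℝ) (lam : ℝ → ℝ) (T : Fin 3 → ℝ → ℝ), GoodD D → FIn D X lam T →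
    0 < ven X X → ∀ z ∈ ball (0 : ℂ) 1, ∃ j, deriv (hz (X j)) z ≠ 0

/-- FEND: the output of block F. -/
def Stmt_FEND : Prop :=
  ∀ (m : ℕ) (a b : Fin m → ℝ) (X : Fin 3 → ℝ → ℝ) (lam : ℝ → ℝ) (T : Fin 3 → ℝ → ℝ),
    (a, b) ∈ Par m → FIn (Dcfg m a b) X lam T → 0 < ven X X →
      GoodD (Dcfg m a b) ∧ PosP (Dcfg m a b) X ∧
      (∀ (θ : ℝ) (e : Edge) (ρ : ℝ) (G : Fin 3 → ℂ → ℂ), EdgeR (Dcfg m a b) θ e →
        EdgeL (Dcfg m a b) θ e → LocReg X θ e ρ G → ∃ j, deriv (G j) 0 ≠ 0) ∧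
      (∀ (θ : ℝ) (eR eL : Edge) (ρ : ℝ) (G : Fin 3 → ℂ → ℂ), EdgeR (Dcfg m a b) θ eR →
        EdgeL (Dcfg m a b) θ eL → eR ≠ eL → LocCor X θ eR eL ρ G → ∃ j, deriv (G j) 0 ≠ 0) ∧
      (∀ z ∈ ball (0 : ℂ) 1, ∃ j, deriv (hz (X j)) z ≠ 0)

end F
end FBM
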