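/-
FBM, block F (immersion): the corner property where two components vanish.
-/
import Pool.Agent.FBM.F.Stmts3

namespace FBM
namespace F
namespace CRN

open Metric Set Complex MeasureTheory Filter Topology
open Pool.Agent.FBM

/-- strict monotonicity in a direction of negative derivative -/
theorem mono (F : ℂ → ℂ) (hF : AnalyticAt ℂ F 0) (d : ℂ) (hd : ‖d‖ = 1)
    (hneg : (deriv F 0 * d).re < 0) :
    ∃ r > 0, ∀ w1 w2 : ℂ, ‖w1‖ < r → ‖w2‖ < r → ∀ t : ℝ, 0 < t → w2 = w1 + t * d →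
      (F w2).re < (F w1).re := by
  have hs : HasStrictDerivAt F (deriv F 0) 0 := hF.hasStrictDerivAt
  have h1 := (hasStrictFDerivAt_iff_isLittleO.mp hs.hasStrictFDerivAt)
  set a : ℝ := (deriv F 0 * d).re with ha
  have hpos : 0 < -a / 2 := by linarith
  have h2 := h1.def hpos
  rw [Metric.eventually_nhds_iff] at h2
  obtain ⟨r, hr, h3⟩ := h2
  refine ⟨r, hr, ?_⟩
  intro w1 w2 hw1 hw2 t ht hw
  have h4 := @h3 (w2, w1) (by
    rw [Prod.dist_eq]
    simp only [dist_zero_right]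
    exact max_lt hw2 hw1)
  simp only at h4
  have h5 : w2 - w1 = t * d := by rw [hw]; ring
  have h6 : ‖w2 - w1‖ = t := by
    rw [h5, norm_mul, hd, mul_one, Complex.norm_real, Real.norm_eq_abs, abs_of_pos ht]
  rw [h6] at h4
  have h7 : (ContinuousLinearMap.toSpanSingleton ℂ (deriv F 0)) (w2 - w1) = t * (deriv F 0 * d) := by
    rw [ContinuousLinearMap.toSpanSingleton_apply, h5, smul_eq_mul]
    ring
  have h8 : ((F w2 - F w1) - t * (deriv F 0 * d)).re ≤ -a / 2 * t := by
    refine (Complex.re_le_norm _).trans ?_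
    rw [← h7]
    exact h4
  rw [Complex.sub_re, Complex.sub_re, Complex.re_ofReal_mul, ← ha] at h8
  nlinarith

/-- the derivative vanishes in a direction of a line where the real part vanishes -/
theorem zero_dir (g : ℂ → ℂ) (hg : AnalyticAt ℂ g 0) (ρ : ℝ) (hρ : 0 < ρ) (d : ℂ) (hd : ‖d‖ = 1)
    (hz : ∀ t : ℝ, |t| < ρ → (g (t * d)).re = 0) : (deriv g 0 * d).re = 0 := by
  have h0 : (g 0).re = 0 := by
    have := hz 0 (by simpa using hρ)
    simpa using this
  rcases lt_trichotomy (deriv g 0 * d).re 0 with h | h | h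
  · exfalso
    obtain ⟨r, hr, h1⟩ := mono g hg d hd h
    have hm : 0 < min r ρ / 2 := by positivity
    have hm1 : min r ρ / 2 < r := by have := min_le_left r ρ; linarith [lt_min hr hρ]
    have hm2 : min r ρ / 2 < ρ := by have := min_le_right r ρ; linarith [lt_min hr hρ]
    have h2 := h1 0 (((min r ρ / 2 : ℝ) : ℂ) * d) (by simpa using hr)
      (by rw [norm_mul, hd, mul_one, Complex.norm_real, Real.norm_eq_abs, abs_of_pos hm]
          exact hm1) (min r ρ / 2) hm (by rw [zero_add])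
    rw [hz _ (by rw [abs_of_pos hm]; exact hm2), h0] at h2
    exact lt_irrefl _ h2
  · exact h
  · exfalso
    have h' : (deriv g 0 * (-d)).re < 0 := by
      rw [mul_neg, Complex.neg_re]; linarith
    obtain ⟨r, hr, h1⟩ := mono g hg (-d) (by rw [norm_neg]; exact hd) h'
    have hm : 0 < min r ρ / 2 := by positivity
    have hm1 : min r ρ / 2 < r := by have := min_le_left r ρ; linarith [lt_min hr hρ]
    have hm2 : min r ρ / 2 < ρ := by have := min_le_right r ρ; linarith [lt_min hr hρ]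
    have h2 := h1 0 (((min r ρ / 2 : ℝ) : ℂ) * (-d)) (by simpa using hr)
      (by rw [norm_mul, norm_neg, hd, mul_one, Complex.norm_real, Real.norm_eq_abs, abs_of_pos hm]
          exact hm1) (min r ρ / 2) hm (by rw [zero_add])
    have h3 : ((min r ρ / 2 : ℝ) : ℂ) * (-d) = ((-(min r ρ / 2) : ℝ) : ℂ) * d := by
      push_cast; ring
    rw [h3, hz _ (by rw [abs_neg, abs_of_pos hm]; exact hm2), h0] at h2
    exact lt_irrefl _ h2

theorem analytic0 (g : ℂ → ℂ) (ρ : ℝ) (hρ : 0 < ρ) (hg : DifferentiableOn ℂ g (ball 0 ρ)) :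
    AnalyticAt ℂ g 0 :=
  hg.analyticAt (ball_mem_nhds 0 hρ)

/-- sign of the derivative: odd across the real axis, even across the imaginary axis -/
theorem sgn_im (hBQI : Stmt_BQI) (g : ℂ → ℂ) (ρ : ℝ) (hρ : 0 < ρ)
    (hg : DifferentiableOn ℂ g (ball 0 ρ))
    (hodd : ∀ w : ℂ, ‖w‖ < ρ → (g ((starRingEnd ℂ) w)).re = - (g w).re)
    (heven : ∀ w : ℂ, ‖w‖ < ρ → (g (-(starRingEnd ℂ) w)).re = (g w).re)
    (hpos : ∀ w : ℂ, ‖w‖ < ρ → 0 < w.re → 0 < w.im → 0 < (g w).re) :
    (deriv g 0).im < 0 := by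
  have hreal : ∀ s : ℝ, |s| < ρ → (g s).re = 0 := by
    intro s hs
    have := hodd s (by rw [Complex.norm_real]; exact hs)
    rw [Complex.conj_ofReal] at this
    linarith
  have h0 : (g 0).re = 0 := by
    have := hreal 0 (by simpa using hρ)
    simpa using this
  by_contra hcon
  rcases (not_lt.1 hcon).lt_or_eq with h | h
  · obtain ⟨r, hr, h1⟩ := mono g (analytic0 g ρ hρ hg) I (by simp) (by simpa using h)
    set s : ℝ := min r ρ / 4 with hs
    have hm0 := lt_min hr hρ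
    have hs0 : 0 < s := by rw [hs]; linarith
    have hsr : 2 * s < r := by have := min_le_left r ρ; rw [hs]; linarith
    have hsρ : 2 * s < ρ := by have := min_le_right r ρ; rw [hs]; linarith
    have hn : ‖((s : ℂ) + s * I)‖ ≤ 2 * s := by
      refine (norm_add_le _ _).trans ?_
      rw [norm_mul, Complex.norm_I, Complex.norm_real, Real.norm_eq_abs, abs_of_pos hs0]
      linarith
    have h2 := h1 (s : ℂ) ((s : ℂ) + s * I)
      (by rw [Complex.norm_real, Real.norm_eq_abs, abs_of_pos hs0]; linarith)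
      (lt_of_le_of_lt hn hsr) s hs0 rfl
    rw [hreal s (by rw [abs_of_pos hs0]; linarith)] at h2
    have h3 := hpos ((s : ℂ) + s * I) (lt_of_le_of_lt hn hsρ) (by simpa using hs0)
      (by simpa using hs0)
    linarith
  · have h1 := hBQI g ρ hρ hg (fun w hw => heven w (by simpa using hw))
      (fun w hw hr hi => (hpos w (by simpa using hw) hr hi).le) h0 h.symm
    have hn : ‖(((ρ / 4 : ℝ) : ℂ) + (ρ / 4 : ℝ) * I)‖ < ρ := by
      refine lt_of_le_of_lt (norm_add_le _ _) ?_
      rw [norm_mul, Complex.norm_I, Complex.norm_real, Real.norm_eq_abs,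
        abs_of_pos (by positivity : 0 < ρ / 4)]
      linarith
    have h2 := h1 (((ρ / 4 : ℝ) : ℂ) + (ρ / 4 : ℝ) * I) (by simpa using hn)
    have h3 := hpos (((ρ / 4 : ℝ) : ℂ) + (ρ / 4 : ℝ) * I) hn
      (by simp only [add_re, ofReal_re, mul_re, I_re, mul_zero, ofReal_im, I_im, mul_one, sub_self,
            add_zero]
          positivity)
      (by simp only [add_im, ofReal_im, mul_im, ofReal_re, I_im, mul_one, I_re, mul_zero, add_zero,
            zero_add]
          positivity)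
    rw [h2, h0] at h3
    exact lt_irrefl _ h3

/-- sign of the derivative: even across the real axis, odd across the imaginary axis -/
theorem sgn_re (hBQR : Stmt_BQR) (g : ℂ → ℂ) (ρ : ℝ) (hρ : 0 < ρ)
    (hg : DifferentiableOn ℂ g (ball 0 ρ))
    (heven : ∀ w : ℂ, ‖w‖ < ρ → (g ((starRingEnd ℂ) w)).re = (g w).re)
    (hodd : ∀ w : ℂ, ‖w‖ < ρ → (g (-(starRingEnd ℂ) w)).re = - (g w).re)
    (hpos : ∀ w : ℂ, ‖w‖ < ρ → 0 < w.re → 0 < w.im → 0 < (g w).re) :
    0 < (deriv g 0).re := by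
  have himag : ∀ s : ℝ, |s| < ρ → (g (s * I)).re = 0 := by
    intro s hs
    have := hodd (s * I) (by rw [norm_mul, Complex.norm_I, mul_one, Complex.norm_real]; exact hs)
    rw [map_mul, Complex.conj_ofReal, Complex.conj_I, mul_neg, neg_neg] at this
    linarith
  have h0 : (g 0).re = 0 := by
    have := himag 0 (by simpa using hρ)
    simpa using this
  by_contra hcon
  rcases (not_lt.1 hcon).lt_or_eq with h | h
  · obtain ⟨r, hr, h1⟩ := mono g (analytic0 g ρ hρ hg) 1 (by simp) (by simpa using h)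
    set s : ℝ := min r ρ / 4 with hs
    have hm0 := lt_min hr hρ
    have hs0 : 0 < s := by rw [hs]; linarith
    have hsr : 2 * s < r := by have := min_le_left r ρ; rw [hs]; linarith
    have hsρ : 2 * s < ρ := by have := min_le_right r ρ; rw [hs]; linarith
    have hn : ‖((s : ℂ) * I + s * 1)‖ ≤ 2 * s := by
      refine (norm_add_le _ _).trans ?_
      rw [norm_mul, Complex.norm_I, mul_one, mul_one, Complex.norm_real, Real.norm_eq_abs,
        abs_of_pos hs0]
      linarith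
    have h2 := h1 (s * I : ℂ) ((s : ℂ) * I + s * 1)
      (by rw [norm_mul, Complex.norm_I, mul_one, Complex.norm_real, Real.norm_eq_abs,
            abs_of_pos hs0]; linarith)
      (lt_of_le_of_lt hn hsr) s hs0 rfl
    rw [himag s (by rw [abs_of_pos hs0]; linarith)] at h2
    have h3 := hpos ((s : ℂ) * I + s * 1) (lt_of_le_of_lt hn hsρ) (by simpa using hs0)
      (by simpa using hs0)
    linarith
  · have h1 := hBQR g ρ hρ hg (fun w hw => heven w (by simpa using hw))
      (fun w hw hr hi => (hpos w (by simpa using hw) hr hi).le) h0 h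
    have hn : ‖(((ρ / 4 : ℝ) : ℂ) + (ρ / 4 : ℝ) * I)‖ < ρ := by
      refine lt_of_le_of_lt (norm_add_le _ _) ?_
      rw [norm_mul, Complex.norm_I, Complex.norm_real, Real.norm_eq_abs,
        abs_of_pos (by positivity : 0 < ρ / 4)]
      linarith
    have h2 := h1 (((ρ / 4 : ℝ) : ℂ) + (ρ / 4 : ℝ) * I) (by simpa using hn)
    have h3 := hpos (((ρ / 4 : ℝ) : ℂ) + (ρ / 4 : ℝ) * I) hn
      (by simp only [add_re, ofReal_re, mul_re, I_re, mul_zero, ofReal_im, I_im, mul_one, sub_self,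
            add_zero]
          positivity)
      (by simp only [add_im, ofReal_im, mul_im, ofReal_re, I_im, mul_one, I_re, mul_zero, add_zero,
            zero_add]
          positivity)
    rw [h2, h0] at h3
    exact lt_irrefl _ h3

/-- a point of the closure of `Z i` has an edge of type `W i` on one side -/
theorem edge_of_closure (D : Dat) (i : Fin 3) (hop : IsOpen (D.Z i)) (θ : ℝ) (eR eL : Edge)
    (hR : EdgeR D θ eR) (hL : EdgeL D θ eL) (hc : θ ∈ closure (D.Z i)) :
    eR = Edge.W i ∨ eL = Edge.W i := by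
  by_contra hcon
  push Not at hcon
  have key : ∀ e : Edge, e ≠ Edge.W i → ∀ s, OnEdge D s e → s ∉ D.Z i := by
    intro e he s hs
    cases e with
    | W j => exact hs.2.2 i (fun h => he (by rw [h]))
    | H => exact hs.2 i
  have h1 : ∀ᶠ s in 𝓝[>] θ, s ∉ D.Z i := Filter.Eventually.mono hR (fun s hs => key eR hcon.1 s hs)
  have h2 : ∀ᶠ s in 𝓝[<] θ, s ∉ D.Z i := Filter.Eventually.mono hL (fun s hs => key eL hcon.2 s hs)
  have h3 : ∀ᶠ s in 𝓝[≠] θ, s ∉ D.Z i := by
    rw [← nhdsLT_sup_nhdsGT]; exact eventually_sup.2 ⟨h2, h1⟩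
  by_cases hθ : θ ∈ D.Z i
  · have h4 : ∀ᶠ s in 𝓝[≠] θ, s ∈ D.Z i := nhdsWithin_le_nhds (hop.mem_nhds hθ)
    obtain ⟨s, hs1, hs2⟩ := (h3.and h4).exists
    exact hs1 hs2
  · have h4 : ∀ᶠ s in 𝓝 θ, s ∉ D.Z i := by
      rw [← nhdsNE_sup_pure]; exact eventually_sup.2 ⟨h3, by simpa using hθ⟩
    exact (mem_closure_iff_frequently.1 hc) h4

/-- joining along a segment -/
theorem seg (hPSI : PsiP) (X : Fin 3 → ℝ → ℝ) (θ ρ : ℝ) (hρ1 : ρ < 1) (G : Fin 3 → ℂ → ℂ)
    (heq : ∀ j, ∀ w : ℂ, ‖w‖ < ρ → 0 ≤ w.re → 0 ≤ w.im → G j w = Fx (X j) (psi θ (w ^ 2)))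
    (i k : Fin 3) (c : ℝ) (w w0 : ℂ) (hw : ‖w‖ < ρ) (hw0 : ‖w0‖ < ρ) (hwr : 0 < w.re)
    (hwi : 0 < w.im) (h0r : 0 ≤ w0.re) (h0i : 0 ≤ w0.im) (haxis : w0.re * w0.im = 0)
    (hx : (G i w0).re = 0)
    (hv : ∀ τ : ℝ, 0 ≤ τ → τ ≤ 1 →
      c * (G i (w + τ * (w0 - w))).re < (G k (w + τ * (w0 - w))).re) :
    ∃ q ∈ sphere (0 : ℂ) 1, pt X q i = 0 ∧ 0 < pt X q k ∧
      JoinedIn ({z | z ∈ ball (0 : ℂ) 1 ∧ c * pt X z i < pt X z k} ∪ {q}) (psi θ (w ^ 2)) q := by
  have hsq : w0 ^ 2 = ((w0.re ^ 2 - w0.im ^ 2 : ℝ) : ℂ) := by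
    apply Complex.ext
    · simp only [pow_two, mul_re, ofReal_re]
    · simp only [pow_two, mul_im, ofReal_im]
      linarith
  have hnorm : ∀ τ : ℝ, 0 ≤ τ → τ ≤ 1 → ‖w + τ * (w0 - w)‖ < ρ := by
    intro τ h0 h1
    have := (convex_ball (0 : ℂ) ρ).add_smul_sub_mem (x := w) (y := w0) (by simpa using hw)
      (by simpa using hw0) (t := τ) ⟨h0, h1⟩
    simpa using this
  have hre : ∀ τ : ℝ, (w + τ * (w0 - w)).re = (1 - τ) * w.re + τ * w0.re := by
    intro τ
    rw [add_re, re_ofReal_mul, sub_re]; ring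
  have him : ∀ τ : ℝ, (w + τ * (w0 - w)).im = (1 - τ) * w.im + τ * w0.im := by
    intro τ
    rw [add_im, im_ofReal_mul, sub_im]; ring
  have h1e : w + ((1 : ℝ) : ℂ) * (w0 - w) = w0 := by push_cast; ring
  have hx' : pt X (psi θ (w0 ^ 2)) i = 0 := by
    rw [pt, ← heq i w0 hw0 h0r h0i, hx]
  refine ⟨psi θ (w0 ^ 2), ?_, hx', ?_, ?_⟩
  · rw [mem_sphere_zero_iff_norm, hsq]
    exact hPSI.circ θ _
  · have h2 := hv 1 zero_le_one le_rfl
    rw [h1e, hx, mul_zero] at h2
    rw [pt, ← heq k w0 hw0 h0r h0i]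
    exact h2
  · refine JoinedIn.ofLine (f := fun τ : ℝ => psi θ ((w + τ * (w0 - w)) ^ 2)) ?_ ?_ ?_ ?_
    · refine (hPSI.cont θ).comp (Continuous.continuousOn (by fun_prop)) ?_
      intro τ hτ
      have := hnorm τ hτ.1 hτ.2
      rw [mem_ball_zero_iff, norm_pow]
      have h3 := norm_nonneg (w + τ * (w0 - w))
      nlinarith
    · simp
    · simp
    · rintro _ ⟨τ, ⟨h0, h1⟩, rfl⟩
      rcases h1.lt_or_eq with h1' | h1'
      · left
        have hn := hnorm τ h0 h1
        have hn0 := norm_nonneg (w + τ * (w0 - w))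
        have hr : 0 < (w + τ * (w0 - w)).re := by
          rw [hre]
          have : 0 < (1 - τ) * w.re := mul_pos (by linarith) hwr
          have : 0 ≤ τ * w0.re := mul_nonneg h0 h0r
          linarith
        have hi : 0 < (w + τ * (w0 - w)).im := by
          rw [him]
          have : 0 < (1 - τ) * w.im := mul_pos (by linarith) hwi
          have : 0 ≤ τ * w0.im := mul_nonneg h0 h0i
          linarith
        refine ⟨hPSI.maps θ _ ?_ ?_, ?_⟩
        · rw [norm_pow]; nlinarith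
        · rw [pow_two, mul_im]; nlinarith [mul_pos hr hi]
        · simp only [pt]
          rw [← heq i _ hn hr.le hi.le, ← heq k _ hn hr.le hi.le]
          exact hv τ h0 h1
      · right
        subst h1'
        simp

/-- the corner property in the coordinate, moving to an axis in the direction `d` -/
theorem core (hPSI : PsiP) (X : Fin 3 → ℝ → ℝ) (θ ρ : ℝ) (hρ : 0 < ρ) (hρ1 : ρ < 1)
    (G : Fin 3 → ℂ → ℂ) (han : ∀ j, DifferentiableOn ℂ (G j) (ball 0 ρ))
    (heq : ∀ j, ∀ w : ℂ, ‖w‖ < ρ → 0 ≤ w.re → 0 ≤ w.im → G j w = Fx (X j) (psi θ (w ^ 2)))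
    (i k : Fin 3) (c : ℝ) (d : ℂ) (hd : ‖d‖ = 1)
    (hneg : ((deriv (G k) 0 - c * deriv (G i) 0) * d).re < 0)
    (pr : ℂ → ℂ) (tt : ℂ → ℝ)
    (hpr : ∀ w : ℂ, w = pr w + tt w * d) (htt : ∀ w : ℂ, 0 < w.re → 0 < w.im → 0 < tt w)
    (hprn : ∀ w, ‖pr w‖ ≤ ‖w‖)
    (hprr : ∀ w : ℂ, 0 < w.re → 0 ≤ (pr w).re) (hpri : ∀ w : ℂ, 0 < w.im → 0 ≤ (pr w).im)
    (hax : ∀ w : ℂ, (pr w).re * (pr w).im = 0)
    (hx : ∀ w : ℂ, ‖w‖ < ρ → (G i (pr w)).re = 0) :
    ∃ r > 0, ∀ z ∈ ball (0 : ℂ) 1 ∩ ball (exp (θ * I)) r, c * pt X z i < pt X z k →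
      ∃ q ∈ sphere (0 : ℂ) 1, pt X q i = 0 ∧ 0 < pt X q k ∧
      JoinedIn ({w | w ∈ ball (0 : ℂ) 1 ∧ c * pt X w i < pt X w k} ∪ {q}) z q := by
  have hmem : ball (0 : ℂ) ρ ∈ 𝓝 (0 : ℂ) := ball_mem_nhds 0 hρ
  have hdi : ∀ j, DifferentiableAt ℂ (G j) 0 := fun j => (han j).differentiableAt hmem
  have hFan : AnalyticAt ℂ (fun w => G k w - c * G i w) 0 :=
    (analytic0 _ ρ hρ (han k)).sub (analyticAt_const.mul (analytic0 _ ρ hρ (han i)))
  have hFd : deriv (fun w => G k w - c * G i w) 0 = deriv (G k) 0 - c * deriv (G i) 0 := by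
    have h1 := (hdi k).hasDerivAt.sub ((hdi i).hasDerivAt.const_mul (c : ℂ))
    exact h1.deriv
  obtain ⟨r, hr, hmono⟩ := mono _ hFan d hd (by rw [hFd]; exact hneg)
  have hr0 : 0 < min r ρ := lt_min hr hρ
  obtain ⟨r1, hr1, honto⟩ := hPSI.onto2 θ (min r ρ) hr0
  refine ⟨r1, hr1, ?_⟩
  rintro z ⟨hz1, hz2⟩ hcz
  obtain ⟨w, hw, hwr, hwi, hwz⟩ := honto z hz1 (by rw [mem_ball, dist_eq_norm] at hz2; exact hz2)
  have hwrr : ‖w‖ < r := lt_of_lt_of_le hw (min_le_left _ _)
  have hwρ : ‖w‖ < ρ := lt_of_lt_of_le hw (min_le_right _ _)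
  have hpw : ‖pr w‖ < min r ρ := lt_of_le_of_lt (hprn w) hw
  have hv0 : c * (G i w).re < (G k w).re := by
    rw [heq i w hwρ hwr.le hwi.le, heq k w hwρ hwr.le hwi.le, hwz]
    exact hcz
  rw [← hwz]
  refine seg hPSI X θ ρ hρ1 G heq i k c w (pr w) hwρ (lt_of_lt_of_le hpw (min_le_right _ _))
    hwr hwi (hprr w hwr) (hpri w hwi) (hax w) (hx w hwρ) ?_
  intro τ h0 h1
  rcases h0.eq_or_lt with h | h
  · rw [← h]; simpa using hv0
  · have hn : ‖w + τ * (pr w - w)‖ < min r ρ := by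
      have := (convex_ball (0 : ℂ) (min r ρ)).add_smul_sub_mem (x := w) (y := pr w)
        (by simpa using hw) (by simpa using hpw) (t := τ) ⟨h0, h1⟩
      simpa using this
    have h2 := hmono (w + τ * (pr w - w)) w (lt_of_lt_of_le hn (min_le_left _ _)) hwrr
      (τ * tt w) (mul_pos h (htt w hwr hwi)) (by
        have h3 : pr w - w = -(tt w * d) := by
          nth_rewrite 2 [hpr w]
          ring
        rw [h3]
        push_cast
        ring)
    simp only [sub_re, re_ofReal_mul] at h2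
    linarith

end CRN

open Metric Set Complex MeasureTheory Filter Topology
open Pool.Agent.FBM

/-- CRN: the corner property where two components vanish. -/
theorem CRN_thm (hPSI : Stmt_PSI) (hBQR : Stmt_BQR) (hBQI : Stmt_BQI) : Stmt_CRN := by
  intro D X lam T hD hF hP θ i k hik hxi hxk c hc
  obtain ⟨eR, hR⟩ := hD.edR θ
  obtain ⟨eL, hL⟩ := hD.edL θ
  have hci : θ ∈ closure (D.Z i) := by
    by_contra h
    have := hP.bpos θ i h
    rw [hxi] at this
    exact lt_irrefl _ this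
  have hck : θ ∈ closure (D.Z k) := by
    by_contra h
    have := hP.bpos θ k h
    rw [hxk] at this
    exact lt_irrefl _ this
  have hWi := CRN.edge_of_closure D i (hD.op i) θ eR eL hR hL hci
  have hWk := CRN.edge_of_closure D k (hD.op k) θ eR eL hR hL hck
  have hWne : Edge.W i ≠ Edge.W k := by
    intro h
    injection h with h'
    exact hik h'
  have hcases : (eR = Edge.W i ∧ eL = Edge.W k) ∨ (eR = Edge.W k ∧ eL = Edge.W i) := by
    rcases hWi with h | h
    · rcases hWk with h' | h'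
      · exact absurd (h.symm.trans h') hWne
      · exact Or.inl ⟨h, h'⟩
    · rcases hWk with h' | h'
      · exact Or.inr ⟨h', h⟩
      · exact absurd (h.symm.trans h') hWne
  have hne : eR ≠ eL := by
    rcases hcases with ⟨h, h'⟩ | ⟨h, h'⟩
    · rw [h, h']; exact hWne
    · rw [h, h']; exact hWne.symm
  obtain ⟨ρ, G, hG, -, -⟩ := hF.cor θ eR eL hR hL hne
  obtain ⟨hρ, hρ1⟩ := hG.pos
  have hpos : ∀ j, ∀ w : ℂ, ‖w‖ < ρ → 0 < w.re → 0 < w.im → 0 < (G j w).re := by
    intro j w hw hr hi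
    rw [hG.eq j w hw hr.le hi.le]
    refine hP.pos _ (hPSI.maps θ _ ?_ ?_) j
    · rw [norm_pow]
      have := norm_nonneg w
      nlinarith
    · rw [pow_two, mul_im]; nlinarith [mul_pos hr hi]
  have han := fun j => CRN.analytic0 (G j) ρ hρ (hG.an j)
  have hki : k ≠ i := fun h => hik h.symm
  rcases hcases with ⟨h, h'⟩ | ⟨h, h'⟩
  · subst h
    subst h'
    have hbR : ∀ j, ∀ w : ℂ, ‖w‖ < ρ →
      (G j ((starRingEnd ℂ) w)).re = (if j = i then -1 else 1) * (G j w).re := hG.bdR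
    have hbL : ∀ j, ∀ w : ℂ, ‖w‖ < ρ →
      (G j (-(starRingEnd ℂ) w)).re = (if j = k then -1 else 1) * (G j w).re := hG.bdL
    have hoi : ∀ w : ℂ, ‖w‖ < ρ → (G i ((starRingEnd ℂ) w)).re = - (G i w).re := by
      intro w hw
      have := hbR i w hw
      simpa using this
    have hei : ∀ w : ℂ, ‖w‖ < ρ → (G i (-(starRingEnd ℂ) w)).re = (G i w).re := by
      intro w hw
      have := hbL i w hw
      rw [if_neg hik] at this
      simpa using this
    have hok : ∀ w : ℂ, ‖w‖ < ρ → (G k (-(starRingEnd ℂ) w)).re = - (G k w).re := by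
      intro w hw
      have := hbL k w hw
      simpa using this
    have h1 : (deriv (G i) 0).im < 0 :=
      CRN.sgn_im hBQI (G i) ρ hρ (hG.an i) hoi hei (hpos i)
    have h2 : (deriv (G k) 0 * I).re = 0 := by
      refine CRN.zero_dir (G k) (han k) ρ hρ I (by simp) ?_
      intro t ht
      have := hok (t * I) (by rw [norm_mul, Complex.norm_I, mul_one, Complex.norm_real]; exact ht)
      rw [map_mul, Complex.conj_ofReal, Complex.conj_I, mul_neg, neg_neg] at this
      linarith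
    refine CRN.core hPSI X θ ρ hρ hρ1 G hG.an hG.eq i k c I (by simp) ?_
      (fun w => (w.re : ℂ)) (fun w => w.im) ?_ ?_ ?_ ?_ ?_ ?_ ?_
    · rw [sub_mul, sub_re, h2, mul_assoc, re_ofReal_mul]
      have h3 : (deriv (G i) 0 * I).re = -(deriv (G i) 0).im := by simp
      rw [h3]
      nlinarith [mul_pos hc (neg_pos.2 h1)]
    · intro w; exact (Complex.re_add_im w).symm
    · intro w _ hi; exact hi
    · intro w
      rw [Complex.norm_real]
      exact Complex.abs_re_le_norm w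
    · intro w hr; simpa using hr.le
    · intro w _; simp
    · intro w; simp
    · intro w hw
      have h3 : ‖((w.re : ℝ) : ℂ)‖ < ρ := by
        rw [Complex.norm_real]
        exact lt_of_le_of_lt (Complex.abs_re_le_norm w) hw
      have := hoi _ h3
      rw [Complex.conj_ofReal] at this
      linarith
  · subst h
    subst h'
    have hbR : ∀ j, ∀ w : ℂ, ‖w‖ < ρ →
      (G j ((starRingEnd ℂ) w)).re = (if j = k then -1 else 1) * (G j w).re := hG.bdR
    have hbL : ∀ j, ∀ w : ℂ, ‖w‖ < ρ →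
      (G j (-(starRingEnd ℂ) w)).re = (if j = i then -1 else 1) * (G j w).re := hG.bdL
    have hoi : ∀ w : ℂ, ‖w‖ < ρ → (G i (-(starRingEnd ℂ) w)).re = - (G i w).re := by
      intro w hw
      have := hbL i w hw
      simpa using this
    have hei : ∀ w : ℂ, ‖w‖ < ρ → (G i ((starRingEnd ℂ) w)).re = (G i w).re := by
      intro w hw
      have := hbR i w hw
      rw [if_neg hik] at this
      simpa using this
    have hok : ∀ w : ℂ, ‖w‖ < ρ → (G k ((starRingEnd ℂ) w)).re = - (G k w).re := by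
      intro w hw
      have := hbR k w hw
      simpa using this
    have h1 : 0 < (deriv (G i) 0).re :=
      CRN.sgn_re hBQR (G i) ρ hρ (hG.an i) hei hoi (hpos i)
    have h2 : (deriv (G k) 0 * 1).re = 0 := by
      refine CRN.zero_dir (G k) (han k) ρ hρ 1 (by simp) ?_
      intro t ht
      have := hok (t : ℂ) (by rw [Complex.norm_real]; exact ht)
      rw [Complex.conj_ofReal] at this
      rw [mul_one]
      linarith
    refine CRN.core hPSI X θ ρ hρ hρ1 G hG.an hG.eq i k c 1 (by simp) ?_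
      (fun w => (w.im : ℂ) * I) (fun w => w.re) ?_ ?_ ?_ ?_ ?_ ?_ ?_
    · rw [sub_mul, sub_re, h2, mul_assoc, re_ofReal_mul, mul_one]
      nlinarith [mul_pos hc h1]
    · intro w
      have := Complex.re_add_im w
      rw [mul_one, add_comm]
      exact this.symm
    · intro w hr _; exact hr
    · intro w
      rw [norm_mul, Complex.norm_I, mul_one, Complex.norm_real]
      exact Complex.abs_im_le_norm w
    · intro w _; simp
    · intro w hi; simpa using hi.le
    · intro w; simp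
    · intro w hw
      have h3 : ‖((w.im : ℝ) : ℂ) * I‖ < ρ := by
        rw [norm_mul, Complex.norm_I, mul_one, Complex.norm_real]
        exact lt_of_le_of_lt (Complex.abs_im_le_norm w) hw
      have := hoi _ h3
      rw [map_mul, Complex.conj_ofReal, Complex.conj_I, mul_neg, neg_neg] at this
      linarith

end F
end FBM
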