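/-
FBM, block F: interior positivity and boundary values of the surface (module FR_F0).
-/
import Pool.Agent.FBM.F.Stmts3

namespace FBM
namespace F
namespace F0

open Metric Set Complex MeasureTheory Filter Topology
open Pool.Agent.FBM

/-! ### The kernel -/

/-- the Herglotz kernel -/
noncomputable def K (z : ℂ) (t : ℝ) : ℂ := (exp (t * I) + z) / (exp (t * I) - z)

theorem K_den {z : ℂ} (hz : ‖z‖ < 1) (t : ℝ) : exp (t * I) - z ≠ 0 := by
  intro h
  have h1 : exp (t * I) = z := sub_eq_zero.1 h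
  have h2 : ‖exp (t * I)‖ = 1 := norm_exp_ofReal_mul_I t
  rw [h1] at h2
  linarith

theorem K_cont {z : ℂ} (hz : ‖z‖ < 1) : Continuous (K z) := by
  unfold K
  exact Continuous.div (by fun_prop) (by fun_prop) (K_den hz)

theorem K_re (z : ℂ) (t : ℝ) : (K z t).re = (1 - ‖z‖ ^ 2) / ‖exp (t * I) - z‖ ^ 2 := by
  have h := congrFun (poissonKernel_eq_re_herglotzRieszKernel (c := 0) (w := z)) (exp (t * I))
  rw [poissonKernel_def, Function.comp_apply, herglotzRieszKernel_def] at h
  simp only [sub_zero] at h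
  rw [norm_exp_ofReal_mul_I, one_pow] at h
  exact h.symm

theorem K_pos {z : ℂ} (hz : ‖z‖ < 1) (t : ℝ) : 0 < (K z t).re := by
  rw [K_re]
  have h1 : 0 < ‖exp (t * I) - z‖ := norm_pos_iff.2 (K_den hz t)
  have h2 : ‖z‖ ^ 2 < 1 := by
    have := norm_nonneg z
    nlinarith
  exact div_pos (by linarith) (by positivity)

theorem K_bdd {z : ℂ} (hz : ‖z‖ < 1) (t : ℝ) : ‖K z t‖ ≤ (1 + ‖z‖) / (1 - ‖z‖) := by
  unfold K
  rw [norm_div]
  have h1 : ‖exp (t * I) + z‖ ≤ 1 + ‖z‖ := by
    refine (norm_add_le _ _).trans ?_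
    rw [norm_exp_ofReal_mul_I]
  have h2 : 1 - ‖z‖ ≤ ‖exp (t * I) - z‖ := by
    have := norm_sub_norm_le (exp (t * I)) z
    rwa [norm_exp_ofReal_mul_I] at this
  have h3 : 0 < 1 - ‖z‖ := by linarith
  have := norm_nonneg z
  gcongr

theorem fin_cm : IsFiniteMeasure cm := by
  unfold cm
  infer_instance

theorem int_K {z : ℂ} (hz : ‖z‖ < 1) {f : ℝ → ℝ} (hf : FE f) :
    Integrable (fun t : ℝ => K z t * (f t : ℂ)) cm := by
  have := fin_cm
  obtain ⟨C, hC⟩ := hf.bdd
  refine Integrable.of_bound (C := (1 + ‖z‖) / (1 - ‖z‖) * C) ?_ ?_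
  · exact ((K_cont hz).measurable.mul
      (Complex.measurable_ofReal.comp hf.meas)).aestronglyMeasurable
  · refine Eventually.of_forall fun t => ?_
    rw [norm_mul, Complex.norm_real, Real.norm_eq_abs]
    have h1 := K_bdd hz t
    have h2 := hC t
    have h3 := norm_nonneg (K z t)
    have h4 := abs_nonneg (f t)
    exact mul_le_mul h1 h2 h4 (h3.trans h1)

theorem int_Kre {z : ℂ} (hz : ‖z‖ < 1) {f : ℝ → ℝ} (hf : Measurable f) (C : ℝ)
    (hC : ∀ t, |f t| ≤ C) : Integrable (fun t : ℝ => (K z t).re * f t) cm := by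
  have := fin_cm
  refine Integrable.of_bound (C := (1 + ‖z‖) / (1 - ‖z‖) * C) ?_ ?_
  · exact ((Complex.measurable_re.comp (K_cont hz).measurable).mul hf).aestronglyMeasurable
  · refine Eventually.of_forall fun t => ?_
    rw [norm_mul, Real.norm_eq_abs, Real.norm_eq_abs]
    have h1 := K_bdd hz t
    have h2 := hC t
    have h3 := norm_nonneg (K z t)
    have h4 := abs_nonneg (f t)
    exact mul_le_mul ((abs_re_le_norm _).trans h1) h2 h4 (h3.trans h1)

theorem re_hz {z : ℂ} (hz1 : ‖z‖ < 1) {f : ℝ → ℝ} (hf : FE f) :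
    (hz f z).re = (1 / (2 * Real.pi)) * ∫ t, (K z t).re * f t ∂cm := by
  unfold hz
  have h0 : (1 / (2 * Real.pi) : ℂ) = ((1 / (2 * Real.pi) : ℝ) : ℂ) := by push_cast; rfl
  rw [h0, re_ofReal_mul]
  congr 1
  have h1 := integral_re (int_K hz1 hf)
  have h2 : ∀ t : ℝ, RCLike.re (K z t * (f t : ℂ)) = (K z t).re * f t := by
    intro t
    change (K z t * (f t : ℂ)).re = _
    rw [re_mul_ofReal]
  simp only [h2] at h1
  exact h1.symm

theorem cm_int (g : ℝ → ℝ) : ∫ t, g t ∂cm = ∫ t in (-Real.pi)..Real.pi, g t := by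
  have h : -Real.pi ≤ Real.pi := by linarith [Real.pi_pos]
  rw [intervalIntegral.integral_of_le h]
  rfl

theorem mean {z : ℂ} (hz : ‖z‖ < 1) : ∫ t, (K z t).re ∂cm = 2 * Real.pi := by
  have hzb : z ∈ ball (0 : ℂ) 1 := mem_ball_zero_iff.2 hz
  have h := DiffContOnCl.circleAverage_re_herglotzRieszKernel_smul (f := fun _ : ℂ => (1 : ℂ))
    (R := 1) (c := 0) (w := z) diffContOnCl_const hzb
  rw [Real.circleAverage_def] at h
  have h1 : ∀ t : ℝ, ((re ∘ herglotzRieszKernel 0 z) • fun _ : ℂ => (1 : ℂ)) (circleMap 0 1 t) =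
      (((K z t).re : ℝ) : ℂ) := by
    intro t
    simp only [Pi.smul_apply', Function.comp_apply, herglotzRieszKernel_def, circleMap, sub_zero,
      zero_add, ofReal_one, one_mul, real_smul, mul_one, K]
  simp only [h1] at h
  rw [intervalIntegral.integral_ofReal] at h
  have hper : Function.Periodic (fun t : ℝ => (K z t).re) (2 * Real.pi) := by
    intro t
    simp only [K]
    have : exp (((t + 2 * Real.pi : ℝ) : ℂ) * I) = exp ((t : ℂ) * I) := by
      push_cast
      rw [add_mul, exp_add, exp_two_pi_mul_I, mul_one]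
    rw [this]
  have h2 := hper.intervalIntegral_add_eq (-Real.pi) 0
  have e : -Real.pi + 2 * Real.pi = Real.pi := by ring
  rw [e, zero_add] at h2
  rw [cm_int, h2]
  have h3 : ((2 * Real.pi)⁻¹ * ∫ t in (0 : ℝ)..(2 * Real.pi), (K z t).re : ℝ) = 1 := by
    have h4 : (((2 * Real.pi)⁻¹ * ∫ t in (0 : ℝ)..(2 * Real.pi), (K z t).re : ℝ) : ℂ) =
        ((1 : ℝ) : ℂ) := by
      rw [ofReal_mul, ofReal_one, ← h]
      rw [real_smul]
    exact ofReal_injective h4
  have hp : (2 * Real.pi) ≠ 0 := by positivity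
  field_simp at h3
  linarith

/-! ### From one period to the line -/

theorem ae_of_cm {p : ℝ → Prop} (hper : ∀ t, p (t + 2 * Real.pi) ↔ p t)
    (h : ∀ᵐ t ∂cm, p t) : ∀ᵐ t : ℝ, p t := by
  have hpi : 0 < 2 * Real.pi := by positivity
  have hperz : ∀ (n : ℤ) (t : ℝ), p (t + n • (2 * Real.pi)) ↔ p t := by
    intro n
    induction n using Int.induction_on with
    | zero => intro t; simp
    | succ n ih =>
      intro t
      rw [add_zsmul, one_zsmul, ← add_assoc, hper, ih]
    | pred n ih =>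
      intro t
      rw [sub_zsmul, one_zsmul, ← hper (t + _)]
      have e : t + ((-(n : ℤ)) • (2 * Real.pi) + -(2 * Real.pi)) + 2 * Real.pi =
          t + (-(n : ℤ)) • (2 * Real.pi) := by ring
      rw [e, ih]
  rw [ae_iff] at h ⊢
  have h1 : volume ({t | ¬ p t} ∩ Ioc (-Real.pi) Real.pi) = 0 := by
    have := h
    unfold cm at this
    rwa [Measure.restrict_apply' measurableSet_Ioc] at this
  have h2 : {t | ¬ p t} ⊆ ⋃ n : ℤ, (fun t : ℝ => t + n • (2 * Real.pi)) ⁻¹'
      ({t | ¬ p t} ∩ Ioc (-Real.pi) Real.pi) := by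
    intro t ht
    obtain ⟨n, hn, -⟩ := existsUnique_add_zsmul_mem_Ioc hpi t (-Real.pi)
    rw [mem_iUnion]
    refine ⟨n, ?_, ?_⟩
    · intro hp
      exact ht ((hperz n t).1 hp)
    · have e : -Real.pi + 2 * Real.pi = Real.pi := by ring
      rw [e] at hn
      exact hn
  refine measure_mono_null h2 (measure_iUnion_null fun n => ?_)
  rw [measure_preimage_add_right]
  exact h1

theorem exp_per (t : ℝ) : exp (((t + 2 * Real.pi : ℝ) : ℂ) * I) = exp ((t : ℂ) * I) := by
  push_cast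
  rw [add_mul, exp_add, exp_two_pi_mul_I, mul_one]

section

variable {D : Dat} {X : Fin 3 → ℝ → ℝ} {lam : ℝ → ℝ} {T : Fin 3 → ℝ → ℝ}

theorem cont_pt (hF : FIn D X lam T) (i : Fin 3) :
    ContinuousOn (fun z => pt X z i) (closedBall 0 1) := by
  unfold pt
  exact Complex.continuous_re.comp_continuousOn (hF.cont i)

/-- the boundary function is continuous -/
theorem cont_b (hF : FIn D X lam T) (i : Fin 3) :
    Continuous (fun t : ℝ => pt X (exp (t * I)) i) := by
  refine (cont_pt hF i).comp_continuous (by fun_prop) fun t => ?_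
  rw [mem_closedBall_zero_iff, norm_exp_ofReal_mul_I]

theorem ae_b (hF : FIn D X lam T) (i : Fin 3) :
    ∀ᵐ t : ℝ, pt X (exp (t * I)) i = X i t := by
  refine ae_of_cm ?_ (hF.re i)
  intro t
  have h1 := (hF.crit.el.oct.adm.fe i).per t
  rw [exp_per t, h1]

theorem bzero (hG : GoodD D) (hF : FIn D X lam T) (θ : ℝ) (i : Fin 3)
    (hθ : θ ∈ closure (D.Z i)) : pt X (exp (θ * I)) i = 0 := by
  have hcl : IsClosed {t : ℝ | pt X (exp (t * I)) i = 0} :=
    isClosed_eq (cont_b hF i) continuous_const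
  have hsub : D.Z i ⊆ {t : ℝ | pt X (exp (t * I)) i = 0} := by
    intro t ht
    by_contra hne
    have hopen : IsOpen (D.Z i ∩ {t : ℝ | pt X (exp (t * I)) i ≠ 0}) :=
      (hG.op i).inter (isOpen_ne_fun (cont_b hF i) continuous_const)
    obtain ⟨s, hs1, hs2⟩ := (Measure.dense_of_ae (ae_b hF i)).exists_mem_open hopen ⟨t, ht, hne⟩
    apply hs2.2
    rw [show pt X (exp (s * I)) i = X i s from hs1]
    exact hF.crit.el.oct.zeroE i s hs2.1
  exact closure_minimal hsub hcl hθ

theorem bpos (hF : FIn D X lam T) (θ : ℝ) (i : Fin 3)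
    (hθ : θ ∉ closure (D.Z i)) : 0 < pt X (exp (θ * I)) i := by
  obtain ⟨m, hm, δ, hδ, h1⟩ := hF.crit.pos i θ hθ
  have h2 : ∀ᵐ s : ℝ, |s - θ| < δ → m ≤ pt X (exp (s * I)) i := by
    filter_upwards [h1, ae_b hF i] with s hs1 hs2 hs3
    rw [hs2]
    exact hs1 hs3
  have h3 : m ≤ pt X (exp (θ * I)) i := by
    by_contra hlt
    rw [not_le] at hlt
    have hopen : IsOpen ({s : ℝ | |s - θ| < δ} ∩ {s : ℝ | pt X (exp (s * I)) i < m}) := by
      refine IsOpen.inter ?_ (isOpen_lt (cont_b hF i) continuous_const)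
      exact isOpen_lt (by fun_prop) continuous_const
    obtain ⟨s, hs1, hs2⟩ := (Measure.dense_of_ae h2).exists_mem_open hopen
      ⟨θ, by simpa using hδ, hlt⟩
    have h4 := hs1 hs2.1
    have h5 : pt X (exp (s * I)) i < m := hs2.2
    linarith
  linarith

/-- a point of the open period outside the closure of the zero set -/
theorem exists_pt (hG : GoodD D) (i : Fin 3) :
    ∃ t : ℝ, -Real.pi < t ∧ t < Real.pi ∧ t ∉ closure (D.Z i) := by
  have hpi := Real.pi_pos
  have key : ∀ (a b t : ℝ), b < a + 2 * Real.pi → b < t → t < a + 2 * Real.pi →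
      t ∉ pe (Icc a b) := by
    intro a b t hab h1 h2 h3
    obtain ⟨n, hn1, hn2⟩ := h3
    rcases le_or_gt 0 n with hn | hn
    · have : (0 : ℝ) ≤ (n : ℝ) := by exact_mod_cast hn
      nlinarith
    · have : (n : ℝ) ≤ -1 := by exact_mod_cast (by omega : n ≤ -1)
      nlinarith
  fin_cases i
  · refine ⟨-Real.pi / 2, by linarith, by linarith, fun h => ?_⟩
    obtain ⟨n, hn1, hn2⟩ := hG.cl0 h
    refine key 0 (2 * Real.pi / 3) (3 * Real.pi / 2) (by linarith) (by linarith) (by linarith)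
      ⟨n - 1, ?_, ?_⟩
    · push_cast
      linarith
    · push_cast
      linarith
  · refine ⟨Real.pi / 2, by linarith, by linarith, fun h => ?_⟩
    exact key (-(2 * Real.pi / 3)) 0 (Real.pi / 2) (by linarith) (by linarith) (by linarith)
      (hG.cl1 h)
  · refine ⟨0, by linarith, by linarith, fun h => ?_⟩
    obtain ⟨n, hn1, hn2⟩ := hG.cl2 h
    refine key (2 * Real.pi / 3) (4 * Real.pi / 3) (2 * Real.pi) (by linarith) (by linarith)
      (by linarith) ⟨n - 1, ?_, ?_⟩
    · push_cast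
      linarith
    · push_cast
      linarith

theorem bd_X (hF : FIn D X lam T) (i : Fin 3) (t : ℝ) : |X i t| ≤ 1 := by
  have h1 := hF.crit.el.oct.le_one t
  have h2 : X i t ^ 2 ≤ ∑ j, X j t ^ 2 :=
    Finset.single_le_sum (f := fun j => X j t ^ 2) (fun j _ => sq_nonneg _) (Finset.mem_univ i)
  rw [abs_le]
  constructor <;> nlinarith

theorem pt_eq (hF : FIn D X lam T) {z : ℂ} (hz1 : z ∈ ball (0 : ℂ) 1) (i : Fin 3) :
    pt X z i = (1 / (2 * Real.pi)) * ∫ t, (K z t).re * X i t ∂cm := by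
  unfold pt
  rw [hF.eq i z hz1]
  exact re_hz (mem_ball_zero_iff.1 hz1) (hF.crit.el.oct.adm.fe i)

theorem pos (hG : GoodD D) (hF : FIn D X lam T) {z : ℂ} (hz1 : z ∈ ball (0 : ℂ) 1)
    (i : Fin 3) : 0 < pt X z i := by
  have hz' : ‖z‖ < 1 := mem_ball_zero_iff.1 hz1
  rw [pt_eq hF hz1 i]
  have hpi := Real.pi_pos
  refine mul_pos (by positivity) ?_
  have hnn : ∀ t, 0 ≤ (K z t).re * X i t := fun t =>
    mul_nonneg (K_pos hz' t).le (hF.crit.el.oct.nonneg i t)
  have hint := int_Kre hz' (hF.crit.el.oct.adm.fe i).meas 1 (bd_X hF i)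
  rw [integral_pos_iff_support_of_nonneg hnn hint]
  obtain ⟨t, ht1, ht2, ht⟩ := exists_pt hG i
  obtain ⟨m, hm, δ, hδ, h1⟩ := hF.crit.pos i t ht
  have hlt : t < min (t + δ) Real.pi := lt_min (by linarith) ht2
  have hvol : 0 < cm (Ioo t (min (t + δ) Real.pi)) := by
    unfold cm
    rw [Measure.restrict_apply' measurableSet_Ioc]
    have e : Ioo t (min (t + δ) Real.pi) ∩ Ioc (-Real.pi) Real.pi =
        Ioo t (min (t + δ) Real.pi) := by
      apply inter_eq_left.2
      intro s hs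
      exact ⟨by linarith [hs.1], (hs.2.le.trans (min_le_right _ _))⟩
    rw [e, Real.volume_Ioo]
    simpa using hlt
  refine hvol.trans_le ?_
  apply measure_mono_ae
  have h2 : ∀ᵐ s ∂cm, |s - t| < δ → m ≤ X i s := by
    unfold cm
    exact ae_restrict_of_ae h1
  filter_upwards [h2] with s hs hs'
  have h3 : |s - t| < δ := by
    have h4 : s < t + δ := hs'.2.trans_le (min_le_left _ _)
    have h5 : t < s := hs'.1
    rw [abs_lt]
    constructor <;> linarith
  exact (mul_pos (K_pos hz' s) (hm.trans_le (hs h3))).ne'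

theorem lt_one (hF : FIn D X lam T) (hv : 0 < ven X X) {z : ℂ} (hz1 : z ∈ ball (0 : ℂ) 1) :
    ∑ i, pt X z i ^ 2 < 1 := by
  have hz' : ‖z‖ < 1 := mem_ball_zero_iff.1 hz1
  have hpi := Real.pi_pos
  by_contra hge
  rw [not_lt] at hge
  have hfin := fin_cm
  -- the integrals
  have hmeas : ∀ i, Measurable (X i) := fun i => (hF.crit.el.oct.adm.fe i).meas
  have hI1 : ∀ i, ∫ t, (K z t).re * X i t ∂cm = 2 * Real.pi * pt X z i := by
    intro i
    rw [pt_eq hF hz1 i]
    field_simp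
  have hint1 : ∀ i, Integrable (fun t : ℝ => (K z t).re * X i t) cm := fun i =>
    int_Kre hz' (hmeas i) 1 (bd_X hF i)
  have hint0 : Integrable (fun t : ℝ => (K z t).re) cm := by
    have h := int_Kre hz' (f := fun _ => (1 : ℝ)) measurable_const 1 (fun t => by simp)
    simpa using h
  have hint2 : Integrable (fun t : ℝ => (K z t).re * ∑ i, X i t ^ 2) cm := by
    refine int_Kre hz' ?_ 1 ?_
    · exact Finset.measurable_sum _ fun i _ => (hmeas i).pow_const 2
    · intro t
      have h1 := hF.crit.el.oct.le_one t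
      have h2 : 0 ≤ ∑ i, X i t ^ 2 := Finset.sum_nonneg fun i _ => sq_nonneg _
      rw [abs_of_nonneg h2]
      exact h1
  have hI2 : ∫ t, (K z t).re * ∑ i, X i t ^ 2 ∂cm ≤ 2 * Real.pi := by
    rw [← mean hz']
    refine integral_mono hint2 hint0 fun t => ?_
    have h1 := hF.crit.el.oct.le_one t
    have h2 := (K_pos hz' t).le
    change (K z t).re * ∑ i, X i t ^ 2 ≤ (K z t).re
    nlinarith
  have hsum : ∀ t, (K z t).re * ∑ i, (X i t - pt X z i) ^ 2 =
      (K z t).re * ∑ i, X i t ^ 2 - ∑ i, (2 * pt X z i) * ((K z t).re * X i t) +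
        (∑ i, pt X z i ^ 2) * (K z t).re := by
    intro t
    simp only [Fin.sum_univ_three]
    ring
  have hint3 : Integrable (fun t : ℝ => ∑ i, (2 * pt X z i) * ((K z t).re * X i t)) cm :=
    integrable_finset_sum _ fun i _ => (hint1 i).const_mul _
  have hI3 : ∫ t, (K z t).re * ∑ i, (X i t - pt X z i) ^ 2 ∂cm ≤ 0 := by
    have e : ∫ t, (K z t).re * ∑ i, (X i t - pt X z i) ^ 2 ∂cm =
        ∫ t, (K z t).re * ∑ i, X i t ^ 2 ∂cm -
          ∑ i, (2 * pt X z i) * (2 * Real.pi * pt X z i) +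
        (∑ i, pt X z i ^ 2) * (2 * Real.pi) := by
      simp only [hsum]
      have hA : Integrable (fun t : ℝ => (K z t).re * ∑ i, X i t ^ 2 -
          ∑ i, (2 * pt X z i) * ((K z t).re * X i t)) cm := hint2.sub hint3
      have hB : Integrable (fun t : ℝ => (∑ i, pt X z i ^ 2) * (K z t).re) cm :=
        hint0.const_mul _
      rw [integral_add hA hB, integral_sub hint2 hint3,
        integral_finset_sum _ fun i _ => (hint1 i).const_mul _, integral_const_mul, mean hz']
      simp only [integral_const_mul, hI1]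
    rw [e]
    have e2 : ∑ i, (2 * pt X z i) * (2 * Real.pi * pt X z i) =
        2 * ((∑ i, pt X z i ^ 2) * (2 * Real.pi)) := by
      simp only [Fin.sum_univ_three]
      ring
    rw [e2]
    nlinarith
  have hnn : 0 ≤ fun t : ℝ => (K z t).re * ∑ i, (X i t - pt X z i) ^ 2 := fun t =>
    mul_nonneg (K_pos hz' t).le (Finset.sum_nonneg fun i _ => sq_nonneg _)
  have hint4 : Integrable (fun t : ℝ => (K z t).re * ∑ i, (X i t - pt X z i) ^ 2) cm := by
    simp only [hsum]
    exact (hint2.sub hint3).add (hint0.const_mul _)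
  have hI4 : ∫ t, (K z t).re * ∑ i, (X i t - pt X z i) ^ 2 ∂cm = 0 :=
    le_antisymm hI3 (integral_nonneg hnn)
  rw [integral_eq_zero_iff_of_nonneg hnn hint4] at hI4
  have hae : ∀ᵐ t ∂cm, ∀ i, X i t = pt X z i := by
    filter_upwards [hI4] with t ht i
    have h1 : (K z t).re * ∑ i, (X i t - pt X z i) ^ 2 = 0 := ht
    rcases mul_eq_zero.1 h1 with h2 | h2
    · exact absurd h2 (K_pos hz' t).ne'
    · rw [Finset.sum_eq_zero_iff_of_nonneg fun i _ => sq_nonneg _] at h2
      have h3 := h2 i (Finset.mem_univ i)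
      have h4 : X i t - pt X z i = 0 := by
        exact pow_eq_zero_iff (two_ne_zero) |>.1 h3
      linarith
  have hen : ∀ i, en (X i) (X i) = 0 := by
    intro i
    unfold en
    have h1 : ∀ᵐ p ∂cm2, J p.1 p.2 * ((X i p.1 - X i p.2) * (X i p.1 - X i p.2)) = 0 := by
      have h2 : ∀ᵐ p ∂cm2, ∀ i, X i p.1 = pt X z i :=
        (Measure.quasiMeasurePreserving_fst (μ := cm) (ν := cm)).ae hae
      have h3 : ∀ᵐ p ∂cm2, ∀ i, X i p.2 = pt X z i :=
        (Measure.quasiMeasurePreserving_snd (μ := cm) (ν := cm)).ae hae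
      filter_upwards [h2, h3] with p hp1 hp2
      rw [hp1 i, hp2 i]
      ring
    rw [integral_congr_ae (g := fun _ => (0 : ℝ)) h1]
    simp
  have hv0 : ven X X = 0 := by
    unfold ven
    exact Finset.sum_eq_zero fun i _ => hen i
  linarith

end

end F0

theorem F0_thm : Stmt_F0 := by
  intro D X lam T hG hF hv
  exact
    { pos := fun z hz i => F0.pos hG hF hz i
      lt_one := fun z hz => F0.lt_one hF hv hz
      bpos := fun θ i h => F0.bpos hF θ i h
      bzero := fun θ i h => F0.bzero hG hF θ i h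
      cont := fun i => F0.cont_pt hF i }

end F
end FBM
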