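import Pool.Agent.FBM.F.Stmts3

/-! FBM, block F: immersion at interior points of the edges. -/

namespace FBM
namespace F

open Metric Set Complex MeasureTheory Filter Topology
open Pool.Agent.FBM

namespace F1A

theorem mem_closure_of_edge {D : Dat} {θ : ℝ} {i : Fin 3} (h : EdgeR D θ (.W i)) :
    θ ∈ closure (D.Z i) := by
  have h1 : ∀ᶠ s in 𝓝[>] θ, s ∈ D.Z i := by
    filter_upwards [h] with s hs
    exact hs.1
  rw [mem_closure_iff_frequently]
  have h2 : ∃ᶠ s in 𝓝[>] θ, s ∈ D.Z i := h1.frequently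
  exact h2.filter_mono nhdsWithin_le_nhds

theorem re_eq {X : Fin 3 → ℝ → ℝ} {θ : ℝ} {e : Edge} {ρ : ℝ} {G : Fin 3 → ℂ → ℂ}
    (hG : LocReg X θ e ρ G) (j : Fin 3) {w : ℂ} (hw : ‖w‖ < ρ) (hi : 0 ≤ w.im) :
    (G j w).re = pt X (psi θ w) j := by
  rw [hG.eq j w hw hi]
  rfl

end F1A

open F1A in
theorem F1A_thm (hPSI : Stmt_PSI) (hBHP : Stmt_BHP) : Stmt_F1A := by
  intro D X _ hP θ e ρ G hR _ hG
  by_contra hcon
  push Not at hcon
  have hρ : 0 < ρ := hG.pos.1
  have hρ1 : ρ < 1 := hG.pos.2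
  have hup : ∀ w : ℂ, ‖w‖ < ρ → 0 < w.im → psi θ w ∈ ball (0 : ℂ) 1 := fun w hw hi =>
    hPSI.maps θ w (by linarith) hi
  have hw0 : ‖((ρ / 2 : ℝ) : ℂ) * I‖ < ρ := by
    rw [norm_mul, norm_I, mul_one, Complex.norm_real, Real.norm_of_nonneg (by linarith)]
    linarith
  have hi0 : 0 < (((ρ / 2 : ℝ) : ℂ) * I).im := by
    simpa using hρ
  cases e with
  | W i =>
    have hcl := mem_closure_of_edge hR
    have h0 : (G i 0).re = 0 := by
      rw [re_eq hG i (by simpa using hρ) (by simp), hPSI.zero]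
      exact hP.bzero θ i hcl
    have h1 := hBHP (G i) ρ hρ (hG.an i) (by
      intro w hw hi
      rw [mem_ball_zero_iff] at hw
      rw [re_eq hG i hw hi.le]
      exact (hP.pos _ (hup w hw hi) i).le) h0 (by rw [hcon i]; simp) _ (mem_ball_zero_iff.2 hw0)
    have h2 := hP.pos _ (hup _ hw0 hi0) i
    rw [← re_eq hG i hw0 hi0.le, h1, h0] at h2
    exact lt_irrefl _ h2
  | H =>
    set a : Fin 3 → ℝ := fun j => (G j 0).re with ha
    have ha1 : ∑ j, a j ^ 2 = 1 := by
      have := hG.bd' rfl 0 (by simpa using hρ)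
      simpa using this
    set h : ℂ → ℂ := fun w => 1 - ∑ j, (a j : ℂ) * G j w with hh
    have hre : ∀ w, (h w).re = 1 - ∑ j, a j * (G j w).re := by
      intro w
      simp [hh]
    have hpos : ∀ w : ℂ, ‖w‖ < ρ → 0 < w.im → 0 < (h w).re := by
      intro w hw hi
      rw [hre]
      have h1 := hP.lt_one _ (hup w hw hi)
      have h2 : ∑ j, a j * (G j w).re ≤ ∑ j, (a j ^ 2 + pt X (psi θ w) j ^ 2) / 2 := by
        refine Finset.sum_le_sum fun j _ => ?_
        rw [re_eq hG j hw hi.le]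
        nlinarith [sq_nonneg (a j - pt X (psi θ w) j)]
      rw [← Finset.sum_div, Finset.sum_add_distrib, ha1] at h2
      linarith
    have hd : DifferentiableOn ℂ h (ball 0 ρ) := by
      refine (differentiableOn_const _).sub ?_
      refine DifferentiableOn.fun_sum fun j _ => ?_
      exact (hG.an j).const_mul _
    have h0 : (h 0).re = 0 := by
      rw [hre]
      have : ∑ j, a j * (G j 0).re = ∑ j, a j ^ 2 := by
        refine Finset.sum_congr rfl fun j _ => ?_
        rw [sq]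
      rw [this, ha1, sub_self]
    have hder : deriv h 0 = 0 := by
      have h1 : HasDerivAt h (0 - ∑ j, (a j : ℂ) * deriv (G j) 0) 0 := by
        refine (hasDerivAt_const _ _).sub ?_
        refine HasDerivAt.fun_sum fun j _ => ?_
        refine HasDerivAt.const_mul _ ?_
        exact ((hG.an j).differentiableAt (ball_mem_nhds 0 hρ)).hasDerivAt
      rw [h1.deriv]
      simp [hcon]
    have h1 := hBHP h ρ hρ hd (by
      intro w hw hi
      rw [mem_ball_zero_iff] at hw
      exact (hpos w hw hi).le) h0 (by rw [hder]; simp) _ (mem_ball_zero_iff.2 hw0)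
    have h2 := hpos _ hw0 hi0
    rw [h1, h0] at h2
    exact lt_irrefl _ h2

end F
end FBM
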