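/-
FBM, block F (immersion), module F1B: immersion at the corners and junctions.
The mathematics is in Pool/Agent/FBM/F/PAPER_F.md, section F1B.
-/
import Pool.Agent.FBM.F.Stmts3

namespace FBM
namespace F
namespace F1B

open Metric Set Complex MeasureTheory Filter Topology
open Pool.Agent.FBM

/-- In the open quadrant the real parts of the local extension are the components of the
surface at an interior point of the disc. -/
theorem quad {X : Fin 3 → ℝ → ℝ} {θ : ℝ} {eR eL : Edge} {ρ : ℝ} {G : Fin 3 → ℂ → ℂ}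
    (hP : PsiP) (h : LocCor X θ eR eL ρ G) {w : ℂ} (hw : ‖w‖ < ρ) (h1 : 0 < w.re)
    (h2 : 0 < w.im) :
    psi θ (w ^ 2) ∈ ball (0 : ℂ) 1 ∧ ∀ j, (G j w).re = pt X (psi θ (w ^ 2)) j := by
  have hρ := h.pos.2
  have hn : ‖w ^ 2‖ < 1 := by
    rw [norm_pow]
    nlinarith [norm_nonneg w]
  have him : 0 < (w ^ 2).im := by
    have : (w ^ 2).im = 2 * (w.re * w.im) := by
      rw [sq, Complex.mul_im]; ring
    rw [this]; positivity
  refine ⟨hP.maps θ _ hn him, fun j => ?_⟩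
  rw [h.eq j w hw h1.le h2.le]
  rfl

/-- a point of the open quadrant inside the ball -/
theorem exists_quad {ρ : ℝ} (hρ : 0 < ρ) : ∃ w : ℂ, ‖w‖ < ρ ∧ 0 < w.re ∧ 0 < w.im := by
  refine ⟨⟨ρ / 3, ρ / 3⟩, ?_, by simpa using hρ, by simpa using hρ⟩
  have h := Complex.norm_le_abs_re_add_abs_im (⟨ρ / 3, ρ / 3⟩ : ℂ)
  have h3 : |ρ / 3| = ρ / 3 := abs_of_pos (by positivity)
  simp only [h3] at h
  linarith

/-- Two vectors, one of norm one, one of norm smaller than one, have scalar product < 1. -/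
theorem inner_lt (a x : Fin 3 → ℝ) (ha : ∑ j, a j ^ 2 = 1) (hx : ∑ j, x j ^ 2 < 1) :
    ∑ j, a j * x j < 1 := by
  simp only [Fin.sum_univ_three] at ha hx ⊢
  nlinarith [sq_nonneg (a 0 - x 0), sq_nonneg (a 1 - x 1), sq_nonneg (a 2 - x 2)]

/-- The auxiliary function of the junctions. -/
noncomputable def hh (G : Fin 3 → ℂ → ℂ) (w : ℂ) : ℂ := 1 - ∑ j, ((G j 0).re : ℂ) * G j w

theorem hh_re (G : Fin 3 → ℂ → ℂ) (w : ℂ) :
    (hh G w).re = 1 - ∑ j, (G j 0).re * (G j w).re := by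
  simp [hh, Fin.sum_univ_three]

theorem hh_diff {G : Fin 3 → ℂ → ℂ} {ρ : ℝ} (h : ∀ j, DifferentiableOn ℂ (G j) (ball 0 ρ)) :
    DifferentiableOn ℂ (hh G) (ball 0 ρ) := by
  unfold hh
  refine (differentiableOn_const _).sub ?_
  exact DifferentiableOn.fun_sum fun j _ => (h j).const_mul _

theorem hh_deriv {G : Fin 3 → ℂ → ℂ} {ρ : ℝ} (hρ : 0 < ρ)
    (h : ∀ j, DifferentiableOn ℂ (G j) (ball 0 ρ)) (h0 : ∀ j, deriv (G j) 0 = 0) :
    deriv (hh G) 0 = 0 := by
  have hd : ∀ j, HasDerivAt (G j) 0 0 := by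
    intro j
    have := ((h j).differentiableAt (isOpen_ball.mem_nhds (mem_ball_self hρ))).hasDerivAt
    rwa [h0 j] at this
  have hs : HasDerivAt (fun w => ∑ j, ((G j 0).re : ℂ) * G j w)
      (∑ j : Fin 3, ((G j 0).re : ℂ) * 0) 0 :=
    HasDerivAt.fun_sum fun j _ => (hd j).const_mul _
  have hs' : HasDerivAt (hh G) (0 - ∑ j : Fin 3, ((G j 0).re : ℂ) * 0) 0 :=
    (hasDerivAt_const (0 : ℂ) (1 : ℂ)).sub hs
  rw [hs'.deriv]
  simp

/-- positivity of the auxiliary function in the quadrant -/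
theorem hh_pos {D : Dat} {X : Fin 3 → ℝ → ℝ} {θ : ℝ} {eR eL : Edge} {ρ : ℝ}
    {G : Fin 3 → ℂ → ℂ} (hP : PsiP) (hX : PosP D X) (h : LocCor X θ eR eL ρ G)
    (h1 : ∑ j, (G j 0).re ^ 2 = 1) {w : ℂ} (hw : ‖w‖ < ρ) (hr : 0 < w.re) (hi : 0 < w.im) :
    0 < (hh G w).re := by
  obtain ⟨hz, hq⟩ := quad hP h hw hr hi
  rw [hh_re]
  have := inner_lt (fun j => (G j 0).re) (fun j => pt X (psi θ (w ^ 2)) j) h1
    (hX.lt_one _ hz)
  simp only [hq]
  linarith

theorem hh_zero {G : Fin 3 → ℂ → ℂ} (h1 : ∑ j, (G j 0).re ^ 2 = 1) : (hh G 0).re = 0 := by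
  rw [hh_re]
  have : ∑ j, (G j 0).re * (G j 0).re = ∑ j, (G j 0).re ^ 2 := by
    refine Finset.sum_congr rfl fun j _ => ?_
    ring
  rw [this, h1, sub_self]

/-- evenness of the auxiliary function, when component `i` changes its sign -/
theorem hh_even {G : Fin 3 → ℂ → ℂ} {w w' : ℂ} {i : Fin 3} (h0 : (G i 0).re = 0)
    (h : ∀ j, (G j w').re = (if j = i then -1 else 1) * (G j w).re) :
    (hh G w').re = (hh G w).re := by
  rw [hh_re, hh_re]
  congr 1
  refine Finset.sum_congr rfl fun j _ => ?_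
  rw [h j]
  by_cases hj : j = i
  · subst hj
    rw [h0]; ring
  · rw [if_neg hj]; ring

end F1B

open Metric Set Complex MeasureTheory Filter Topology
open Pool.Agent.FBM

/-- F1B: immersion at the corners and junctions. -/
theorem F1B_thm (hPSI : Stmt_PSI) (hBQR : Stmt_BQR) (hBQI : Stmt_BQI) : Stmt_F1B := by
  intro D X _ hX θ eR eL ρ G _ _ hne hG
  by_contra hcon
  push Not at hcon
  obtain ⟨hρ, hρ1⟩ := hG.pos
  have hb0 : ‖(0 : ℂ)‖ < ρ := by simpa using hρ
  obtain ⟨w₀, hw₀, hw₀r, hw₀i⟩ := F1B.exists_quad hρ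
  have hw₀b : w₀ ∈ ball (0 : ℂ) ρ := by simpa using hw₀
  have hR := hG.bdR
  have hL := hG.bdL
  cases eR with
  | W i =>
    have hR' : ∀ j, ∀ w : ℂ, ‖w‖ < ρ →
      (G j ((starRingEnd ℂ) w)).re = (if j = i then -1 else 1) * (G j w).re := hR
    have hi0 : (G i 0).re = 0 := by
      have := hR' i 0 hb0
      simp only [map_zero, if_true] at this
      linarith
    cases eL with
    | W k =>
      have hL' : ∀ j, ∀ w : ℂ, ‖w‖ < ρ →
        (G j (-(starRingEnd ℂ) w)).re = (if j = k then -1 else 1) * (G j w).re := hL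
      have hik : i ≠ k := fun h => hne (by rw [h])
      have hc := hBQI (G i) ρ hρ (hG.an i)
        (fun w hw => by
          have := hL' i w (by simpa using hw)
          rw [if_neg hik, one_mul] at this
          exact this)
        (fun w hw hr hi => by
          obtain ⟨hz, hq⟩ := F1B.quad hPSI hG (by simpa using hw) hr hi
          rw [hq i]
          exact (hX.pos _ hz i).le)
        hi0 (by rw [hcon i]; simp) w₀ hw₀b
      obtain ⟨hz, hq⟩ := F1B.quad hPSI hG hw₀ hw₀r hw₀i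
      have h1 := hq i
      rw [hc, hi0] at h1
      have h2 := hX.pos _ hz i
      linarith
    | H =>
      have hL' : ∀ x : ℝ, 0 ≤ x → x < ρ → ∑ j, (G j ((x : ℂ) * Complex.I)).re ^ 2 = 1 := hL
      have h1 : ∑ j, (G j 0).re ^ 2 = 1 := by
        have := hL' 0 le_rfl hρ
        simpa using this
      have hc := hBQR (F1B.hh G) ρ hρ (F1B.hh_diff hG.an)
        (fun w hw => F1B.hh_even hi0 fun j => hR' j w (by simpa using hw))
        (fun w hw hr hi => (F1B.hh_pos hPSI hX hG h1 (by simpa using hw) hr hi).le)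
        (F1B.hh_zero h1) (by rw [F1B.hh_deriv hρ hG.an hcon]; simp) w₀ hw₀b
      have h2 := F1B.hh_pos hPSI hX hG h1 hw₀ hw₀r hw₀i
      rw [hc, F1B.hh_zero h1] at h2
      exact lt_irrefl _ h2
  | H =>
    have hR' : ∀ x : ℝ, 0 ≤ x → x < ρ → ∑ j, (G j (x : ℂ)).re ^ 2 = 1 := hR
    have h1 : ∑ j, (G j 0).re ^ 2 = 1 := by
      have := hR' 0 le_rfl hρ
      simpa using this
    cases eL with
    | W k =>
      have hL' : ∀ j, ∀ w : ℂ, ‖w‖ < ρ →
        (G j (-(starRingEnd ℂ) w)).re = (if j = k then -1 else 1) * (G j w).re := hL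
      have hk0 : (G k 0).re = 0 := by
        have := hL' k 0 hb0
        simp only [map_zero, neg_zero, if_true] at this
        linarith
      have hc := hBQI (F1B.hh G) ρ hρ (F1B.hh_diff hG.an)
        (fun w hw => F1B.hh_even hk0 fun j => hL' j w (by simpa using hw))
        (fun w hw hr hi => (F1B.hh_pos hPSI hX hG h1 (by simpa using hw) hr hi).le)
        (F1B.hh_zero h1) (by rw [F1B.hh_deriv hρ hG.an hcon]; simp) w₀ hw₀b
      have h2 := F1B.hh_pos hPSI hX hG h1 hw₀ hw₀r hw₀i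
      rw [hc, F1B.hh_zero h1] at h2
      exact lt_irrefl _ h2
    | H => exact hne rfl

end F
end FBM
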