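import Pool.Agent.FBM.F.Stmts3

/-!
# FBM, block F: interior immersion (module F2)
-/

namespace FBM
namespace F

open Metric Set Complex MeasureTheory Filter Topology
open Pool.Agent.FBM

namespace F2

/-- every point of the unit circle has an argument in `(-2π/3, 4π/3]` -/
theorem exists_arg {p : ℂ} (hp : p ∈ sphere (0 : ℂ) 1) :
    ∃ t : ℝ, t ∈ Ioc (-(2 * Real.pi / 3)) (4 * Real.pi / 3) ∧ p = Complex.exp (t * Complex.I) := by
  have hn : ‖p‖ = 1 := by simpa using hp
  have hpi := Real.pi_pos
  have h1 : p = Complex.exp ((Complex.arg p : ℝ) * Complex.I) := by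
    have := Complex.norm_mul_exp_arg_mul_I p
    rw [hn] at this
    simpa using this.symm
  have h2 := Complex.neg_pi_lt_arg p
  have h3 := Complex.arg_le_pi p
  by_cases h : -(2 * Real.pi / 3) < Complex.arg p
  · exact ⟨Complex.arg p, ⟨h, by linarith⟩, h1⟩
  · refine ⟨Complex.arg p + 2 * Real.pi, ⟨by linarith, by linarith⟩, ?_⟩
    have h4 : Complex.exp ((Complex.arg p + 2 * Real.pi : ℝ) * Complex.I)
        = Complex.exp ((Complex.arg p : ℝ) * Complex.I) := by
      push_cast
      rw [add_mul, Complex.exp_add, Complex.exp_two_pi_mul_I, mul_one]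
    rw [h4]
    exact h1

theorem norm_exp (t : ℝ) : Complex.exp (t * Complex.I) ∈ sphere (0 : ℂ) 1 := by
  simp [Complex.norm_exp_ofReal_mul_I]

end F2

open F2

theorem F2_thm (hRADO : Stmt_RADO) (hF0 : Stmt_F0) (hZNE : Stmt_ZNE) (hHPA : Stmt_HPA)
    (hCRN : Stmt_CRN) : Stmt_F2 := by
  intro D X lam T hG hF hv z hz0
  have hpi := Real.pi_pos
  have hP : PosP D X := hF0 D X lam T hG hF hv
  set x : ℂ → ℝ := fun z => pt X z 1 with hx
  set y : ℂ → ℝ := fun z => pt X z 2 with hy
  -- harmonicity
  have hH : ∀ i : Fin 3, PosHarm (fun z => pt X z i) := by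
    intro i
    refine ⟨⟨hz (X i), hF.hol i, ?_⟩, hP.cont i, fun w hw => hP.pos w hw i⟩
    intro w hw
    show (Fx (X i) w).re = _
    rw [hF.eq i w hw]
  -- closures
  have hc1 : ∀ t : ℝ, pt X (Complex.exp (t * Complex.I)) 1 = 0 →
      ∃ n : ℤ, t + n * (2 * Real.pi) ∈ Icc (-(2 * Real.pi / 3)) 0 := by
    intro t ht
    have h1 : t ∈ closure (D.Z 1) := by
      by_contra hcon
      have := hP.bpos t 1 hcon
      linarith
    exact hG.cl1 h1
  have hc2 : ∀ t : ℝ, pt X (Complex.exp (t * Complex.I)) 2 = 0 →
      ∃ n : ℤ, t + n * (2 * Real.pi) ∈ Icc (2 * Real.pi / 3) (4 * Real.pi / 3) := by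
    intro t ht
    have h1 : t ∈ closure (D.Z 2) := by
      by_contra hcon
      have := hP.bpos t 2 hcon
      linarith
    exact hG.cl2 h1
  -- the point 4π/3
  have h43 : pt X (Complex.exp ((4 * Real.pi / 3 : ℝ) * Complex.I)) 2 = 0 := by
    apply hP.bzero
    rw [hG.z2]
    have hsub : Ioo (2 * Real.pi / 3) (4 * Real.pi / 3) ⊆ side 2 := by
      intro s hs
      refine ⟨0, ?_⟩
      simpa using hs
    apply closure_mono hsub
    rw [closure_Ioo (by nlinarith)]
    exact ⟨by linarith, le_rfl⟩
  set I1 : Set ℂ := (fun t : ℝ => Complex.exp (t * Complex.I)) '' Ioc (-(2 * Real.pi / 3)) 0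
    with hI1
  set I2 : Set ℂ := (fun t : ℝ => Complex.exp (t * Complex.I)) ''
    Icc (2 * Real.pi / 3) (4 * Real.pi / 3) with hI2
  have hcont : Continuous (fun t : ℝ => Complex.exp (t * Complex.I)) := by fun_prop
  have hexp : ∀ s t : ℝ, Complex.exp (s * Complex.I) = Complex.exp (t * Complex.I) →
      ∃ n : ℤ, s = t + n * (2 * Real.pi) := by
    intro s t h
    obtain ⟨n, hn⟩ := Complex.exp_eq_exp_iff_exists_int.mp h
    refine ⟨n, ?_⟩
    have h2 : ((s : ℂ) - (t + n * (2 * Real.pi))) * Complex.I = 0 := by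
      linear_combination hn
    have h3 : ((s : ℂ) - (t + n * (2 * Real.pi))) = 0 := by
      rcases mul_eq_zero.mp h2 with h | h
      · exact h
      · exact absurd h Complex.I_ne_zero
    have h4 : (s : ℂ) = ((t + n * (2 * Real.pi) : ℝ) : ℂ) := by
      push_cast
      linear_combination h3
    exact_mod_cast h4
  have hA : ∃ q ∈ sphere (0 : ℂ) 1, pt X q 1 = 0 ∧ 0 < pt X q 2 := by
    obtain ⟨t, ht⟩ := hZNE D X lam T hF.crit hv 1
    by_cases hb : t ∈ closure (D.Z 2)
    · obtain ⟨n, hn⟩ := hG.cl1 (subset_closure ht)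
      obtain ⟨m, hm⟩ := hG.cl2 hb
      obtain ⟨ε, hε, hball⟩ := Metric.isOpen_iff.mp (hG.op 1) t ht
      set δ : ℝ := min (ε / 2) 1 with hδ
      have hδ0 : 0 < δ := lt_min (by linarith) one_pos
      have hδ1 : δ ≤ 1 := min_le_right _ _
      have hδε : δ < ε := lt_of_le_of_lt (min_le_left _ _) (by linarith)
      have ht' : t + δ ∈ D.Z 1 := by
        apply hball
        rw [Metric.mem_ball, Real.dist_eq]
        have : t + δ - t = δ := by ring
        rw [this, abs_of_pos hδ0]
        exact hδε
      refine ⟨Complex.exp ((t + δ : ℝ) * Complex.I), norm_exp _, ?_, ?_⟩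
      · exact hP.bzero _ 1 (subset_closure ht')
      · apply hP.bpos _ 2
        intro hcl
        obtain ⟨l, hl⟩ := hG.cl2 hcl
        have hmn : (m - n : ℤ) = 1 := by
          have e1 := hn.1
          have e2 := hn.2
          have e3 := hm.1
          have e4 := hm.2
          have hpos : (0 : ℝ) < ((m - n : ℤ) : ℝ) := by
            by_contra hcon
            push Not at hcon
            push_cast at hcon
            nlinarith
          have hlt : ((m - n : ℤ) : ℝ) < 2 := by
            by_contra hcon
            push Not at hcon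
            push_cast at hcon
            nlinarith
          have e5 : (0 : ℤ) < m - n := by exact_mod_cast hpos
          have e6 : (m - n : ℤ) < 2 := by exact_mod_cast hlt
          omega
        have hmn' : (m : ℝ) = n + 1 := by
          have : m = n + 1 := by omega
          rw [this]; push_cast; ring
        have htn : t + n * (2 * Real.pi) = -(2 * Real.pi / 3) := by
          apply le_antisymm
          · have e4 := hm.2
            rw [hmn'] at e4
            linarith
          · exact hn.1
        have e1 := hl.1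
        have e2 := hl.2
        have hp3 : (3 : ℝ) < Real.pi := Real.pi_gt_three
        have hpos : (0 : ℝ) < ((l - n : ℤ) : ℝ) := by
          by_contra hcon
          push Not at hcon
          push_cast at hcon
          nlinarith
        have hlt : ((l - n : ℤ) : ℝ) < 1 := by
          by_contra hcon
          push Not at hcon
          push_cast at hcon
          nlinarith
        have e5 : (0 : ℤ) < l - n := by exact_mod_cast hpos
        have e6 : (l - n : ℤ) < 1 := by exact_mod_cast hlt
        omega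
    · exact ⟨Complex.exp (t * Complex.I), norm_exp _, hP.bzero _ 1 (subset_closure ht),
        hP.bpos _ 2 hb⟩
  have hB : ∃ q ∈ sphere (0 : ℂ) 1, pt X q 2 = 0 ∧ 0 < pt X q 1 := by
    refine ⟨Complex.exp ((Real.pi : ℝ) * Complex.I), norm_exp _, ?_, ?_⟩
    · apply hP.bzero _ 2
      rw [hG.z2]
      apply subset_closure
      refine ⟨0, ?_⟩
      constructor <;> push_cast <;> linarith
    · apply hP.bpos _ 1
      intro hcl
      obtain ⟨n, hn⟩ := hG.cl1 hcl
      have e1 := hn.1
      have e2 := hn.2
      have hlt : (n : ℝ) < 0 := by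
        by_contra hcon
        push Not at hcon
        nlinarith
      have hgt : (-1 : ℝ) < n := by
        by_contra hcon
        push Not at hcon
        nlinarith
      have e5 : n < 0 := by exact_mod_cast hlt
      have e6 : (-1 : ℤ) < n := by exact_mod_cast hgt
      omega
  have key := hRADO x y I1 I2 (hH 1) (hH 2) hA hB ?_ ?_ ?_ ?_ ?_ ?_ ?_ ?_ ?_ (hz (X 1)) (hz (X 2))
    (hF.hol 1) (hF.hol 2) ?_ ?_ z hz0
  · by_contra hcon
    push Not at hcon
    exact key ⟨hcon 1, hcon 2⟩
  · rintro _ ⟨t, _, rfl⟩
    exact norm_exp t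
  · rintro _ ⟨t, _, rfl⟩
    exact norm_exp t
  · rw [Set.disjoint_left]
    rintro _ ⟨s, hs, rfl⟩ ⟨t, ht, hst⟩
    obtain ⟨n, hn⟩ := hexp t s hst
    have e1 := hs.1
    have e2 := hs.2
    have e3 := ht.1
    have e4 := ht.2
    have hpos : (0 : ℝ) < n := by
      by_contra hcon
      push Not at hcon
      nlinarith
    have hlt : (n : ℝ) < 1 := by
      by_contra hcon
      push Not at hcon
      nlinarith
    have e5 : (0 : ℤ) < n := by exact_mod_cast hpos
    have e6 : n < (1 : ℤ) := by exact_mod_cast hlt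
    omega
  · exact ((convex_Ioc _ _).isPathConnected ⟨0, by constructor <;> linarith⟩).image hcont
  · exact ((convex_Icc _ _).isPathConnected ⟨Real.pi, by constructor <;> linarith⟩).image hcont
  · intro p hp hxp hyp
    obtain ⟨t, ht, rfl⟩ := exists_arg hp
    obtain ⟨n, hn⟩ := hc1 t hxp
    have e1 := hn.1
    have e2 := hn.2
    have e3 := ht.1
    have e4 := ht.2
    have hlt : (n : ℝ) < 1 := by
      by_contra hcon
      push Not at hcon
      nlinarith
    have hgt : (-2 : ℝ) < n := by
      by_contra hcon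
      push Not at hcon
      nlinarith
    have e5 : n < 1 := by exact_mod_cast hlt
    have e6 : (-2 : ℤ) < n := by exact_mod_cast hgt
    have h7 : n = 0 ∨ n = -1 := by omega
    rcases h7 with h7 | h7
    · subst h7
      refine ⟨t, ⟨e3, ?_⟩, rfl⟩
      simpa using e2
    · subst h7
      have ht4 : t = 4 * Real.pi / 3 := by
        apply le_antisymm e4
        push_cast at e1
        linarith
      exfalso
      have : pt X (Complex.exp (t * Complex.I)) 2 = 0 := by rw [ht4]; exact h43
      have hyp' : 0 < pt X (Complex.exp (t * Complex.I)) 2 := hyp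
      linarith
  · intro p hp hyp hxp
    obtain ⟨t, ht, rfl⟩ := exists_arg hp
    obtain ⟨n, hn⟩ := hc2 t hyp
    have e1 := hn.1
    have e2 := hn.2
    have e3 := ht.1
    have e4 := ht.2
    have hlt : (n : ℝ) < 1 := by
      by_contra hcon
      push Not at hcon
      nlinarith
    have hgt : (-1 : ℝ) < n := by
      by_contra hcon
      push Not at hcon
      nlinarith
    have e5 : n < 1 := by exact_mod_cast hlt
    have e6 : (-1 : ℤ) < n := by exact_mod_cast hgt
    have h7 : n = 0 := by omega
    subst h7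
    refine ⟨t, ⟨?_, ?_⟩, rfl⟩
    · simpa using e1
    · simpa using e2
  · intro p hp hxp hyp
    obtain ⟨t, ht, rfl⟩ := exists_arg hp
    exact ⟨hHPA D X lam T hG hF hP t 1 2 (by decide) hxp hyp,
      hHPA D X lam T hG hF hP t 2 1 (by decide) hyp hxp⟩
  · intro p hp hxp hyp
    obtain ⟨t, ht, rfl⟩ := exists_arg hp
    exact ⟨hCRN D X lam T hG hF hP t 1 2 (by decide) hxp hyp,
      hCRN D X lam T hG hF hP t 2 1 (by decide) hyp hxp⟩
  · intro w hw
    show (Fx (X 1) w).re = _
    rw [hF.eq 1 w hw]
  · intro w hw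
    show (Fx (X 2) w).re = _
    rw [hF.eq 2 w hw]

end F
end FBM
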