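/-
FBM, block F: the outputs of block F in the form of Top.lean (helper5).
-/
import Pool.Agent.FBM.Top
import Pool.Agent.FBM.F.Stmts3

namespace FBM
namespace F

open Metric Set Complex MeasureTheory Filter Topology
open Pool.Agent.FBM

theorem fin_of_top (hD : Pool.Agent.FBM.Stmt_D_bd) (hEr : Pool.Agent.FBM.Stmt_E_reg)
    (hEc : Pool.Agent.FBM.Stmt_E_cor) (D : Dat) (X : Fin 3 → ℝ → ℝ) (lam : ℝ → ℝ)
    (T : Fin 3 → ℝ → ℝ) (hT : D.Tm) (hC : Crit D X lam T) : FIn D X lam T := by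
  have hb := hD D X lam T hT hC
  refine ⟨hC, fun i => ?_, fun i => ?_, fun i => ?_, fun i => ?_, ?_, ?_⟩
  · obtain ⟨b, h⟩ := hb i
    exact h.cont
  · obtain ⟨b, h⟩ := hb i
    intro z hz
    exact h.eq z (by simpa using hz)
  · obtain ⟨b, h⟩ := hb i
    exact h.an
  · obtain ⟨b, h⟩ := hb i
    exact h.re
  · intro θ e hR hL
    obtain ⟨ρ, G, hG, hP⟩ := hEr D X lam T hT hC θ e hR hL
    refine ⟨ρ, G, hG, fun he => ?_⟩
    have h := hP he 0 (by simpa using hG.pos.1)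
    simpa using h
  · intro θ eR eL hR hL hne
    obtain ⟨ρ, G, hG, h1, h2⟩ := hEc D X lam T hT hC θ eR eL hR hL hne
    refine ⟨ρ, G, hG, fun he => ?_, fun he => ?_⟩
    · have h := h1 he 0 (by simpa using hG.pos.1)
      simpa using h
    · have h := h2 he 0 (by simpa using hG.pos.1)
      simpa using h

section

variable (hT : ∀ (m : ℕ), ∀ p ∈ Par m, (Dcfg m p.1 p.2).Tm)
  (hD : Pool.Agent.FBM.Stmt_D_bd) (hEr : Pool.Agent.FBM.Stmt_E_reg)
  (hEc : Pool.Agent.FBM.Stmt_E_cor) (hEDG : Stmt_EDG) (hF0 : Stmt_F0)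

include hT hD hEr hEc hEDG hF0

theorem t_F_pos : Pool.Agent.FBM.Stmt_F_pos := by
  intro m p hp X lam T hC hv z hzn
  have hin := fin_of_top hD hEr hEc _ X lam T (hT m p hp) hC
  have hG := hEDG m p.1 p.2 hp
  have hP := hF0 _ X lam T hG hin hv
  have hzb : z ∈ ball (0 : ℂ) 1 := by simpa using hzn
  have hpt : ∀ i, pt X z i = (hz (X i) z).re := by
    intro i
    unfold pt
    rw [hin.eq i z hzb]
  refine ⟨fun i => ?_, ?_⟩
  · rw [← hpt i]
    exact hP.pos z hzb i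
  · have h := hP.lt_one z hzb
    simpa only [hpt] using h

theorem t_F_reg (hF1A : Stmt_F1A) : Pool.Agent.FBM.Stmt_F_reg := by
  intro m p hp X lam T hC hv θ e hR hL ρ G hloc
  have hin := fin_of_top hD hEr hEc _ X lam T (hT m p hp) hC
  have hG := hEDG m p.1 p.2 hp
  have hP := hF0 _ X lam T hG hin hv
  exact hF1A _ X hG hP θ e ρ G hR hL hloc

theorem t_F_cor (hF1B : Stmt_F1B) : Pool.Agent.FBM.Stmt_F_cor := by
  intro m p hp X lam T hC hv θ eR eL hR hL hne ρ G hloc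
  have hin := fin_of_top hD hEr hEc _ X lam T (hT m p hp) hC
  have hG := hEDG m p.1 p.2 hp
  have hP := hF0 _ X lam T hG hin hv
  exact hF1B _ X hG hP θ eR eL ρ G hR hL hne hloc

omit hF0 in
theorem t_F_int (hF2 : Stmt_F2) : Pool.Agent.FBM.Stmt_F_int := by
  intro m p hp X lam T hC hv z hz
  have hin := fin_of_top hD hEr hEc _ X lam T (hT m p hp) hC
  have hG := hEDG m p.1 p.2 hp
  exact hF2 _ X lam T hG hin hv z (by simpa using hz)

end

end F
end FBM
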