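import Pool.Agent.FBM.F.Stmts

/-
Local sectors of the real part of a holomorphic function at a zero of order at least two.
-/

namespace FBM
namespace F

open Metric Set Complex

namespace LOC

lemma exp_pow (k : ℕ) (hk : k ≠ 0) (α : ℝ) (j : ℕ) :
    exp ((α + j * (Real.pi / k) : ℝ) * I) ^ k = exp (k * (α * I)) * (-1 : ℂ) ^ j := by
  have hk' : (k : ℂ) ≠ 0 := Nat.cast_ne_zero.mpr hk
  rw [← Complex.exp_nat_mul, ← Complex.exp_pi_mul_I, ← Complex.exp_nat_mul,
    ← Complex.exp_add]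
  congr 1
  push_cast
  field_simp

lemma ray {U h : ℂ → ℂ} {z0 : ℂ} {k : ℕ} (hk : k ≠ 0) (α : ℝ) (j : ℕ) {t : ℝ}
    (hU : U (z0 + t * exp ((α + j * (Real.pi / k) : ℝ) * I)) =
      (z0 + t * exp ((α + j * (Real.pi / k) : ℝ) * I) - z0) ^ k •
        h (z0 + t * exp ((α + j * (Real.pi / k) : ℝ) * I))) :
    (U (z0 + t * exp ((α + j * (Real.pi / k) : ℝ) * I))).re = t ^ k * ((-1) ^ j *
      (exp (k * (α * I)) * h (z0 + t * exp ((α + j * (Real.pi / k) : ℝ) * I))).re) := by
  obtain ⟨w, hw⟩ : ∃ w, w = h (z0 + t * exp ((α + j * (Real.pi / k) : ℝ) * I)) := ⟨_, rfl⟩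
  rw [hU, ← hw, add_sub_cancel_left, mul_pow, exp_pow k hk α j, smul_eq_mul]
  have e : (t : ℂ) ^ k * (exp (k * (α * I)) * (-1) ^ j) * w =
      ((t ^ k * (-1) ^ j : ℝ) : ℂ) * (exp (k * (α * I)) * w) := by
    push_cast
    ring
  rw [e, Complex.re_ofReal_mul]
  ring

end LOC

theorem LOC_thm : Stmt_LOC := by
  intro U z0 s hs hz hd h0 h1 hne
  have hA : AnalyticAt ℂ U z0 := hd.analyticAt (hs.mem_nhds hz)
  obtain ⟨k, h, hh, hh0, heq⟩ := (AnalyticAt.exists_eventuallyEq_pow_smul_nonzero_iff hA).2 hne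
  have hk0 : k ≠ 0 := by
    rintro rfl
    have := heq.self_of_nhds
    rw [h0] at this
    simp at this
    exact hh0 this.symm
  have hk1 : k ≠ 1 := by
    rintro rfl
    have e1 : deriv U z0 = deriv (fun z => (z - z0) ^ 1 • h z) z0 :=
      Filter.EventuallyEq.deriv_eq heq
    have e2 : HasDerivAt (fun z : ℂ => (z - z0) ^ 1 • h z) (1 * h z0 + (z0 - z0) * deriv h z0)
        z0 := by
      have := ((hasDerivAt_id z0).sub_const z0).mul hh.differentiableAt.hasDerivAt
      refine this.congr_of_eventuallyEq ?_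
      filter_upwards with z
      simp
    rw [e1, e2.deriv] at h1
    simp at h1
    exact hh0 h1
  have hk2 : 2 ≤ k := by omega
  obtain ⟨α, hα⟩ : ∃ α : ℝ, α = - arg (h z0) / k := ⟨_, rfl⟩
  have hkR : (k : ℝ) ≠ 0 := Nat.cast_ne_zero.mpr hk0
  have hpos : 0 < (exp (k * (α * I)) * h z0).re := by
    have e : exp (k * (α * I)) * h z0 = ((‖h z0‖ : ℝ) : ℂ) := by
      have e1 : (k : ℂ) * (α * I) = - (arg (h z0) * I) := by
        rw [hα]
        have : (k : ℂ) ≠ 0 := Nat.cast_ne_zero.mpr hk0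
        push_cast
        field_simp
      rw [e1]
      calc exp (-(arg (h z0) * I)) * h z0
          = exp (-(arg (h z0) * I)) * ((‖h z0‖ : ℂ) * exp (arg (h z0) * I)) := by
            rw [Complex.norm_mul_exp_arg_mul_I (h z0)]
        _ = (‖h z0‖ : ℂ) * (exp (-(arg (h z0) * I)) * exp (arg (h z0) * I)) := by ring
        _ = (‖h z0‖ : ℂ) := by
            rw [← Complex.exp_add, neg_add_cancel, Complex.exp_zero, mul_one]
    rw [e, Complex.ofReal_re]
    exact norm_pos_iff.mpr hh0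
  have hcont : ContinuousAt (fun z => (exp (k * (α * I)) * h z).re) z0 :=
    Complex.continuous_re.continuousAt.comp (continuousAt_const.mul hh.continuousAt)
  have hev1 : ∀ᶠ z in nhds z0, 0 < (exp (k * (α * I)) * h z).re :=
    hcont.eventually (lt_mem_nhds hpos)
  have hev := (heq.and hev1).and (hs.mem_nhds hz)
  obtain ⟨ε, hε, hball⟩ := Metric.eventually_nhds_iff_ball.mp hev
  have key : ∀ (j : ℕ) (t : ℝ), 0 < t → t ≤ ε / 2 →
      (U (z0 + t * exp ((α + j * (Real.pi / k) : ℝ) * I))).re = t ^ k * ((-1) ^ j *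
        (exp (k * (α * I)) * h (z0 + t * exp ((α + j * (Real.pi / k) : ℝ) * I))).re) ∧
      0 < (exp (k * (α * I)) * h (z0 + t * exp ((α + j * (Real.pi / k) : ℝ) * I))).re := by
    intro j t ht hte
    have hm : z0 + t * exp ((α + j * (Real.pi / k) : ℝ) * I) ∈ ball z0 ε := by
      rw [mem_ball, dist_eq_norm, add_sub_cancel_left, norm_mul,
        Complex.norm_exp_ofReal_mul_I, mul_one, Complex.norm_real, Real.norm_eq_abs,
        abs_of_pos ht]
      linarith
    obtain ⟨⟨e1, e2⟩, _⟩ := hball _ hm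
    exact ⟨LOC.ray hk0 α j e1, e2⟩
  refine ⟨k, α, ε / 2, hk2, by linarith, ?_, ?_, ?_, ?_, ?_⟩
  · intro z hz'
    have : z ∈ ball z0 ε := by
      rw [mem_ball]
      rw [mem_closedBall] at hz'
      linarith
    exact (hball z this).2
  · intro t ht hte
    obtain ⟨e1, e2⟩ := key 0 t ht hte
    have e : (α + (0 : ℕ) * (Real.pi / k) : ℝ) = α := by simp
    rw [e] at e1 e2
    rw [e1]
    have := pow_pos ht k
    simp only [pow_zero, one_mul]
    positivity
  · intro t ht hte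
    obtain ⟨e1, e2⟩ := key 1 t ht hte
    have e : (α + (1 : ℕ) * (Real.pi / k) : ℝ) = α + Real.pi / k := by simp
    rw [e] at e1 e2
    rw [e1]
    have := mul_pos (pow_pos ht k) e2
    simp only [pow_one]
    linarith
  · intro t ht hte
    obtain ⟨e1, e2⟩ := key 2 t ht hte
    have e : (α + (2 : ℕ) * (Real.pi / k) : ℝ) = α + 2 * (Real.pi / k) := by simp
    rw [e] at e1 e2
    rw [e1]
    have := mul_pos (pow_pos ht k) e2
    have e3 : ((-1 : ℝ) ^ 2) = 1 := by norm_num
    rw [e3, one_mul]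
    exact this
  · intro t ht hte
    obtain ⟨e1, e2⟩ := key 3 t ht hte
    have e : (α + (3 : ℕ) * (Real.pi / k) : ℝ) = α + 3 * (Real.pi / k) := by simp
    rw [e] at e1 e2
    rw [e1]
    have := mul_pos (pow_pos ht k) e2
    have e3 : ((-1 : ℝ) ^ 3) = -1 := by norm_num
    rw [e3]
    linarith

end F
end FBM
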