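import Pool.Agent.FBM.F.Stmts3

/-!
FBM, block F: the properties of the Cayley coordinate `psi`.
-/

namespace FBM
namespace F

open Metric Set Complex MeasureTheory Filter Topology
open Pool.Agent.FBM

namespace PSI

lemma nsq (w : ℂ) : normSq (1 - I * w) - normSq (1 + I * w) = 4 * w.im := by
  simp only [normSq_apply, sub_re, sub_im, add_re, add_im, one_re, one_im, mul_re, mul_im, I_re,
    I_im]
  ring

lemma norm_lt {w : ℂ} (hw : 0 < w.im) : ‖1 + I * w‖ < ‖1 - I * w‖ := by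
  have h := nsq w
  rw [normSq_eq_norm_sq, normSq_eq_norm_sq] at h
  exact lt_of_pow_lt_pow_left₀ 2 (norm_nonneg _) (by linarith)

lemma norm_eq (x : ℝ) : ‖1 + I * (x : ℂ)‖ = ‖1 - I * (x : ℂ)‖ := by
  have h := nsq x
  rw [normSq_eq_norm_sq, normSq_eq_norm_sq, ofReal_im, mul_zero, sub_eq_zero] at h
  exact ((sq_eq_sq₀ (norm_nonneg _) (norm_nonneg _)).1 h).symm

lemma ne_real (x : ℝ) : (1 : ℂ) - I * (x : ℂ) ≠ 0 := by
  intro h
  have := congrArg Complex.re h
  simp at this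

lemma ne_ball {w : ℂ} (hw : ‖w‖ < 1) : (1 : ℂ) - I * w ≠ 0 := by
  intro h
  have h1 : (1 : ℂ) = I * w := sub_eq_zero.1 h
  have h2 : ‖(1 : ℂ)‖ = ‖I * w‖ := by rw [← h1]
  rw [norm_mul, norm_I, one_mul, norm_one] at h2
  linarith

lemma onto (θ ρ : ℝ) (hρ : 0 < ρ) : ∃ r > 0, ∀ z ∈ ball (0 : ℂ) 1, ‖z - exp (θ * I)‖ < r →
    ∃ w : ℂ, ‖w‖ < ρ ∧ 0 < w.im ∧ psi θ w = z := by
  refine ⟨min 1 ρ, lt_min one_pos hρ, fun z hz hr => ?_⟩
  rw [mem_ball_zero_iff] at hz
  have hE : ‖exp (θ * I)‖ = 1 := norm_exp_ofReal_mul_I θ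
  have hE0 : exp (θ * I) ≠ 0 := exp_ne_zero _
  obtain ⟨u, hu⟩ : ∃ u : ℂ, z = exp (θ * I) * u := ⟨z / exp (θ * I), by field_simp⟩
  have hu1 : ‖u‖ < 1 := by
    rw [hu, norm_mul, hE, one_mul] at hz
    exact hz
  have hu2 : ‖u - 1‖ < min 1 ρ := by
    have : z - exp (θ * I) = exp (θ * I) * (u - 1) := by rw [hu]; ring
    rw [this, norm_mul, hE, one_mul] at hr
    exact hr
  have h3 : 1 ≤ ‖u + 1‖ := by
    have h4 : ‖(2 : ℂ)‖ ≤ ‖u + 1‖ + ‖u - 1‖ := by
      have : (2 : ℂ) = (u + 1) - (u - 1) := by ring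
      rw [this]
      exact norm_sub_le _ _
    have h5 : ‖(2 : ℂ)‖ = 2 := by simp
    have h6 := hu2.trans_le (min_le_left _ _)
    linarith
  have h30 : u + 1 ≠ 0 := by
    intro h
    rw [h, norm_zero] at h3
    linarith
  refine ⟨-I * ((u - 1) / (u + 1)), ?_, ?_, ?_⟩
  · rw [norm_mul, norm_neg, norm_I, one_mul, norm_div]
    calc ‖u - 1‖ / ‖u + 1‖ ≤ ‖u - 1‖ / 1 :=
          div_le_div_of_nonneg_left (norm_nonneg _) one_pos h3
      _ = ‖u - 1‖ := div_one _
      _ < min 1 ρ := hu2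
      _ ≤ ρ := min_le_right _ _
  · have h7 : 0 < normSq (u + 1) := normSq_pos.2 h30
    have h8 : normSq u < 1 := by
      rw [normSq_eq_norm_sq]
      nlinarith [norm_nonneg u]
    have h9 : (-I * ((u - 1) / (u + 1))).im = (1 - normSq u) / normSq (u + 1) := by
      have : (-I * ((u - 1) / (u + 1))).im = -((u - 1) / (u + 1)).re := by
        simp [mul_im]
      rw [this, div_re, eq_div_iff h7.ne']
      have e1 : ((u - 1).re * (u + 1).re / normSq (u + 1) +
        (u - 1).im * (u + 1).im / normSq (u + 1)) * normSq (u + 1) =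
          (u - 1).re * (u + 1).re + (u - 1).im * (u + 1).im := by
        field_simp
      rw [neg_mul, e1, normSq_apply]
      simp only [sub_re, add_re, sub_im, add_im, one_re, one_im]
      ring
    rw [h9]
    exact div_pos (by linarith) h7
  · unfold psi
    have h10 : I * (-I * ((u - 1) / (u + 1))) = (u - 1) / (u + 1) := by
      rw [← mul_assoc]
      simp
    rw [h10, hu]
    congr 1
    have h11 : 1 + (u - 1) / (u + 1) = 2 * u / (u + 1) := by
      field_simp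
      ring
    have h12 : 1 - (u - 1) / (u + 1) = 2 / (u + 1) := by
      field_simp
      ring
    rw [h11, h12]
    field_simp

lemma onto2 (θ ρ : ℝ) (hρ : 0 < ρ) : ∃ r > 0, ∀ z ∈ ball (0 : ℂ) 1, ‖z - exp (θ * I)‖ < r →
    ∃ w : ℂ, ‖w‖ < ρ ∧ 0 < w.re ∧ 0 < w.im ∧ psi θ (w ^ 2) = z := by
  obtain ⟨r, hr, h⟩ := onto θ (ρ ^ 2) (pow_pos hρ 2)
  refine ⟨r, hr, fun z hz hzr => ?_⟩
  obtain ⟨w, hw1, hw2, hw3⟩ := h z hz hzr
  obtain ⟨s, hs⟩ := IsAlgClosed.exists_pow_nat_eq w (n := 2) two_pos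
  have hn : ‖s‖ < ρ := by
    rw [← hs, norm_pow] at hw1
    exact lt_of_pow_lt_pow_left₀ 2 hρ.le hw1
  have him : 0 < s.re * s.im := by
    have : w.im = 2 * (s.re * s.im) := by
      rw [← hs, sq, mul_im]
      ring
    linarith
  rcases pos_and_pos_or_neg_and_neg_of_mul_pos him with h1 | h1
  · exact ⟨s, hn, h1.1, h1.2, by rw [hs]; exact hw3⟩
  · refine ⟨-s, by rw [norm_neg]; exact hn, ?_, ?_, ?_⟩
    · rw [neg_re]
      linarith [h1.1]
    · rw [neg_im]
      linarith [h1.2]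
    · rw [neg_sq, hs]
      exact hw3

end PSI

theorem PSI_thm : Stmt_PSI where
  maps θ w hw1 hw2 := by
    rw [mem_ball_zero_iff]
    unfold psi
    rw [norm_mul, norm_exp_ofReal_mul_I, one_mul, norm_div, div_lt_one
      (norm_pos_iff.2 (PSI.ne_ball hw1))]
    exact PSI.norm_lt hw2
  circ θ x := by
    unfold psi
    rw [norm_mul, norm_exp_ofReal_mul_I, one_mul, norm_div, PSI.norm_eq,
      div_self (norm_ne_zero_iff.2 (PSI.ne_real x))]
  zero θ := by
    unfold psi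
    simp
  cont θ := by
    unfold psi
    refine continuousOn_const.mul (ContinuousOn.div ?_ ?_ ?_)
    · fun_prop
    · fun_prop
    · intro w hw
      exact PSI.ne_ball (mem_ball_zero_iff.1 hw)
  onto := PSI.onto
  onto2 := PSI.onto2

end F
end FBM
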