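/-
FBM, block F: the abstract Rado theorem from TOP, LOC and COMP (module FR_RADO).
-/
import Pool.Agent.FBM.F.Stmts

namespace FBM
namespace F

open Metric Set Complex

namespace RADO

/-- Two continuous functions on the closed disc which are proportional in the open disc are
proportional on the circle. -/
theorem ext_sphere {x y : ℂ → ℝ} (hx : ContinuousOn x (closedBall 0 1))
    (hy : ContinuousOn y (closedBall 0 1)) {c : ℝ}
    (h : ∀ z ∈ ball (0 : ℂ) 1, y z = c * x z) :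
    ∀ z ∈ closedBall (0 : ℂ) 1, y z = c * x z := by
  have hcl : closure (ball (0 : ℂ) 1) = closedBall 0 1 := closure_ball 0 one_ne_zero
  have h1 : EqOn y (fun z => c * x z) (ball (0 : ℂ) 1) := fun z hz => h z hz
  have h2 : EqOn y (fun z => c * x z) (closedBall (0 : ℂ) 1) := by
    refine h1.of_subset_closure hy (continuousOn_const.mul hx) ball_subset_closedBall ?_
    rw [hcl]
  exact fun z hz => h2 hz

/-- The real part of `U`. -/
theorem re_U {x y : ℂ → ℝ} {f g : ℂ → ℂ} {z0 : ℂ} {c : ℝ}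
    (hxf : ∀ z ∈ ball (0 : ℂ) 1, x z = (f z).re)
    (hyg : ∀ z ∈ ball (0 : ℂ) 1, y z = (g z).re) (hz0 : z0 ∈ ball (0 : ℂ) 1)
    (hc : y z0 = c * x z0) {z : ℂ} (hz : z ∈ ball (0 : ℂ) 1) :
    (g z - (c : ℂ) * f z - (g z0 - (c : ℂ) * f z0)).re = y z - c * x z := by
  simp only [sub_re, re_ofReal_mul]
  rw [← hxf z hz, ← hyg z hz, ← hxf z0 hz0, ← hyg z0 hz0, hc]
  ring

end RADO

open RADO in
theorem RADO_thm (hTOP : Stmt_TOP) (hLOC : Stmt_LOC) (hCOMP : Stmt_COMP) : Stmt_RADO := by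
  intro x y I1 I2 hx hy hq1 hq2 hI1 hI2 hdisj hpc1 hpc2 hin1 hin2 hHopf hCorner f g hf hg
    hxf hyg z0 hz0 hcrit
  obtain ⟨hf0, hg0⟩ := hcrit
  have hx0 : 0 < x z0 := hx.pos z0 hz0
  have hy0 : 0 < y z0 := hy.pos z0 hz0
  obtain ⟨c, hcdef⟩ : ∃ c : ℝ, c = y z0 / x z0 := ⟨_, rfl⟩
  have hcpos : 0 < c := by rw [hcdef]; exact div_pos hy0 hx0
  have hc : y z0 = c * x z0 := by rw [hcdef]; field_simp
  obtain ⟨U, hU⟩ : ∃ U : ℂ → ℂ, U = fun z => g z - (c : ℂ) * f z - (g z0 - (c : ℂ) * f z0) :=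
    ⟨_, rfl⟩
  have hUre : ∀ z ∈ ball (0 : ℂ) 1, (U z).re = y z - c * x z := by
    intro z hz
    rw [hU]
    exact re_U hxf hyg hz0 hc hz
  have hUd : DifferentiableOn ℂ U (ball 0 1) := by
    rw [hU]
    exact (hg.sub (hf.const_mul _)).sub (differentiableOn_const _)
  have hU0 : U z0 = 0 := by rw [hU]; simp
  have hfd : HasDerivAt f (deriv f z0) z0 :=
    ((hf z0 hz0).differentiableAt (isOpen_ball.mem_nhds hz0)).hasDerivAt
  have hgd : HasDerivAt g (deriv g z0) z0 :=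
    ((hg z0 hz0).differentiableAt (isOpen_ball.mem_nhds hz0)).hasDerivAt
  have hU1 : deriv U z0 = 0 := by
    have h1 : HasDerivAt U (deriv g z0 - (c : ℂ) * deriv f z0) z0 := by
      rw [hU]
      exact (hgd.sub (hfd.const_mul _)).sub_const _
    rw [h1.deriv, hf0, hg0]
    simp
  have hUne : ¬ ∀ᶠ z in nhds z0, U z = 0 := by
    intro hev
    have hA : AnalyticOnNhd ℂ U (ball 0 1) := hUd.analyticOnNhd isOpen_ball
    have hpre : IsPreconnected (ball (0 : ℂ) 1) := (convex_ball 0 1).isPreconnected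
    have hz := hA.eqOn_zero_of_preconnected_of_eventuallyEq_zero hpre hz0 hev
    have h1 : ∀ z ∈ ball (0 : ℂ) 1, y z = c * x z := by
      intro z hzb
      have h2 := hUre z hzb
      rw [hz hzb] at h2
      simp at h2
      linarith
    obtain ⟨q, hq, hxq, hyq⟩ := hq1
    have h3 := ext_sphere hx.cont hy.cont h1 q (sphere_subset_closedBall hq)
    rw [hxq, mul_zero] at h3
    linarith
  obtain ⟨k, α, δ, hk, hδ, hcb, r1, r2, r3, r4⟩ :=
    hLOC U z0 (ball 0 1) isOpen_ball hz0 hUd hU0 hU1 hUne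
  have hk' : (2 : ℝ) ≤ (k : ℝ) := by exact_mod_cast hk
  have hβ : 0 < Real.pi / (k : ℝ) := div_pos Real.pi_pos (by linarith)
  have hβ3 : 3 * (Real.pi / (k : ℝ)) < 2 * Real.pi := by
    have h1 : Real.pi / (k : ℝ) ≤ Real.pi / 2 :=
      div_le_div_of_nonneg_left Real.pi_pos.le (by norm_num) hk'
    have h2 := Real.pi_pos
    linarith
  -- points of the rays are in the disc
  have hray : ∀ (θ t : ℝ), 0 < t → t ≤ δ → z0 + t * exp (θ * I) ∈ ball (0 : ℂ) 1 := by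
    intro θ t ht0 ht
    apply hcb
    rw [mem_closedBall, dist_eq_norm, add_sub_cancel_left, norm_mul, norm_exp_ofReal_mul_I,
      mul_one, Complex.norm_real, Real.norm_eq_abs, abs_of_pos ht0]
    exact ht
  -- the sets
  obtain ⟨S, hS⟩ : ∃ S : Set ℂ, S = {w | w ∈ ball (0 : ℂ) 1 ∧ c * x w < y w} ∪ I1 := ⟨_, rfl⟩
  obtain ⟨T, hT⟩ : ∃ T : Set ℂ, T = {w | w ∈ ball (0 : ℂ) 1 ∧ c⁻¹ * y w < x w} ∪ I2 :=
    ⟨_, rfl⟩
  have hnb : ∀ w : ℂ, w ∈ ball (0 : ℂ) 1 → w ∈ sphere (0 : ℂ) 1 → False := by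
    intro w h1 h2
    rw [mem_ball] at h1
    rw [mem_sphere] at h2
    linarith
  have hinv : ∀ a b : ℝ, b < c * a ↔ c⁻¹ * b < a := by
    intro a b
    rw [inv_mul_lt_iff₀ hcpos]
  have hST : Disjoint S T := by
    rw [Set.disjoint_left]
    intro w hwS hwT
    rw [hS] at hwS
    rw [hT] at hwT
    rcases hwS with ⟨hb, h1⟩ | h1
    · rcases hwT with ⟨_, h2⟩ | h2
      · rw [← hinv] at h2
        linarith
      · exact hnb w hb (hI2 h2)
    · rcases hwT with ⟨hb, _⟩ | h2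
      · exact hnb w hb (hI1 h1)
      · exact Set.disjoint_left.mp hdisj h1 h2
  have hz0S : z0 ∉ S := by
    rw [hS]
    rintro (⟨_, h1⟩ | h1)
    · linarith
    · exact hnb z0 hz0 (hI1 h1)
  have hz0T : z0 ∉ T := by
    rw [hT]
    rintro (⟨_, h1⟩ | h1)
    · rw [← hinv] at h1
      linarith
    · exact hnb z0 hz0 (hI2 h1)
  have hPS : ∀ w ∈ ball (0 : ℂ) 1, 0 < (U w).re → c * x w < y w := by
    intro w hw h1
    rw [hUre w hw] at h1
    linarith
  have hPT : ∀ w ∈ ball (0 : ℂ) 1, (U w).re < 0 → c⁻¹ * y w < x w := by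
    intro w hw h1
    rw [hUre w hw] at h1
    rw [← hinv]
    linarith
  -- joining to the circle
  have hC1 := hCOMP x y hx hy hq1 (fun p hp h1 h2 => (hHopf p hp h1 h2).1)
    (fun p hp h1 h2 => (hCorner p hp h1 h2).1) c hcpos
  have hC2 := hCOMP y x hy hx hq2 (fun p hp h1 h2 => (hHopf p hp h2 h1).2)
    (fun p hp h1 h2 => (hCorner p hp h2 h1).2) c⁻¹ (inv_pos.mpr hcpos)
  have hJS : ∀ a ∈ ball (0 : ℂ) 1, c * x a < y a → ∃ q ∈ I1, JoinedIn S a q := by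
    intro a ha h1
    obtain ⟨q, hq, hxq, hyq, hj⟩ := hC1 a ha h1
    have hqI : q ∈ I1 := hin1 q hq hxq hyq
    refine ⟨q, hqI, hj.mono ?_⟩
    rw [hS]
    apply union_subset_union_right
    exact singleton_subset_iff.mpr hqI
  have hJT : ∀ a ∈ ball (0 : ℂ) 1, c⁻¹ * y a < x a → ∃ q ∈ I2, JoinedIn T a q := by
    intro a ha h1
    obtain ⟨q, hq, hxq, hyq, hj⟩ := hC2 a ha h1
    have hqI : q ∈ I2 := hin2 q hq hxq hyq
    refine ⟨q, hqI, hj.mono ?_⟩
    rw [hT]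
    apply union_subset_union_right
    exact singleton_subset_iff.mpr hqI
  have hJSS : ∀ a ∈ ball (0 : ℂ) 1, c * x a < y a → ∀ b ∈ ball (0 : ℂ) 1, c * x b < y b →
      JoinedIn S a b := by
    intro a ha h1 b hb h2
    obtain ⟨q, hq, hj⟩ := hJS a ha h1
    obtain ⟨q', hq', hj'⟩ := hJS b hb h2
    have h3 : JoinedIn S q q' := by
      refine (hpc1.joinedIn q hq q' hq').mono ?_
      rw [hS]
      exact subset_union_right
    exact (hj.trans h3).trans hj'.symm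
  have hJTT : ∀ a ∈ ball (0 : ℂ) 1, c⁻¹ * y a < x a → ∀ b ∈ ball (0 : ℂ) 1,
      c⁻¹ * y b < x b → JoinedIn T a b := by
    intro a ha h1 b hb h2
    obtain ⟨q, hq, hj⟩ := hJT a ha h1
    obtain ⟨q', hq', hj'⟩ := hJT b hb h2
    have h3 : JoinedIn T q q' := by
      refine (hpc2.joinedIn q hq q' hq').mono ?_
      rw [hT]
      exact subset_union_right
    exact (hj.trans h3).trans hj'.symm
  refine hTOP z0 δ α (Real.pi / (k : ℝ)) S T hδ hβ hβ3 hST hz0S hz0T ?_ ?_ ?_ ?_ ?_ ?_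
  · intro t ht0 ht
    rw [hS]
    left
    exact ⟨hray α t ht0 ht, hPS _ (hray α t ht0 ht) (r1 t ht0 ht)⟩
  · intro t ht0 ht
    rw [hT]
    left
    exact ⟨hray _ t ht0 ht, hPT _ (hray _ t ht0 ht) (r2 t ht0 ht)⟩
  · intro t ht0 ht
    rw [hS]
    left
    exact ⟨hray _ t ht0 ht, hPS _ (hray _ t ht0 ht) (r3 t ht0 ht)⟩
  · intro t ht0 ht
    rw [hT]
    left
    exact ⟨hray _ t ht0 ht, hPT _ (hray _ t ht0 ht) (r4 t ht0 ht)⟩
  · exact hJSS _ (hray _ δ hδ le_rfl) (hPS _ (hray _ δ hδ le_rfl) (r1 δ hδ le_rfl))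
      _ (hray _ δ hδ le_rfl) (hPS _ (hray _ δ hδ le_rfl) (r3 δ hδ le_rfl))
  · exact hJTT _ (hray _ δ hδ le_rfl) (hPT _ (hray _ δ hδ le_rfl) (r2 δ hδ le_rfl))
      _ (hray _ δ hδ le_rfl) (hPT _ (hray _ δ hδ le_rfl) (r4 δ hδ le_rfl))

end F
end FBM
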