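/-
FBM, block F: two curves crossing at one point meet again (helper5).
-/
import Pool.Agent.FBM.F.Stmts

namespace FBM
namespace F

open Metric Set Complex Filter Topology

namespace TOP5

/-- Continuous logarithms of `(z - b) / (z - a)` on a compact set disjoint from a path. -/
theorem exists_log {K : Set ℂ} (hK : IsCompact K) (hne : K.Nonempty) {a b : ℂ} (γ : Path a b)
    (hγ : ∀ t, γ t ∉ K) :
    ∃ L : ℂ → ℂ, ContinuousOn L K ∧ ∀ z ∈ K, exp (L z) = (z - b) / (z - a) := by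
  let P : ℂ → Prop := fun p => ∃ L : ℂ → ℂ, ContinuousOn L K ∧ ∀ z ∈ K, exp (L z) = (z - p) / (z - a)
  have hstep : ∀ p q : ℂ, p ∉ K → q ∉ K → dist p q < infDist p K → P p → P q := by
    rintro p q hp hq hd ⟨L, hL, hLe⟩
    have hz : ∀ z ∈ K, z - p ≠ 0 := fun z hz h => hp (by rw [← sub_eq_zero.mp h]; exact hz)
    have hsl : ∀ z ∈ K, (z - q) / (z - p) ∈ slitPlane := by
      intro z hzK
      have h1 : (z - q) / (z - p) = 1 + (p - q) / (z - p) := by
        field_simp [hz z hzK]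
        ring
      rw [h1]
      apply mem_slitPlane_of_norm_lt_one
      rw [norm_div, div_lt_one (norm_pos_iff.mpr (hz z hzK))]
      rw [← dist_eq_norm]
      calc dist p q < infDist p K := hd
        _ ≤ dist p z := infDist_le_dist_of_mem hzK
        _ = ‖z - p‖ := by rw [dist_comm, dist_eq_norm]
    refine ⟨fun z => L z + log ((z - q) / (z - p)), ?_, ?_⟩
    · refine hL.add (ContinuousOn.clog ?_ hsl)
      exact (continuousOn_id.sub continuousOn_const).div
        (continuousOn_id.sub continuousOn_const) hz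
    · intro z hzK
      rw [exp_add, hLe z hzK, exp_log (slitPlane_ne_zero (hsl z hzK))]
      by_cases ha : z - a = 0
      · simp [ha]
      · field_simp [hz z hzK, ha]
  have hsym : ∀ p q : ℂ, p ∉ K → q ∉ K → dist p q < infDist p K → P q → P p := by
    rintro p q hp hq hd ⟨L, hL, hLe⟩
    have hz : ∀ z ∈ K, z - p ≠ 0 := fun z hz h => hp (by rw [← sub_eq_zero.mp h]; exact hz)
    have hzq : ∀ z ∈ K, z - q ≠ 0 := fun z hz h => hq (by rw [← sub_eq_zero.mp h]; exact hz)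
    have hsl : ∀ z ∈ K, (z - q) / (z - p) ∈ slitPlane := by
      intro z hzK
      have h1 : (z - q) / (z - p) = 1 + (p - q) / (z - p) := by
        field_simp [hz z hzK]
        ring
      rw [h1]
      apply mem_slitPlane_of_norm_lt_one
      rw [norm_div, div_lt_one (norm_pos_iff.mpr (hz z hzK))]
      rw [← dist_eq_norm]
      calc dist p q < infDist p K := hd
        _ ≤ dist p z := infDist_le_dist_of_mem hzK
        _ = ‖z - p‖ := by rw [dist_comm, dist_eq_norm]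
    refine ⟨fun z => L z - log ((z - q) / (z - p)), ?_, ?_⟩
    · refine hL.sub (ContinuousOn.clog ?_ hsl)
      exact (continuousOn_id.sub continuousOn_const).div
        (continuousOn_id.sub continuousOn_const) hz
    · intro z hzK
      rw [exp_sub, hLe z hzK, exp_log (slitPlane_ne_zero (hsl z hzK))]
      by_cases ha : z - a = 0
      · simp [ha]
      · field_simp [hz z hzK, ha, hzq z hzK]
  let A : Set unitInterval := {t | P (γ t)}
  have hloc : ∀ t : unitInterval, ∀ᶠ s in 𝓝 t, (P (γ t) ↔ P (γ s)) := by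
    intro t
    have hpos : 0 < infDist (γ t) K :=
      (hK.isClosed.notMem_iff_infDist_pos hne).mp (hγ t)
    have hc : Tendsto (fun s => dist (γ t) (γ s)) (𝓝 t) (𝓝 0) := by
      have : Continuous fun s => dist (γ t) (γ s) := continuous_const.dist γ.continuous
      simpa using this.tendsto t
    filter_upwards [hc.eventually (gt_mem_nhds hpos)] with s hs
    exact ⟨hstep _ _ (hγ t) (hγ s) hs, hsym _ _ (hγ t) (hγ s) hs⟩
  have hopen : IsOpen A := by
    rw [isOpen_iff_mem_nhds]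
    intro t ht
    filter_upwards [hloc t] with s hs
    exact hs.mp ht
  have hclosed : IsClosed A := by
    rw [← isOpen_compl_iff, isOpen_iff_mem_nhds]
    intro t ht
    filter_upwards [hloc t] with s hs
    exact fun h => ht (hs.mpr h)
  have hAne : A.Nonempty := by
    refine ⟨0, ?_⟩
    change P (γ 0)
    rw [γ.source]
    refine ⟨fun _ => 0, continuousOn_const, fun z hz => ?_⟩
    have hza : z - a ≠ 0 := by
      intro h
      refine hγ 0 ?_
      rw [γ.source, ← sub_eq_zero.mp h]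
      exact hz
    rw [exp_zero, div_self hza]
  have hA : A = univ := IsClopen.eq_univ ⟨hclosed, hopen⟩ hAne
  have h1 : (1 : unitInterval) ∈ A := by rw [hA]; trivial
  have h2 : P (γ 1) := h1
  rwa [γ.target] at h2

/-- Two continuous logarithms differ by a constant on a preconnected set. -/
theorem log_unique {N : Set ℂ} (hN : IsPreconnected N) {L M : ℂ → ℂ} (hL : ContinuousOn L N)
    (hM : ContinuousOn M N) (h : ∀ z ∈ N, exp (L z) = exp (M z)) {z w : ℂ} (hz : z ∈ N)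
    (hw : w ∈ N) : (L z).im - (M z).im = (L w).im - (M w).im := by
  let φ : ℂ → ℝ := fun z => (L z).im - (M z).im
  have hφ : ContinuousOn φ N :=
    (continuous_im.comp_continuousOn hL).sub (continuous_im.comp_continuousOn hM)
  have hint : ∀ z ∈ N, ∃ n : ℤ, φ z = n * (2 * Real.pi) := by
    intro z hz
    obtain ⟨n, hn⟩ := exp_eq_exp_iff_exists_int.mp (h z hz)
    refine ⟨n, ?_⟩
    have h1 := congrArg Complex.im hn
    simp at h1
    change (L z).im - (M z).im = _
    rw [h1]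
    ring
  have hord : OrdConnected (φ '' N) := (hN.image φ hφ).ordConnected
  have key : ∀ u ∈ φ '' N, ∀ v ∈ φ '' N, ¬ u < v := by
    rintro u hu v hv huv
    obtain ⟨x, hx, rfl⟩ := hu
    obtain ⟨y, hy, rfl⟩ := hv
    obtain ⟨n, hn⟩ := hint x hx
    obtain ⟨m, hm⟩ := hint y hy
    have hpi := Real.pi_pos
    have hnm : n < m := by
      have : (n : ℝ) * (2 * Real.pi) < m * (2 * Real.pi) := by rw [← hn, ← hm]; exact huv
      have h3 : (n : ℝ) < m := lt_of_mul_lt_mul_right this (by positivity)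
      exact_mod_cast h3
    have hnm' : (n : ℝ) + 1 ≤ m := by exact_mod_cast hnm
    have hmem : φ x + Real.pi ∈ φ '' N := by
      refine hord.out ⟨x, hx, rfl⟩ ⟨y, hy, rfl⟩ ⟨by linarith, ?_⟩
      rw [hn, hm]
      nlinarith
    obtain ⟨q, hq, hqe⟩ := hmem
    obtain ⟨k, hk⟩ := hint q hq
    rw [hk, hn] at hqe
    have h4 : (k : ℝ) * 2 = n * 2 + 1 := by
      have h5 : Real.pi * ((k : ℝ) * 2) = Real.pi * (n * 2 + 1) := by linarith
      exact mul_left_cancel₀ hpi.ne' h5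
    have h6 : k * 2 = n * 2 + 1 := by exact_mod_cast h4
    omega
  exact le_antisymm (not_lt.mp (key _ ⟨w, hw, rfl⟩ _ ⟨z, hz, rfl⟩))
    (not_lt.mp (key _ ⟨z, hz, rfl⟩ _ ⟨w, hw, rfl⟩))

/-- Limit of the argument. -/
theorem lim_arg {δ θ : ℝ} (hδ : 0 < δ) (h1 : -Real.pi < θ) (h2 : θ < Real.pi) (φ : ℝ)
    (hφ : -exp (φ * I) = exp (θ * I)) :
    Tendsto (fun t : ℝ => (1 - ((δ / t : ℝ) : ℂ) * exp (φ * I)).arg) (𝓝[>] 0) (𝓝 θ) := by
  have harg : (exp (θ * I)).arg = θ := by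
    rw [exp_mul_I]
    exact arg_cos_add_sin_mul_I ⟨h1, h2.le⟩
  have hsl : exp (θ * I) ∈ slitPlane := by
    rw [mem_slitPlane_iff_arg]
    refine ⟨?_, exp_ne_zero _⟩
    rw [harg]
    exact h2.ne
  have hc : Tendsto (fun t : ℝ => ((t / δ : ℝ) : ℂ) - exp (φ * I)) (𝓝[>] 0) (𝓝 (exp (θ * I))) := by
    have h3 : Continuous fun t : ℝ => ((t / δ : ℝ) : ℂ) - exp (φ * I) := by fun_prop
    have h4 := (h3.tendsto 0).mono_left (nhdsWithin_le_nhds (s := Ioi 0))
    simpa [hφ] using h4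
  have h5 := (continuousAt_arg hsl).tendsto.comp hc
  rw [harg] at h5
  refine h5.congr' ?_
  filter_upwards [self_mem_nhdsWithin] with t ht
  have ht0 : (0 : ℝ) < t := ht
  have h6 : 1 - ((δ / t : ℝ) : ℂ) * exp (φ * I) =
      ((δ / t : ℝ) : ℂ) * (((t / δ : ℝ) : ℂ) - exp (φ * I)) := by
    have h7 : ((δ / t : ℝ) : ℂ) * ((t / δ : ℝ) : ℂ) = 1 := by
      rw [← ofReal_mul]
      have : δ / t * (t / δ) = 1 := by field_simp
      rw [this, ofReal_one]
    rw [mul_sub, h7]
  change _ = _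
  rw [h6, arg_real_mul _ (div_pos hδ ht0)]
  rfl

end TOP5

open TOP5 in
theorem TOP5_thm : Stmt_TOP := by
  intro z0 δ α β S T hδ hβ hβ3 hST hS0 hT0 hSa hTc hSb hTd hJS hJT
  obtain ⟨γS, hγS⟩ := hJS
  obtain ⟨γT, hγT⟩ := hJT
  have hpi := Real.pi_pos
  -- the rays of `T`
  let r1 : ℝ → ℂ := fun t => z0 + t * exp ((α + β : ℝ) * I)
  let r2 : ℝ → ℂ := fun t => z0 + t * exp ((α + 3 * β : ℝ) * I)
  have hr1 : Continuous r1 := by fun_prop
  have hr2 : Continuous r2 := by fun_prop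
  let N : Set ℂ := r1 '' Ioc 0 δ ∪ range γT ∪ r2 '' Ioc 0 δ
  have hNT : N ⊆ T := by
    rintro z ((⟨t, ht, rfl⟩ | ⟨t, rfl⟩) | ⟨t, ht, rfl⟩)
    · exact hTc t ht.1 ht.2
    · exact hγT t
    · exact hTd t ht.1 ht.2
  have hδm : δ ∈ Ioc 0 δ := ⟨hδ, le_rfl⟩
  have hNpre : IsPreconnected N := by
    have p1 : IsPreconnected (r1 '' Ioc 0 δ) := isPreconnected_Ioc.image _ hr1.continuousOn
    have p2 : IsPreconnected (range γT) := isPreconnected_range γT.continuous
    have p3 : IsPreconnected (r2 '' Ioc 0 δ) := isPreconnected_Ioc.image _ hr2.continuousOn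
    have p12 : IsPreconnected (r1 '' Ioc 0 δ ∪ range γT) := by
      refine IsPreconnected.union (r1 δ) ⟨δ, hδm, rfl⟩ ?_ p1 p2
      exact ⟨0, γT.source⟩
    refine IsPreconnected.union (r2 δ) (Or.inr ?_) ⟨δ, hδm, rfl⟩ p12 p3
    exact ⟨1, γT.target⟩
  let K : Set ℂ := r1 '' Icc 0 δ ∪ range γT ∪ r2 '' Icc 0 δ
  have hKc : IsCompact K :=
    ((isCompact_Icc.image hr1).union (isCompact_range γT.continuous)).union
      (isCompact_Icc.image hr2)
  have hr10 : r1 0 = z0 := by simp [r1]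
  have hr20 : r2 0 = z0 := by simp [r2]
  have hNK : N ⊆ K := by
    rintro z ((⟨t, ht, rfl⟩ | ⟨t, rfl⟩) | ⟨t, ht, rfl⟩)
    · exact Or.inl (Or.inl ⟨t, ⟨ht.1.le, ht.2⟩, rfl⟩)
    · exact Or.inl (Or.inr ⟨t, rfl⟩)
    · exact Or.inr ⟨t, ⟨ht.1.le, ht.2⟩, rfl⟩
  have hz0K : z0 ∈ K := Or.inl (Or.inl ⟨0, ⟨le_rfl, hδ.le⟩, hr10⟩)
  have hKN : ∀ z ∈ K, z = z0 ∨ z ∈ N := by
    rintro z ((⟨t, ht, rfl⟩ | ⟨t, rfl⟩) | ⟨t, ht, rfl⟩)
    · rcases ht.1.eq_or_lt with h | h
      · left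
        rw [← h, hr10]
      · exact Or.inr (Or.inl (Or.inl ⟨t, ⟨h, ht.2⟩, rfl⟩))
    · exact Or.inr (Or.inl (Or.inr ⟨t, rfl⟩))
    · rcases ht.1.eq_or_lt with h | h
      · left
        rw [← h, hr20]
      · exact Or.inr (Or.inr ⟨t, ⟨h, ht.2⟩, rfl⟩)
  have hdisj : ∀ t, γS t ∉ K := by
    intro t ht
    rcases hKN _ ht with h | h
    · exact hS0 (h ▸ hγS t)
    · exact Set.disjoint_left.mp hST (hγS t) (hNT h)
  obtain ⟨L, hLc, hLe⟩ := exists_log hKc ⟨z0, hz0K⟩ γS hdisj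
  have hNz : ∀ z ∈ N, z - z0 ≠ 0 := by
    intro z hz h
    exact hT0 (by rw [← sub_eq_zero.mp h]; exact hNT hz)
  -- the explicit logarithm
  let a' : ℂ := δ * exp (α * I)
  let b' : ℂ := δ * exp ((α + 2 * β : ℝ) * I)
  have hslit : ∀ (θ : ℝ), (∀ t : ℝ, 0 < t → t ≤ δ → z0 + t * exp (θ * I) ∈ S) → ∀ z ∈ N,
      1 - (δ * exp (θ * I)) / (z - z0) ∈ slitPlane := by
    intro θ hθ z hz
    rw [mem_slitPlane_iff]
    by_contra hcon
    push Not at hcon
    obtain ⟨h1, h2⟩ := hcon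
    obtain ⟨r, hr⟩ : ∃ r : ℝ, r = -(1 - (δ * exp (θ * I)) / (z - z0)).re := ⟨_, rfl⟩
    have hr0 : 0 ≤ r := by rw [hr]; linarith
    have h3 : 1 - (δ * exp (θ * I)) / (z - z0) = ((-r : ℝ) : ℂ) := by
      apply Complex.ext
      · rw [ofReal_re, hr, neg_neg]
      · rw [ofReal_im]
        exact h2
    have h4 : (δ * exp (θ * I)) / (z - z0) = ((1 + r : ℝ) : ℂ) := by
      have : (δ * exp (θ * I)) / (z - z0) = 1 - ((-r : ℝ) : ℂ) := by rw [← h3]; ring
      rw [this]
      push_cast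
      ring
    have h1r : (0 : ℝ) < 1 + r := by linarith
    have h1rc : ((1 + r : ℝ) : ℂ) ≠ 0 := ofReal_ne_zero.mpr h1r.ne'
    have h5 : z = z0 + ((δ / (1 + r) : ℝ) : ℂ) * exp (θ * I) := by
      have h6 : δ * exp (θ * I) = ((1 + r : ℝ) : ℂ) * (z - z0) := by
        rw [← h4, div_mul_cancel₀ _ (hNz z hz)]
      have h7 : z - z0 = (δ * exp (θ * I)) / ((1 + r : ℝ) : ℂ) := by
        rw [h6, mul_div_cancel_left₀ _ h1rc]
      rw [ofReal_div]
      have h8 : z = z0 + (z - z0) := by ring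
      rw [h8, h7]
      ring
    have h9 : z ∈ S := by
      rw [h5]
      refine hθ _ (by positivity) ?_
      exact div_le_self hδ.le (by linarith)
    exact Set.disjoint_left.mp hST h9 (hNT hz)
  have hSa' : ∀ z ∈ N, 1 - a' / (z - z0) ∈ slitPlane := hslit α hSa
  have hSb' : ∀ z ∈ N, 1 - b' / (z - z0) ∈ slitPlane := hslit (α + 2 * β) hSb
  let L0 : ℂ → ℂ := fun z => log (1 - b' / (z - z0)) - log (1 - a' / (z - z0))
  have hL0c : ContinuousOn L0 N := by
    have hq : ∀ c : ℂ, ContinuousOn (fun z : ℂ => 1 - c / (z - z0)) N := fun c =>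
      continuousOn_const.sub (continuousOn_const.div (continuousOn_id.sub continuousOn_const) hNz)
    exact ((hq b').clog hSb').sub ((hq a').clog hSa')
  have hL0e : ∀ z ∈ N, exp (L z) = exp (L0 z) := by
    intro z hz
    rw [hLe z (hNK hz)]
    change _ = exp (log (1 - b' / (z - z0)) - log (1 - a' / (z - z0)))
    rw [exp_sub, exp_log (slitPlane_ne_zero (hSb' z hz)), exp_log (slitPlane_ne_zero (hSa' z hz))]
    have h1 := hNz z hz
    have h2 : 1 - a' / (z - z0) = (z - (z0 + a')) / (z - z0) := by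
      field_simp
      ring
    have h3 : 1 - b' / (z - z0) = (z - (z0 + b')) / (z - z0) := by
      field_simp
      ring
    rw [h2, h3, div_div_div_cancel_right₀ h1]
  -- limits along the two rays
  have hconst : ∀ z ∈ N, ∀ w ∈ N, (L z).im - (L0 z).im = (L w).im - (L0 w).im := fun z hz w hw =>
    log_unique hNpre (hLc.mono hNK) hL0c hL0e hz hw
  have hN1 : ∀ᶠ t : ℝ in 𝓝[>] 0, r1 t ∈ N := by
    filter_upwards [Ioc_mem_nhdsGT hδ] with t ht
    exact Or.inl (Or.inl ⟨t, ht, rfl⟩)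
  have hN2 : ∀ᶠ t : ℝ in 𝓝[>] 0, r2 t ∈ N := by
    filter_upwards [Ioc_mem_nhdsGT hδ] with t ht
    exact Or.inr ⟨t, ht, rfl⟩
  have hLim : ∀ r : ℝ → ℂ, Continuous r → r 0 = z0 → (∀ᶠ t : ℝ in 𝓝[>] 0, r t ∈ N) →
      Tendsto (fun t => (L (r t)).im) (𝓝[>] 0) (𝓝 (L z0).im) := by
    intro r hr h0 hrN
    have h1 : Tendsto r (𝓝[>] 0) (𝓝[K] z0) := by
      refine tendsto_nhdsWithin_iff.mpr ⟨?_, ?_⟩
      · have := (hr.tendsto 0).mono_left (nhdsWithin_le_nhds (s := Ioi 0))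
        rwa [h0] at this
      · filter_upwards [hrN] with t ht
        exact hNK ht
    exact (continuous_im.tendsto _).comp ((hLc z0 hz0K).tendsto.comp h1)
  have hl1 := hLim r1 hr1 hr10 hN1
  have hl2 := hLim r2 hr2 hr20 hN2
  -- the explicit limits
  have hdiv : ∀ (θ φ t : ℝ), 0 < t →
      (δ * exp (θ * I)) / (z0 + t * exp (φ * I) - z0) =
        ((δ / t : ℝ) : ℂ) * exp ((θ - φ : ℝ) * I) := by
    intro θ φ t ht
    have h1 : ((θ - φ : ℝ) : ℂ) * I = θ * I - φ * I := by push_cast; ring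
    rw [h1, exp_sub, ofReal_div]
    have h2 : (t : ℂ) ≠ 0 := ofReal_ne_zero.mpr ht.ne'
    have h3 := exp_ne_zero ((φ : ℂ) * I)
    have h4 : z0 + t * exp (φ * I) - z0 = t * exp (φ * I) := by ring
    rw [h4]
    field_simp
  have hexp : ∀ φ θ : ℝ, (θ = φ + Real.pi ∨ θ = φ - Real.pi) → -exp (φ * I) = exp (θ * I) := by
    rintro φ θ (h | h)
    · rw [h, ofReal_add, add_mul, exp_add, exp_pi_mul_I]
      ring
    · rw [h, ofReal_sub, sub_mul, exp_sub, exp_pi_mul_I]
      ring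
  have hA1 : Tendsto (fun t => (L0 (r1 t)).im) (𝓝[>] 0) (𝓝 ((β - Real.pi) - (Real.pi - β))) := by
    have e1 := lim_arg hδ (θ := β - Real.pi) (by linarith) (by linarith) β
      (hexp _ _ (Or.inr rfl))
    have e2 := lim_arg hδ (θ := Real.pi - β) (by linarith) (by linarith) (-β)
      (hexp _ _ (Or.inl (by ring)))
    refine (e1.sub e2).congr' ?_
    filter_upwards [self_mem_nhdsWithin] with t ht
    have ht0 : (0 : ℝ) < t := ht
    change _ = (log (1 - b' / (r1 t - z0)) - log (1 - a' / (r1 t - z0))).im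
    have f1 : b' / (r1 t - z0) = ((δ / t : ℝ) : ℂ) * exp ((β : ℝ) * I) := by
      have := hdiv (α + 2 * β) (α + β) t ht0
      rw [show α + 2 * β - (α + β) = β by ring] at this
      exact this
    have f2 : a' / (r1 t - z0) = ((δ / t : ℝ) : ℂ) * exp ((-β : ℝ) * I) := by
      have := hdiv α (α + β) t ht0
      rw [show α - (α + β) = -β by ring] at this
      exact this
    rw [f1, f2, sub_im, log_im, log_im]
  have hA2 : Tendsto (fun t => (L0 (r2 t)).im) (𝓝[>] 0)
      (𝓝 ((Real.pi - β) - (Real.pi - 3 * β))) := by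
    have e1 := lim_arg hδ (θ := Real.pi - β) (by linarith) (by linarith) (-β)
      (hexp _ _ (Or.inl (by ring)))
    have e2 := lim_arg hδ (θ := Real.pi - 3 * β) (by linarith) (by linarith) (-(3 * β))
      (hexp _ _ (Or.inl (by ring)))
    refine (e1.sub e2).congr' ?_
    filter_upwards [self_mem_nhdsWithin] with t ht
    have ht0 : (0 : ℝ) < t := ht
    change _ = (log (1 - b' / (r2 t - z0)) - log (1 - a' / (r2 t - z0))).im
    have f1 : b' / (r2 t - z0) = ((δ / t : ℝ) : ℂ) * exp ((-β : ℝ) * I) := by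
      have := hdiv (α + 2 * β) (α + 3 * β) t ht0
      rw [show α + 2 * β - (α + 3 * β) = -β by ring] at this
      exact this
    have f2 : a' / (r2 t - z0) = ((δ / t : ℝ) : ℂ) * exp ((-(3 * β) : ℝ) * I) := by
      have := hdiv α (α + 3 * β) t ht0
      rw [show α - (α + 3 * β) = -(3 * β) by ring] at this
      exact this
    rw [f1, f2, sub_im, log_im, log_im]
  have hfin1 := hl1.sub hA1
  have hfin2 := hl2.sub hA2
  have heq : ∀ᶠ t : ℝ in 𝓝[>] 0,
      (L (r1 t)).im - (L0 (r1 t)).im = (L (r2 t)).im - (L0 (r2 t)).im := by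
    filter_upwards [hN1, hN2] with t h1 h2
    exact hconst _ h1 _ h2
  have hun := tendsto_nhds_unique_of_eventuallyEq hfin1 hfin2 heq
  linarith

end F
end FBM
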