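import Pool.Agent.FBM.F.Stmts3

/-!
# ZNE: no zero set is empty (MP_947d36_gt, block F)
-/

namespace FBM
namespace F

open Metric Set Complex MeasureTheory Filter Topology
open Pool.Agent.FBM

namespace ZNE

/-- a locally positive function is positive almost everywhere -/
theorem ae_pos {f : ℝ → ℝ}
    (h : ∀ t : ℝ, ∃ m > 0, ∃ δ > 0, ∀ᵐ s, |s - t| < δ → m ≤ f s) : ∀ᵐ s, 0 < f s := by
  rw [ae_iff]
  apply measure_null_of_locally_null
  intro t ht
  obtain ⟨m, hm, δ, hδ, hae⟩ := h t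
  refine ⟨{s | ¬ 0 < f s} ∩ ball t δ, inter_mem_nhdsWithin _ (ball_mem_nhds t hδ), ?_⟩
  rw [ae_iff] at hae
  refine measure_mono_null ?_ hae
  rintro s ⟨hs1, hs2⟩
  simp only [mem_setOf_eq]
  intro hcon
  have h1 : |s - t| < δ := by
    rw [mem_ball, Real.dist_eq] at hs2
    exact hs2
  exact hs1 (hm.trans_le (hcon h1))

theorem fe_one : FE (fun _ : ℝ => (1 : ℝ)) where
  meas := measurable_const
  per := fun _ => rfl
  bdd := ⟨1, fun _ => by simp⟩
  fin := by simp

theorem en_one (f : ℝ → ℝ) : en f (fun _ : ℝ => (1 : ℝ)) = 0 := by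
  simp [en]

end ZNE

theorem ZNE_thm : Stmt_ZNE := by
  intro D X lam T hC hE i
  by_contra hne
  rw [not_nonempty_iff_eq_empty] at hne
  have hpos : ∀ᵐ s, 0 < X i s := by
    apply ZNE.ae_pos
    intro t
    exact hC.pos i t (by rw [hne, closure_empty]; exact notMem_empty t)
  have hpos' : ∀ᵐ s ∂cm, 0 < X i s := ae_restrict_of_ae hpos
  have hT : ∀ t, T i t = lam t * X i t := fun t => hC.el.T_off i t (by rw [hne]; exact notMem_empty t)
  have h1 : ∫ t, T i t ∂cm = 0 := by
    have h2 := hC.el.weak i _ ZNE.fe_one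
    rw [ZNE.en_one] at h2
    simpa using h2.symm
  have h3 : ∀ t, 0 ≤ T i t := by
    intro t
    rw [hT]
    exact mul_nonneg (hC.el.lam_nonneg t) (hC.el.oct.nonneg i t)
  rw [integral_eq_zero_iff_of_nonneg h3 (hC.el.T_int i)] at h1
  have h4 : lam =ᵐ[cm] 0 := by
    filter_upwards [h1, hpos'] with t ht1 ht2
    rw [hT] at ht1
    simp only [Pi.zero_apply] at ht1 ⊢
    rcases mul_eq_zero.1 ht1 with h | h
    · exact h
    · exact absurd h ht2.ne'
  have h5 : ∫ t, lam t ∂cm = 0 := by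
    rw [integral_congr_ae h4]
    simp
  rw [hC.el.lam_tot] at h5
  exact hE.ne' h5

end F
end FBM
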