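/-
FBM, block F: all outputs from the interfaces of Top.lean (helper5).
-/
import Pool.Agent.FBM.F.Fin
import Pool.Agent.FBM.F.TOP5
import Pool.Agent.FBM.F.LOC
import Pool.Agent.FBM.F.COMP
import Pool.Agent.FBM.F.RADO
import Pool.Agent.FBM.F.BHP
import Pool.Agent.FBM.F.EDG
import Pool.Agent.FBM.F.PSI
import Pool.Agent.FBM.F.ZNE
import Pool.Agent.FBM.F.F0
import Pool.Agent.FBM.F.F1A
import Pool.Agent.FBM.F.F1B
import Pool.Agent.FBM.F.HPA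
import Pool.Agent.FBM.F.CRN
import Pool.Agent.FBM.F.F2

namespace FBM
namespace F

open Pool.Agent.FBM

theorem F2_all : Stmt_F2 :=
  F2_thm (RADO_thm TOP5_thm LOC_thm COMP_thm) F0_thm ZNE_thm
    (HPA_thm PSI_thm BHP_thm BQR_thm BQI_thm) (CRN_thm PSI_thm BQR_thm BQI_thm)

theorem F1A_all : Stmt_F1A := F1A_thm PSI_thm BHP_thm

theorem F1B_all : Stmt_F1B := F1B_thm PSI_thm BQR_thm BQI_thm

/-- Block F: all outputs of Top.lean. -/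
theorem F_all (hT : ∀ (m : ℕ), ∀ p ∈ Par m, (Dcfg m p.1 p.2).Tm)
    (hD : Pool.Agent.FBM.Stmt_D_bd) (hEr : Pool.Agent.FBM.Stmt_E_reg)
    (hEc : Pool.Agent.FBM.Stmt_E_cor) :
    Pool.Agent.FBM.Stmt_F_pos ∧ Pool.Agent.FBM.Stmt_F_reg ∧ Pool.Agent.FBM.Stmt_F_cor ∧
      Pool.Agent.FBM.Stmt_F_int :=
  ⟨t_F_pos hT hD hEr hEc EDG_thm F0_thm, t_F_reg hT hD hEr hEc EDG_thm F0_thm F1A_all,
    t_F_cor hT hD hEr hEc EDG_thm F0_thm F1B_all, t_F_int hT hD hEr hEc EDG_thm F2_all⟩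

end F
end FBM
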