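/-
FBM, block F: conversion of the outputs of blocks D and E into the input of block F, and the
assembly of block F (helper5).
-/
import Pool.Agent.FBM.StmtE
import Pool.Agent.FBM.F.Stmts3

namespace FBM
namespace F

open Metric Set Complex MeasureTheory Filter Topology
open Pool.Agent.FBM

theorem ep_one (t : ℝ) : ep 1 t = exp (t * I) := by
  simp [ep]

theorem CNV_thm (hD : Pool.Agent.FBM.Stmt_D) (hE1 : Pool.Agent.FBM.Stmt_E1)
    (hE2 : Pool.Agent.FBM.Stmt_E2) (D : Dat) (X : Fin 3 → ℝ → ℝ) (lam : ℝ → ℝ)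
    (T : Fin 3 → ℝ → ℝ) (hT : D.Tm) (hC : Crit D X lam T) : FIn D X lam T := by
  obtain ⟨f, hf⟩ := hD hC
  refine ⟨hC, fun i => (hf i).1.cont, fun i => (hf i).1.eq, fun i => ?_, fun i => ?_, ?_, ?_⟩
  · refine (hf i).1.diff.congr ?_
    intro z hz
    exact ((hf i).1.eq z hz).symm
  · have h := ae_restrict_of_ae (s := Ioc (-Real.pi) Real.pi) (hf i).1.re
    unfold cm
    filter_upwards [h] with t ht
    rw [← ep_one]
    exact ht
  · intro θ e hR hL
    obtain ⟨ρ, G, hG, hH⟩ := hE1 hT hC θ e hR hL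
    refine ⟨ρ, G, hG, fun he => ?_⟩
    have h := hH he 0 (by simpa using hG.pos.1)
    simpa using h
  · intro θ eR eL hR hL hne
    obtain ⟨ρ, G, hG, h1, h2⟩ := hE2 hT hC θ eR eL hne hR hL
    refine ⟨ρ, G, hG, fun he => ?_, fun he => ?_⟩
    · have h := h1 he 0 (by simpa using hG.pos.1)
      simpa using h
    · have h := h2 he 0 (by simpa using hG.pos.1)
      simpa using h

theorem FEND_thm (hEDG : Stmt_EDG) (hF0 : Stmt_F0) (hF1A : Stmt_F1A) (hF1B : Stmt_F1B)
    (hF2 : Stmt_F2) : Stmt_FEND := by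
  intro m a b X lam T hab hin hven
  have hG := hEDG m a b hab
  have hP := hF0 _ X lam T hG hin hven
  exact ⟨hG, hP, fun θ e ρ G h1 h2 h3 => hF1A _ X hG hP θ e ρ G h1 h2 h3,
    fun θ eR eL ρ G h1 h2 h3 h4 => hF1B _ X hG hP θ eR eL ρ G h1 h2 h3 h4,
    fun z hz => hF2 _ X lam T hG hin hven z hz⟩

end F
end FBM
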