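import Pool.Agent.FBM.F.Stmts3

/-!
# FBM, block F, HPA: the Hopf property where two components are positive (helper95)
-/

namespace FBM
namespace F

open Metric Set Complex MeasureTheory Filter Topology
open Pool.Agent.FBM

namespace HPA

theorem cl_of_R {D : Dat} {θ : ℝ} {j : Fin 3} (h : EdgeR D θ (Edge.W j)) :
    θ ∈ closure (D.Z j) := by
  refine mem_closure_of_tendsto (f := id) (b := 𝓝[>] θ) ?_ ?_
  · exact tendsto_id.mono_left nhdsWithin_le_nhds
  · exact h.mono fun s hs => hs.1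

theorem cl_of_L {D : Dat} {θ : ℝ} {j : Fin 3} (h : EdgeL D θ (Edge.W j)) :
    θ ∈ closure (D.Z j) := by
  refine mem_closure_of_tendsto (f := id) (b := 𝓝[<] θ) ?_ ?_
  · exact tendsto_id.mono_left nhdsWithin_le_nhds
  · exact h.mono fun s hs => hs.1

/-- A holomorphic function with real part zero near a point. -/
theorem re_zero (F : ℂ → ℂ) (hF : DifferentiableOn ℂ F (ball 0 1)) (z0 : ℂ)
    (hz0 : z0 ∈ ball (0 : ℂ) 1) (h : ∀ᶠ z in 𝓝 z0, (F z).re = 0) :
    ∀ z ∈ ball (0 : ℂ) 1, (F z).re = 0 := by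
  have hA : AnalyticOnNhd ℂ F (ball 0 1) := hF.analyticOnNhd isOpen_ball
  have h0 : (F z0).re = 0 := h.self_of_nhds
  rcases (hA z0 hz0).eventually_constant_or_nhds_le_map_nhds with h1 | h1
  · have h2 : EqOn F (fun _ => F z0) (ball 0 1) :=
      hA.eqOn_of_preconnected_of_eventuallyEq analyticOnNhd_const
        (convex_ball 0 1).isPreconnected hz0 h1
    intro z hz
    rw [h2 hz]
    exact h0
  · exfalso
    have h2 : ∀ᶠ w in 𝓝 (F z0), w.re = 0 := h1 h
    obtain ⟨ε, hε, h3⟩ := Metric.eventually_nhds_iff.1 h2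
    have h4 := h3 (y := F z0 + ((ε / 2 : ℝ) : ℂ)) (by
      rw [dist_eq_norm, add_sub_cancel_left, Complex.norm_real, Real.norm_eq_abs,
        abs_of_pos (by linarith)]
      linarith)
    rw [Complex.add_re, Complex.ofReal_re, h0] at h4
    linarith

/-- The derivative of a function with real part even across the real axis. -/
theorem im_deriv (h : ℂ → ℂ) (ρ : ℝ) (hρ : 0 < ρ) (hd : DifferentiableAt ℂ h 0)
    (he : ∀ w : ℂ, ‖w‖ < ρ → (h ((starRingEnd ℂ) w)).re = (h w).re) : (deriv h 0).im = 0 := by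
  have h1 : HasDerivAt (fun z : ℂ => h (z * I)) (deriv h 0 * I) ((0 : ℝ) : ℂ) := by
    have h2 : HasDerivAt (fun z : ℂ => z * I) I ((0 : ℝ) : ℂ) := by
      simpa using (hasDerivAt_id ((0 : ℝ) : ℂ)).mul_const I
    have h3 : HasDerivAt h (deriv h 0) (((0 : ℝ) : ℂ) * I) := by
      rw [Complex.ofReal_zero, zero_mul]
      exact hd.hasDerivAt
    exact HasDerivAt.comp ((0 : ℝ) : ℂ) h3 h2
  have h4 := h1.real_of_complex
  have h5 : HasDerivAt (fun x : ℝ => (h (((-x : ℝ) : ℂ) * I)).re) (-(deriv h 0 * I).re) 0 := by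
    have h6 : HasDerivAt (fun x : ℝ => (h ((x : ℂ) * I)).re) (deriv h 0 * I).re (-(0 : ℝ)) := by
      rw [neg_zero]
      exact h4
    have h7 := h6.comp (0 : ℝ) (hasDerivAt_neg (0 : ℝ))
    rw [mul_neg_one] at h7
    exact h7
  have h8 : (fun x : ℝ => (h (((-x : ℝ) : ℂ) * I)).re) =ᶠ[𝓝 0]
      fun x : ℝ => (h ((x : ℂ) * I)).re := by
    refine Metric.eventually_nhds_iff.2 ⟨ρ, hρ, fun x hx => ?_⟩
    rw [Real.dist_eq, sub_zero] at hx
    have h9 := he ((x : ℂ) * I) (by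
      rw [norm_mul, Complex.norm_I, mul_one, Complex.norm_real]
      exact hx)
    have h12 : (starRingEnd ℂ) ((x : ℂ) * I) = ((-x : ℝ) : ℂ) * I := by
      rw [map_mul, Complex.conj_I, Complex.conj_ofReal, Complex.ofReal_neg]
      ring
    rw [h12] at h9
    exact h9
  have h10 := (h5.congr_of_eventuallyEq h8.symm).unique h4
  have h11 : (deriv h 0 * I).re = -(deriv h 0).im := by
    simp
  rw [h11] at h10
  linarith

section

variable {D : Dat} {X : Fin 3 → ℝ → ℝ} {lam : ℝ → ℝ} {T : Fin 3 → ℝ → ℝ}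

/-- From equality near a boundary point to equality. -/
theorem concl (hF : FIn D X lam T) (θ M : ℝ) (i k : Fin 3) (r : ℝ) (hr : 0 < r)
    (hU : ∀ z ∈ ball (0 : ℂ) 1, ‖z - exp (θ * I)‖ < r → pt X z k = M * pt X z i) :
    ∀ z ∈ ball (0 : ℂ) 1, pt X z k = M * pt X z i := by
  have hp : ‖exp (θ * I)‖ = 1 := Complex.norm_exp_ofReal_mul_I θ
  obtain ⟨ε, hε0, hε1, hεr⟩ : ∃ ε : ℝ, 0 < ε ∧ ε < 1 ∧ ε < r :=
    ⟨min r 1 / 2, by positivity, by
      have := min_le_right r 1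
      linarith, by
      have := min_le_left r 1
      linarith⟩
  have hz1 : ‖((1 - ε : ℝ) : ℂ) * exp (θ * I)‖ < 1 := by
    rw [norm_mul, hp, mul_one, Complex.norm_real, Real.norm_eq_abs, abs_of_pos (by linarith)]
    linarith
  have hz2 : ‖((1 - ε : ℝ) : ℂ) * exp (θ * I) - exp (θ * I)‖ < r := by
    have h1 : ((1 - ε : ℝ) : ℂ) * exp (θ * I) - exp (θ * I) = ((-ε : ℝ) : ℂ) * exp (θ * I) := by
      push_cast
      ring
    rw [h1, norm_mul, hp, mul_one, Complex.norm_real, Real.norm_eq_abs, abs_neg, abs_of_pos hε0]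
    exact hεr
  have hre : ∀ z ∈ ball (0 : ℂ) 1, ((M : ℂ) * hz (X i) z - hz (X k) z).re =
      M * pt X z i - pt X z k := by
    intro z hz
    rw [Complex.sub_re, Complex.re_ofReal_mul]
    unfold pt
    rw [hF.eq i z hz, hF.eq k z hz]
  have h2 := re_zero (fun z => (M : ℂ) * hz (X i) z - hz (X k) z)
    (((hF.hol i).const_mul _).sub (hF.hol k)) (((1 - ε : ℝ) : ℂ) * exp (θ * I))
    (mem_ball_zero_iff.2 hz1) (by
      have h3 : ∀ᶠ z in 𝓝 (((1 - ε : ℝ) : ℂ) * exp (θ * I)), z ∈ ball (0 : ℂ) 1 :=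
        isOpen_ball.mem_nhds (mem_ball_zero_iff.2 hz1)
      have h4 : ∀ᶠ z in 𝓝 (((1 - ε : ℝ) : ℂ) * exp (θ * I)), z ∈ ball (exp (θ * I)) r :=
        isOpen_ball.mem_nhds (mem_ball_iff_norm.2 hz2)
      filter_upwards [h3, h4] with z hz3 hz4
      rw [hre z hz3, hU z hz3 (mem_ball_iff_norm.1 hz4)]
      ring)
  intro z hz
  have h5 := h2 z hz
  rw [hre z hz] at h5
  linarith

theorem shrink (hP : PsiP) (θ r : ℝ) (hr : 0 < r) :
    ∃ δ > 0, ∀ w : ℂ, ‖w‖ < δ → ‖psi θ w - exp (θ * I)‖ < r := by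
  have h1 : ContinuousAt (psi θ) 0 := (hP.cont θ).continuousAt (ball_mem_nhds 0 one_pos)
  obtain ⟨δ, hδ, h2⟩ := Metric.continuousAt_iff.1 h1 r hr
  refine ⟨δ, hδ, fun w hw => ?_⟩
  have h3 := h2 (x := w) (by rw [dist_zero_right]; exact hw)
  rw [hP.zero, dist_eq_norm] at h3
  exact h3

theorem deriv_h (G : Fin 3 → ℂ → ℂ) (hG : ∀ j, DifferentiableAt ℂ (G j) 0) (M : ℝ)
    (i k : Fin 3) : deriv (fun w => (M : ℂ) * G i w - G k w) 0 =
      (M : ℂ) * deriv (G i) 0 - deriv (G k) 0 :=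
  (((hG i).hasDerivAt.const_mul (M : ℂ)).sub (hG k).hasDerivAt).deriv

/-- The half disc. -/
theorem half (hP : PsiP) (hB : Stmt_BHP) (hF : FIn D X lam T) {θ M ρ r : ℝ} {e : Edge}
    {G : Fin 3 → ℂ → ℂ} {i k : Fin 3} (hL : LocReg X θ e ρ G) (hr : 0 < r)
    (hy : ∀ z ∈ ball (0 : ℂ) 1 ∩ ball (exp (θ * I)) r, pt X z k ≤ M * pt X z i)
    (hp : pt X (exp (θ * I)) k = M * pt X (exp (θ * I)) i)
    (hd : (deriv (fun w => (M : ℂ) * G i w - G k w) 0).im = 0) :
    ∀ z ∈ ball (0 : ℂ) 1, pt X z k = M * pt X z i := by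
  obtain ⟨δ, hδ, hs⟩ := shrink hP θ r hr
  have hρ' : 0 < min ρ δ := lt_min hL.pos.1 hδ
  have hre : ∀ w : ℂ, ‖w‖ < ρ → 0 ≤ w.im → ((M : ℂ) * G i w - G k w).re =
      M * pt X (psi θ w) i - pt X (psi θ w) k := by
    intro w hw hw'
    rw [Complex.sub_re, Complex.re_ofReal_mul, hL.eq i w hw hw', hL.eq k w hw hw']
    rfl
  have h0 : ((M : ℂ) * G i 0 - G k 0).re = 0 := by
    rw [hre 0 (by rw [norm_zero]; exact hL.pos.1) (by simp), hP.zero, hp]
    ring
  have hc := hB (fun w => (M : ℂ) * G i w - G k w) (min ρ δ) hρ'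
    ((((hL.an i).const_mul _).sub (hL.an k)).mono (ball_subset_ball (min_le_left _ _)))
    (fun w hw hw' => by
      have hw1 : ‖w‖ < ρ := (mem_ball_zero_iff.1 hw).trans_le (min_le_left _ _)
      have hw2 : ‖w‖ < δ := (mem_ball_zero_iff.1 hw).trans_le (min_le_right _ _)
      change 0 ≤ ((M : ℂ) * G i w - G k w).re
      rw [hre w hw1 hw'.le]
      have := hy (psi θ w) ⟨hP.maps θ w (hw1.trans hL.pos.2) hw', mem_ball_iff_norm.2 (hs w hw2)⟩
      linarith) h0 hd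
  obtain ⟨r', hr', ho⟩ := hP.onto θ (min ρ δ) hρ'
  refine concl hF θ M i k r' hr' fun z hz hzr => ?_
  obtain ⟨w, hw, hwi, rfl⟩ := ho z hz hzr
  have h1 := hc w (mem_ball_zero_iff.2 hw)
  have h2 : ((M : ℂ) * G i w - G k w).re = 0 := by
    have h3 := congrArg Complex.re h1
    exact h3.trans h0
  rw [hre w (hw.trans_le (min_le_left _ _)) hwi.le] at h2
  linarith

/-- The quadrant. -/
theorem quad (hP : PsiP) (hF : FIn D X lam T) {θ M ρ r : ℝ} {eR eL : Edge}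
    {G : Fin 3 → ℂ → ℂ} {i k : Fin 3} (hL : LocCor X θ eR eL ρ G) (hr : 0 < r)
    (hy : ∀ z ∈ ball (0 : ℂ) 1 ∩ ball (exp (θ * I)) r, pt X z k ≤ M * pt X z i)
    (hp : pt X (exp (θ * I)) k = M * pt X (exp (θ * I)) i)
    (hc : ∀ ρ' : ℝ, 0 < ρ' → ρ' ≤ ρ →
      DifferentiableOn ℂ (fun w => (M : ℂ) * G i w - G k w) (ball 0 ρ') →
      (∀ w ∈ ball (0 : ℂ) ρ', 0 < w.re → 0 < w.im → 0 ≤ ((M : ℂ) * G i w - G k w).re) →
      ((M : ℂ) * G i 0 - G k 0).re = 0 →
      ∀ w ∈ ball (0 : ℂ) ρ', (M : ℂ) * G i w - G k w = (M : ℂ) * G i 0 - G k 0) :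
    ∀ z ∈ ball (0 : ℂ) 1, pt X z k = M * pt X z i := by
  obtain ⟨δ, hδ, hs⟩ := shrink hP θ r hr
  have hρ' : 0 < min ρ δ := lt_min hL.pos.1 hδ
  have hre : ∀ w : ℂ, ‖w‖ < ρ → 0 ≤ w.re → 0 ≤ w.im → ((M : ℂ) * G i w - G k w).re =
      M * pt X (psi θ (w ^ 2)) i - pt X (psi θ (w ^ 2)) k := by
    intro w hw hw1 hw'
    rw [Complex.sub_re, Complex.re_ofReal_mul, hL.eq i w hw hw1 hw', hL.eq k w hw hw1 hw']
    rfl
  have h0 : ((M : ℂ) * G i 0 - G k 0).re = 0 := by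
    rw [hre 0 (by rw [norm_zero]; exact hL.pos.1) (by simp) (by simp), zero_pow two_ne_zero,
      hP.zero, hp]
    ring
  have hc' := hc (min ρ δ) hρ' (min_le_left _ _)
    ((((hL.an i).const_mul _).sub (hL.an k)).mono (ball_subset_ball (min_le_left _ _)))
    (fun w hw hwr hwi => by
      have hw1 : ‖w‖ < ρ := (mem_ball_zero_iff.1 hw).trans_le (min_le_left _ _)
      have hw2 : ‖w‖ < δ := (mem_ball_zero_iff.1 hw).trans_le (min_le_right _ _)
      have hw3 : ‖w‖ < 1 := hw1.trans hL.pos.2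
      have hn : ‖w ^ 2‖ ≤ ‖w‖ := by
        rw [norm_pow]
        nlinarith [norm_nonneg w]
      have him : 0 < (w ^ 2).im := by
        rw [pow_two, Complex.mul_im]
        nlinarith [mul_pos hwr hwi]
      rw [hre w hw1 hwr.le hwi.le]
      have := hy (psi θ (w ^ 2)) ⟨hP.maps θ (w ^ 2) (hn.trans_lt hw3) him,
        mem_ball_iff_norm.2 (hs (w ^ 2) (hn.trans_lt hw2))⟩
      linarith) h0
  obtain ⟨r', hr', ho⟩ := hP.onto2 θ (min ρ δ) hρ'
  refine concl hF θ M i k r' hr' fun z hz hzr => ?_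
  obtain ⟨w, hw, hwr, hwi, rfl⟩ := ho z hz hzr
  have h1 := hc' w (mem_ball_zero_iff.2 hw)
  have h2 : ((M : ℂ) * G i w - G k w).re = 0 := by
    rw [h1]
    exact h0
  rw [hre w (hw.trans_le (min_le_left _ _)) hwr.le hwi.le] at h2
  linarith

end

end HPA

open HPA in
theorem HPA_thm (hPSI : Stmt_PSI) (hBHP : Stmt_BHP) (hBQR : Stmt_BQR) (hBQI : Stmt_BQI) :
    Stmt_HPA := by
  intro D X lam T hD hF hPos θ i k hik hi hk M hM hp
  obtain ⟨r, hr, hy⟩ := hM
  have hci : θ ∉ closure (D.Z i) := fun hc => hi.ne' (hPos.bzero θ i hc)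
  have hck : θ ∉ closure (D.Z k) := fun hc => hk.ne' (hPos.bzero θ k hc)
  obtain ⟨eR, hR⟩ := hD.edR θ
  obtain ⟨eL, hL⟩ := hD.edL θ
  have hp' : pt X (exp (θ * I)) k = M * pt X (exp (θ * I)) i := hp
  have hWR : ∀ j, eR = Edge.W j → j ≠ i ∧ j ≠ k := by
    rintro j rfl
    exact ⟨fun h => hci (h ▸ cl_of_R hR), fun h => hck (h ▸ cl_of_R hR)⟩
  have hWL : ∀ j, eL = Edge.W j → j ≠ i ∧ j ≠ k := by
    rintro j rfl
    exact ⟨fun h => hci (h ▸ cl_of_L hL), fun h => hck (h ▸ cl_of_L hL)⟩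
  by_cases he : eR = eL
  · subst he
    obtain ⟨ρ, G, hLoc, hκ⟩ := hF.reg θ eR hR hL
    have hGd : ∀ j, DifferentiableAt ℂ (G j) 0 := fun j =>
      (hLoc.an j).differentiableAt (ball_mem_nhds 0 hLoc.pos.1)
    have hG0 : ∀ j, (G j 0).re = pt X (exp (θ * I)) j := fun j => by
      rw [hLoc.eq j 0 (by rw [norm_zero]; exact hLoc.pos.1) (by simp), hPSI.zero]
      rfl
    refine half hPSI hBHP hF hLoc hr hy hp' ?_
    cases eR with
    | W j =>
      obtain ⟨hji, hjk⟩ := hWR j rfl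
      refine im_deriv _ ρ hLoc.pos.1
        (((hGd i).const_mul (M : ℂ)).sub (hGd k)) fun w hw => ?_
      have h1 := hLoc.bd i w hw
      have h2 := hLoc.bd k w hw
      rw [if_neg hji.symm, one_mul] at h1
      rw [if_neg hjk.symm, one_mul] at h2
      rw [Complex.sub_re, Complex.sub_re, Complex.re_ofReal_mul, Complex.re_ofReal_mul, h1, h2]
    | H =>
      obtain ⟨κ, hκ'⟩ := hκ rfl
      rw [deriv_h G hGd, Complex.sub_im, Complex.im_ofReal_mul, hκ', hκ', hG0, hG0, hp']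
      ring
  · obtain ⟨ρ, G, hLoc, hκR, hκL⟩ := hF.cor θ eR eL hR hL he
    have hGd : ∀ j, DifferentiableAt ℂ (G j) 0 := fun j =>
      (hLoc.an j).differentiableAt (ball_mem_nhds 0 hLoc.pos.1)
    have hG0 : ∀ j, (G j 0).re = pt X (exp (θ * I)) j := fun j => by
      rw [hLoc.eq j 0 (by rw [norm_zero]; exact hLoc.pos.1) (by simp) (by simp),
        zero_pow two_ne_zero, hPSI.zero]
      rfl
    refine quad hPSI hF hLoc hr hy hp' ?_
    intro ρ' hρ' hρ'' hd hnn h0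
    cases eR with
    | W j =>
      obtain ⟨hji, hjk⟩ := hWR j rfl
      cases eL with
      | W l =>
        exfalso
        obtain ⟨hli, hlk⟩ := hWL l rfl
        have hjl : j ≠ l := fun h => he (by rw [h])
        omega
      | H =>
        obtain ⟨κ, hκ'⟩ := hκL rfl
        refine hBQR (fun w => (M : ℂ) * G i w - G k w) ρ' hρ' hd (fun w hw => ?_) hnn h0 ?_
        · have hw' : ‖w‖ < ρ := (mem_ball_zero_iff.1 hw).trans_le hρ''
          have h1 := hLoc.bdR i w hw'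
          have h2 := hLoc.bdR k w hw'
          rw [if_neg hji.symm, one_mul] at h1
          rw [if_neg hjk.symm, one_mul] at h2
          change ((M : ℂ) * G i ((starRingEnd ℂ) w) - G k ((starRingEnd ℂ) w)).re =
            ((M : ℂ) * G i w - G k w).re
          rw [Complex.sub_re, Complex.sub_re, Complex.re_ofReal_mul, Complex.re_ofReal_mul, h1, h2]
        · rw [deriv_h G hGd, Complex.sub_re, Complex.re_ofReal_mul, hκ', hκ', hG0, hG0, hp']
          ring
    | H =>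
      obtain ⟨κ, hκ'⟩ := hκR rfl
      cases eL with
      | W l =>
        obtain ⟨hli, hlk⟩ := hWL l rfl
        refine hBQI (fun w => (M : ℂ) * G i w - G k w) ρ' hρ' hd (fun w hw => ?_) hnn h0 ?_
        · have hw' : ‖w‖ < ρ := (mem_ball_zero_iff.1 hw).trans_le hρ''
          have h1 := hLoc.bdL i w hw'
          have h2 := hLoc.bdL k w hw'
          rw [if_neg hli.symm, one_mul] at h1
          rw [if_neg hlk.symm, one_mul] at h2
          change ((M : ℂ) * G i (-(starRingEnd ℂ) w) - G k (-(starRingEnd ℂ) w)).re =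
            ((M : ℂ) * G i w - G k w).re
          rw [Complex.sub_re, Complex.sub_re, Complex.re_ofReal_mul, Complex.re_ofReal_mul, h1, h2]
        · rw [deriv_h G hGd, Complex.sub_im, Complex.im_ofReal_mul, hκ', hκ', hG0, hG0, hp']
          ring
      | H => exact absurd rfl he

end F
end FBM
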