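import Pool.Agent.FBM.F.Stmts

namespace FBM
namespace F
namespace TOP

open Complex Set Filter Topology

theorem div_mem_slit (z p q : ℂ) (h : ‖p - q‖ < ‖z - p‖) : (z - q) / (z - p) ∈ slitPlane := by
  have hz : z - p ≠ 0 := by
    intro h0
    rw [h0, norm_zero] at h
    exact absurd h (not_lt.mpr (norm_nonneg _))
  have e : (z - q) / (z - p) = 1 + (p - q) / (z - p) := by
    field_simp
    ring
  have hn : ‖(p - q) / (z - p)‖ < 1 := by
    rw [norm_div, div_lt_one (norm_pos_iff.mpr hz)]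
    exact h
  rw [e]
  left
  have := (abs_le.mp (abs_re_le_norm ((p - q) / (z - p)))).1
  simp only [add_re, one_re]
  linarith

theorem exists_log (K : Set ℂ) (hK : IsCompact K) (hne : K.Nonempty) (g : ℝ → ℂ)
    (hg : Continuous g) (hd : ∀ s, g s ∉ K) :
    ∃ L : ℂ → ℂ, ContinuousOn L K ∧ ∀ z ∈ K, exp (L z) = (z - g 1) / (z - g 0) := by
  have hc : IsCompact (K ×ˢ (Icc (0 : ℝ) 1)) := hK.prod isCompact_Icc
  have hnz : ∀ z ∈ K, ∀ s, z - g s ≠ 0 := by
    intro z hz s h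
    exact hd s (by rw [← sub_eq_zero.mp h]; exact hz)
  obtain ⟨m, hm, hmin⟩ := hc.exists_isMinOn (hne.prod ⟨0, by simp⟩)
    (f := fun x : ℂ × ℝ => ‖x.1 - g x.2‖) (by fun_prop)
  set ρ := ‖m.1 - g m.2‖ with hρ
  have hρ0 : 0 < ρ := norm_pos_iff.mpr (hnz _ hm.1 _)
  have hmin' : ∀ z ∈ K, ∀ s ∈ Icc (0 : ℝ) 1, ρ ≤ ‖z - g s‖ := fun z hz s hs =>
    hmin (show (z, s) ∈ K ×ˢ Icc (0 : ℝ) 1 from ⟨hz, hs⟩)
  have hu : UniformContinuousOn g (Icc 0 1) :=
    isCompact_Icc.uniformContinuousOn_of_continuous hg.continuousOn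
  obtain ⟨d, hd0, hd1⟩ := Metric.uniformContinuousOn_iff.mp hu ρ hρ0
  obtain ⟨N, hN⟩ := exists_nat_gt (1 / d)
  have hNpos : (0 : ℝ) < N := lt_trans (by positivity) hN
  have hstep : (1 : ℝ) / N < d := by
    rw [div_lt_iff₀ hNpos]
    rw [div_lt_iff₀ hd0] at hN
    linarith
  have key : ∀ n : ℕ, n ≤ N →
      ∃ L : ℂ → ℂ, ContinuousOn L K ∧ ∀ z ∈ K, exp (L z) = (z - g (n / N)) / (z - g 0) := by
    intro n
    induction n with
    | zero =>
      intro _
      refine ⟨fun _ => 0, continuousOn_const, fun z hz => ?_⟩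
      have : ((0 : ℕ) : ℝ) / N = 0 := by simp
      rw [this, exp_zero, div_self (hnz z hz 0)]
    | succ n ih =>
      intro hn
      obtain ⟨L, hL, hLe⟩ := ih (by omega)
      have h1 : (n : ℝ) / N ∈ Icc (0 : ℝ) 1 :=
        ⟨by positivity, (div_le_one hNpos).mpr (by exact_mod_cast (by omega : n ≤ N))⟩
      have h2 : ((n + 1 : ℕ) : ℝ) / N ∈ Icc (0 : ℝ) 1 :=
        ⟨by positivity, (div_le_one hNpos).mpr (by exact_mod_cast hn)⟩
      have h3 : ‖g (n / N) - g ((n + 1 : ℕ) / N)‖ < ρ := by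
        rw [← dist_eq_norm]
        apply hd1 _ h1 _ h2
        rw [Real.dist_eq]
        have : (n : ℝ) / N - ((n + 1 : ℕ) : ℝ) / N = - (1 / N) := by
          push_cast
          ring
        rw [this, abs_neg, abs_of_pos (by positivity)]
        exact hstep
      have h4 : ∀ z ∈ K, (z - g ((n + 1 : ℕ) / N)) / (z - g (n / N)) ∈ slitPlane := fun z hz =>
        div_mem_slit _ _ _ (lt_of_lt_of_le h3 (hmin' z hz _ h1))
      refine ⟨fun z => L z + log ((z - g ((n + 1 : ℕ) / N)) / (z - g (n / N))), ?_, ?_⟩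
      · apply hL.add
        apply ContinuousOn.clog
        · apply ContinuousOn.div
          · fun_prop
          · fun_prop
          · exact fun z hz => hnz z hz _
        · exact h4
      · intro z hz
        rw [exp_add, hLe z hz, exp_log (slitPlane_ne_zero (h4 z hz))]
        have e1 := hnz z hz 0
        have e2 := hnz z hz (n / N)
        field_simp
  obtain ⟨L, hL, hLe⟩ := key N le_rfl
  refine ⟨L, hL, fun z hz => ?_⟩
  rw [hLe z hz, div_self hNpos.ne']

/-- a continuous function with `exp = 1` on a preconnected set is constant -/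
theorem const_of_exp_one (C : Set ℂ) (hC : IsPreconnected C) (D : ℂ → ℂ) (hD : ContinuousOn D C)
    (h1 : ∀ z ∈ C, exp (D z) = 1) (x y : ℂ) (hx : x ∈ C) (hy : y ∈ C) : D x = D y := by
  have hI : ∀ z ∈ C, ∃ n : ℤ, D z = n * (2 * Real.pi * I) := fun z hz => exp_eq_one_iff.mp (h1 z hz)
  have hf : ContinuousOn (fun z => (D z).im) C := continuous_im.comp_continuousOn hD
  have hp := Real.pi_pos
  have aux : ∀ x ∈ C, ∀ y ∈ C, ¬ ((D x).im < (D y).im) := by
    intro x hx y hy hlt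
    obtain ⟨n, hn⟩ := hI x hx
    obtain ⟨m, hm⟩ := hI y hy
    have hn' : (D x).im = n * (2 * Real.pi) := by rw [hn]; simp
    have hm' : (D y).im = m * (2 * Real.pi) := by rw [hm]; simp
    have hnm : (n : ℝ) < m := by
      rw [hn', hm'] at hlt
      exact lt_of_mul_lt_mul_right hlt (by positivity)
    have hnm' : (n : ℝ) + 1 ≤ m := by exact_mod_cast hnm
    have hmem : ((n : ℝ) + 1 / 2) * (2 * Real.pi) ∈ (fun z => (D z).im) '' C := by
      apply hC.intermediate_value hx hy hf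
      constructor
      · simp only [hn']
        nlinarith
      · simp only [hm']
        nlinarith
    obtain ⟨z, hz, hz1⟩ := hmem
    obtain ⟨k, hk⟩ := hI z hz
    have hk' : (D z).im = k * (2 * Real.pi) := by rw [hk]; simp
    simp only [hk'] at hz1
    have h2 : (k : ℝ) = n + 1 / 2 := by
      have := mul_right_cancel₀ (by positivity : (2 * Real.pi : ℝ) ≠ 0) hz1
      exact this
    have h3 : (2 * k : ℤ) = 2 * n + 1 := by
      have : (2 * (k : ℝ)) = 2 * n + 1 := by rw [h2]; ring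
      exact_mod_cast this
    omega
  obtain ⟨n, hn⟩ := hI x hx
  obtain ⟨m, hm⟩ := hI y hy
  have hn' : (D x).im = n * (2 * Real.pi) := by rw [hn]; simp
  have hm' : (D y).im = m * (2 * Real.pi) := by rw [hm]; simp
  have he : (D x).im = (D y).im := le_antisymm (not_lt.mp (aux y hy x hx)) (not_lt.mp (aux x hx y hy))
  rw [hn', hm'] at he
  have : (n : ℝ) = m := mul_right_cancel₀ (by positivity) he
  have h3 : n = m := by exact_mod_cast this
  rw [hn, hm, h3]

/-- limit of the logarithm along a ray -/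
theorem log_lim (θ : ℝ) (h1 : 0 < θ) (h2 : θ < 2 * Real.pi) :
    Tendsto (fun t : ℝ => log ((t : ℂ) - exp (θ * I))) (𝓝[>] 0) (𝓝 ((θ - Real.pi : ℝ) * I)) := by
  have hp := Real.pi_pos
  have e0 : -exp (θ * I) = exp ((θ - Real.pi : ℝ) * I) := by
    push_cast
    rw [sub_mul, exp_sub, exp_pi_mul_I]
    field_simp
  have hl' : log (exp ((θ - Real.pi : ℝ) * I)) = (θ - Real.pi : ℝ) * I := by
    rw [log_exp]
    · simp; linarith
    · simp; linarith
  have hs : (0 : ℂ) - exp (θ * I) ∈ slitPlane := by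
    rw [zero_sub, e0, mem_slitPlane_iff_arg]
    refine ⟨?_, exp_ne_zero _⟩
    rw [← log_im, hl']
    simp
    intro h
    linarith
  have hl : log ((0 : ℂ) - exp (θ * I)) = (θ - Real.pi : ℝ) * I := by
    rw [zero_sub, e0, hl']
  have hc : ContinuousAt (fun t : ℝ => log ((t : ℂ) - exp (θ * I))) 0 := by
    apply ContinuousAt.clog
    · fun_prop
    · simpa using hs
  have := hc.tendsto
  simp only [ofReal_zero, hl] at this
  exact this.mono_left nhdsWithin_le_nhds

/-- the second logarithm along the ray of direction `θ` -/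
theorem L0_ray (t θ : ℝ) (b ψ : ℂ) (ht : 0 < t) (hb : b = ψ * exp (θ * I))
    (hne : 1 - b / (t * exp (θ * I)) ≠ 0) :
    log (1 - b / (t * exp (θ * I))) = Real.log (1 / t) + log ((t : ℂ) - ψ) := by
  have ht' : (t : ℂ) ≠ 0 := by exact_mod_cast ht.ne'
  have he := exp_ne_zero ((θ : ℂ) * I)
  have e : 1 - b / (t * exp (θ * I)) = ((1 / t : ℝ) : ℂ) * ((t : ℂ) - ψ) := by
    rw [hb]
    push_cast
    field_simp
  have h2 : (t : ℂ) - ψ ≠ 0 := by
    intro h
    apply hne
    rw [e, h, mul_zero]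
  rw [e, log_ofReal_mul (by positivity) h2]

theorem core (β : ℝ) (S T : Set ℂ) (hβ : 0 < β) (hβ3 : 3 * β < 2 * Real.pi)
    (hST : Disjoint S T) (h0 : (0 : ℂ) ∉ S) (h0T : (0 : ℂ) ∉ T)
    (ha : ∀ t : ℝ, 0 < t → t ≤ 1 → (t : ℂ) ∈ S)
    (hc : ∀ t : ℝ, 0 < t → t ≤ 1 → t * exp ((β : ℝ) * I) ∈ T)
    (hb : ∀ t : ℝ, 0 < t → t ≤ 1 → t * exp ((2 * β : ℝ) * I) ∈ S)
    (hd : ∀ t : ℝ, 0 < t → t ≤ 1 → t * exp ((3 * β : ℝ) * I) ∈ T)
    (gS gT : ℝ → ℂ) (gSc : Continuous gS) (gTc : Continuous gT)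
    (gSS : ∀ s, gS s ∈ S) (gTT : ∀ s, gT s ∈ T)
    (gS0 : gS 0 = 1) (gS1 : gS 1 = exp ((2 * β : ℝ) * I))
    (gT0 : gT 0 = exp ((β : ℝ) * I)) (gT1 : gT 1 = exp ((3 * β : ℝ) * I)) : False := by
  have hp := Real.pi_pos
  -- the compact set
  set A : Set ℂ := (fun t : ℝ => t * exp ((β : ℝ) * I)) '' Icc 0 1 with hA
  set B : Set ℂ := gT '' Icc 0 1 with hB
  set C : Set ℂ := (fun t : ℝ => t * exp ((3 * β : ℝ) * I)) '' Icc 0 1 with hC
  set K : Set ℂ := A ∪ B ∪ C with hK
  have hAc : IsCompact A := isCompact_Icc.image (by fun_prop)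
  have hBc : IsCompact B := isCompact_Icc.image gTc
  have hCc : IsCompact C := isCompact_Icc.image (by fun_prop)
  have hKc : IsCompact K := (hAc.union hBc).union hCc
  have hKT : ∀ z ∈ K, z = 0 ∨ z ∈ T := by
    rintro z ((⟨t, ht, rfl⟩ | ⟨t, ht, rfl⟩) | ⟨t, ht, rfl⟩)
    · rcases eq_or_lt_of_le ht.1 with h | h
      · left; simp [← h]
      · right; exact hc t h ht.2
    · right; exact gTT t
    · rcases eq_or_lt_of_le ht.1 with h | h
      · left; simp [← h]
      · right; exact hd t h ht.2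
  have hKS : ∀ s, gS s ∉ K := by
    intro s hs
    rcases hKT _ hs with h | h
    · exact h0 (h ▸ gSS s)
    · exact (Set.disjoint_left.mp hST) (gSS s) h
  have h0K : (0 : ℂ) ∈ K := Or.inl (Or.inl ⟨0, by simp, by simp⟩)
  obtain ⟨L, hL, hLe⟩ := exists_log K hKc ⟨0, h0K⟩ gS gSc hKS
  -- the punctured set
  set K' : Set ℂ := ((fun t : ℝ => t * exp ((β : ℝ) * I)) '' Ioc 0 1 ∪ B) ∪
    (fun t : ℝ => t * exp ((3 * β : ℝ) * I)) '' Ioc 0 1 with hK'
  have hK'K : K' ⊆ K := by
    apply union_subset_union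
    · apply union_subset_union _ le_rfl
      exact image_mono Ioc_subset_Icc_self
    · exact image_mono Ioc_subset_Icc_self
  have hK'T : K' ⊆ T := by
    rintro z ((⟨t, ht, rfl⟩ | ⟨t, ht, rfl⟩) | ⟨t, ht, rfl⟩)
    · exact hc t ht.1 ht.2
    · exact gTT t
    · exact hd t ht.1 ht.2
  have hK'0 : ∀ z ∈ K', z ≠ 0 := by
    rintro z ((⟨t, ht, rfl⟩ | ⟨t, ht, rfl⟩) | ⟨t, ht, rfl⟩)
    · exact mul_ne_zero (by exact_mod_cast ht.1.ne') (exp_ne_zero _)
    · intro h
      exact h0T (h ▸ gTT t)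
    · exact mul_ne_zero (by exact_mod_cast ht.1.ne') (exp_ne_zero _)
  have hpre : IsPreconnected K' := by
    apply IsPreconnected.union (exp ((3 * β : ℝ) * I))
    · exact Or.inr ⟨1, by simp, gT1⟩
    · exact ⟨1, by simp, by simp⟩
    · apply IsPreconnected.union (exp ((β : ℝ) * I))
      · exact ⟨1, by simp, by simp⟩
      · exact ⟨0, by simp, gT0⟩
      · exact isPreconnected_Ioc.image _ (by fun_prop)
      · exact isPreconnected_Icc.image _ gTc.continuousOn
    · exact isPreconnected_Ioc.image _ (by fun_prop)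
  have slit : ∀ z ∈ K', ∀ b : ℂ, (∀ t : ℝ, 0 < t → t ≤ 1 → t * b ∈ S) → 1 - b / z ∈ slitPlane := by
    intro z hz b hbS
    by_contra hn
    rw [mem_slitPlane_iff, not_or, not_lt, not_not] at hn
    obtain ⟨h1, h2⟩ := hn
    simp only [sub_re, one_re, sub_im, one_im] at h1 h2
    have hr : b / z = ((b / z).re : ℂ) := by
      apply Complex.ext
      · simp
      · simp only [ofReal_im]
        linarith
    set r := (b / z).re with hrr
    have hr1 : 1 ≤ r := by linarith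
    have hz0 := hK'0 z hz
    have hbz : b = r * z := by
      rw [← hr]
      field_simp
    have hzz : ((1 / r : ℝ) : ℂ) * b = z := by
      rw [hbz]
      have : (r : ℂ) ≠ 0 := by exact_mod_cast (by linarith : r ≠ 0)
      push_cast
      field_simp
    have hzS : z ∈ S := by
      rw [← hzz]
      exact hbS _ (by positivity) ((div_le_one (by linarith)).mpr hr1)
    exact (Set.disjoint_left.mp hST) hzS (hK'T hz)
  set L0 : ℂ → ℂ := fun z => log (1 - exp ((2 * β : ℝ) * I) / z) - log (1 - 1 / z) with hL0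
  have hs1 : ∀ z ∈ K', 1 - exp ((2 * β : ℝ) * I) / z ∈ slitPlane := fun z hz => slit z hz _ hb
  have hs2 : ∀ z ∈ K', 1 - 1 / z ∈ slitPlane := fun z hz => slit z hz 1 (by simpa using ha)
  have hL0c : ContinuousOn L0 K' := by
    apply ContinuousOn.sub
    · apply ContinuousOn.clog _ hs1
      exact continuousOn_const.sub (continuousOn_const.div continuousOn_id hK'0)
    · apply ContinuousOn.clog _ hs2
      exact continuousOn_const.sub (continuousOn_const.div continuousOn_id hK'0)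
  have hL0e : ∀ z ∈ K', exp (L0 z) = (z - gS 1) / (z - gS 0) := by
    intro z hz
    have hz0 := hK'0 z hz
    have e1 := slitPlane_ne_zero (hs1 z hz)
    have e2 := slitPlane_ne_zero (hs2 z hz)
    simp only [hL0]
    rw [exp_sub, exp_log e1, exp_log e2, gS0, gS1]
    have e3 : z - 1 ≠ 0 := by
      intro h
      apply e2
      rw [sub_eq_zero.mp h]
      simp
    field_simp
  have hconst : ∀ x ∈ K', ∀ y ∈ K', L x - L0 x = L y - L0 y := by
    intro x hx y hy
    refine const_of_exp_one K' hpre (fun z => L z - L0 z) ((hL.mono hK'K).sub hL0c) ?_ x y hx hy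
    intro z hz
    rw [exp_sub, hL0e z hz, hLe z (hK'K hz)]
    apply div_self
    rw [← hLe z (hK'K hz)]
    exact exp_ne_zero _
  have ex2 : ∀ θ : ℝ, exp (((2 * Real.pi - θ : ℝ) : ℂ) * I) = exp (-((θ : ℂ) * I)) := by
    intro θ
    push_cast
    rw [sub_mul, exp_sub, exp_two_pi_mul_I, exp_neg, one_div]
  -- limit along a ray
  have ray : ∀ (θ : ℝ) (ψ1 ψ2 : ℝ), 0 < ψ1 → ψ1 < 2 * Real.pi → 0 < ψ2 → ψ2 < 2 * Real.pi →
      (∀ t ∈ Ioc (0 : ℝ) 1, (t : ℂ) * exp (θ * I) ∈ K') →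
      exp ((2 * β : ℝ) * I) = exp (ψ1 * I) * exp (θ * I) → (1 : ℂ) = exp (ψ2 * I) * exp (θ * I) →
      L 0 - (L (exp (θ * I)) - L0 (exp (θ * I))) =
        ((ψ1 - Real.pi : ℝ) * I) - ((ψ2 - Real.pi : ℝ) * I) := by
    intro θ ψ1 ψ2 h1 h2 h3 h4 hmem e1 e2
    have m1 : exp (θ * I) ∈ K' := by simpa using hmem 1 (by simp)
    have t1 : Tendsto (fun t : ℝ => L (t * exp (θ * I)) - (L (exp (θ * I)) - L0 (exp (θ * I))))
        (𝓝[>] 0) (𝓝 (L 0 - (L (exp (θ * I)) - L0 (exp (θ * I))))) := by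
      apply Tendsto.sub_const
      have hcw : ContinuousWithinAt L K 0 := hL 0 h0K
      have : Tendsto (fun t : ℝ => (t : ℂ) * exp (θ * I)) (𝓝[>] 0) (𝓝[K] 0) := by
        rw [tendsto_nhdsWithin_iff]
        constructor
        · have hh : Continuous (fun t : ℝ => (t : ℂ) * exp (θ * I)) := by fun_prop
          have := (hh.tendsto 0).mono_left (nhdsWithin_le_nhds (s := Ioi 0))
          simpa using this
        · filter_upwards [Ioc_mem_nhdsGT (zero_lt_one' ℝ)] with t ht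
          exact hK'K (hmem t ht)
      exact hcw.tendsto.comp this
    have t2 : Tendsto (fun t : ℝ => log ((t : ℂ) - exp (ψ1 * I)) - log ((t : ℂ) - exp (ψ2 * I)))
        (𝓝[>] 0) (𝓝 (((ψ1 - Real.pi : ℝ) * I) - ((ψ2 - Real.pi : ℝ) * I))) :=
      (log_lim ψ1 h1 h2).sub (log_lim ψ2 h3 h4)
    refine tendsto_nhds_unique (t1.congr' ?_) t2
    filter_upwards [Ioc_mem_nhdsGT (zero_lt_one' ℝ)] with t ht
    have hk := hconst _ (hmem t ht) _ m1
    rw [← hk]
    have l1 := L0_ray t θ _ _ ht.1 e1 (slitPlane_ne_zero (hs1 _ (hmem t ht)))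
    have l2 := L0_ray t θ _ _ ht.1 e2 (slitPlane_ne_zero (hs2 _ (hmem t ht)))
    simp only [hL0]
    rw [l1, l2]
    ring
  have r1 := ray β β (2 * Real.pi - β) hβ (by linarith) (by linarith) (by linarith)
    (fun t ht => Or.inl (Or.inl ⟨t, ht, rfl⟩))
    (by rw [← exp_add]; push_cast; ring_nf)
    (by rw [ex2, ← exp_add]; simp)
  have r2 := ray (3 * β) (2 * Real.pi - β) (2 * Real.pi - 3 * β) (by linarith) (by linarith)
    (by linarith) (by linarith)
    (fun t ht => Or.inr ⟨t, ht, rfl⟩)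
    (by rw [ex2, ← exp_add]; push_cast; ring_nf)
    (by rw [ex2, ← exp_add]; simp)
  have mc : exp ((β : ℝ) * I) ∈ K' := Or.inl (Or.inl ⟨1, by simp, by simp⟩)
  have md : exp ((3 * β : ℝ) * I) ∈ K' := Or.inr ⟨1, by simp, by simp⟩
  have hk := hconst _ mc _ md
  rw [hk, r2] at r1
  have := congrArg Complex.im r1
  simp at this
  linarith

theorem extend_mem {S : Set ℂ} {x y : ℂ} (γ : Path x y) (h : ∀ t, γ t ∈ S) (s : ℝ) :
    γ.extend s ∈ S := by
  have : γ.extend s ∈ range γ.extend := mem_range_self s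
  rw [Path.extend_range] at this
  obtain ⟨t, ht⟩ := this
  rw [← ht]
  exact h t

end TOP

open Complex in
theorem TOP_thm : Stmt_TOP := by
  intro z0 δ α β S T hδ hβ hβ3 hST hS hT h1 h2 h3 h4 hjS hjT
  have hδ' : (δ : ℂ) ≠ 0 := by exact_mod_cast hδ.ne'
  have he := exp_ne_zero ((α : ℂ) * I)
  obtain ⟨γS, hγS⟩ := hjS
  obtain ⟨γT, hγT⟩ := hjT
  set φ : ℂ → ℂ := fun w => z0 + δ * exp (α * I) * w with hφ
  have hinv : ∀ z, φ ((z - z0) / (δ * exp (α * I))) = z := by
    intro z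
    simp only [hφ]
    field_simp
    ring
  have hray : ∀ (t θ : ℝ), φ (t * exp (θ * I)) = z0 + ((δ * t : ℝ) : ℂ) * exp ((α + θ : ℝ) * I) := by
    intro t θ
    simp only [hφ]
    push_cast
    rw [add_mul, exp_add]
    ring
  have hend : ∀ θ : ℝ, (z0 + δ * exp ((α + θ : ℝ) * I) - z0) / (δ * exp (α * I)) =
      exp ((θ : ℝ) * I) := by
    intro θ
    push_cast
    rw [add_mul, exp_add]
    field_simp
    ring
  have hb : ∀ t : ℝ, 0 < t → t ≤ 1 → 0 < δ * t ∧ δ * t ≤ δ := fun t h0 h1 =>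
    ⟨by positivity, by nlinarith⟩
  refine TOP.core β (φ ⁻¹' S) (φ ⁻¹' T) hβ hβ3 (hST.preimage φ) (by simpa [hφ] using hS)
    (by simpa [hφ] using hT) ?_ ?_ ?_ ?_
    (fun s => (γS.extend s - z0) / (δ * exp (α * I)))
    (fun s => (γT.extend s - z0) / (δ * exp (α * I))) ?_ ?_ ?_ ?_ ?_ ?_ ?_ ?_
  · intro t ht0 ht1
    have := h1 (δ * t) (hb t ht0 ht1).1 (hb t ht0 ht1).2
    have e := hray t 0
    simp only [ofReal_zero, zero_mul, exp_zero, mul_one, add_zero] at e
    show φ t ∈ S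
    rw [e]
    exact this
  · intro t ht0 ht1
    show φ _ ∈ T
    rw [hray]
    exact h2 (δ * t) (hb t ht0 ht1).1 (hb t ht0 ht1).2
  · intro t ht0 ht1
    show φ _ ∈ S
    rw [hray]
    exact h3 (δ * t) (hb t ht0 ht1).1 (hb t ht0 ht1).2
  · intro t ht0 ht1
    show φ _ ∈ T
    rw [hray]
    exact h4 (δ * t) (hb t ht0 ht1).1 (hb t ht0 ht1).2
  · exact (γS.continuous_extend.sub continuous_const).div_const _
  · exact (γT.continuous_extend.sub continuous_const).div_const _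
  · intro s
    show φ _ ∈ S
    rw [hinv]
    exact TOP.extend_mem γS hγS s
  · intro s
    show φ _ ∈ T
    rw [hinv]
    exact TOP.extend_mem γT hγT s
  · show (γS.extend 0 - z0) / _ = _
    rw [Path.extend_zero]
    field_simp
    ring
  · show (γS.extend 1 - z0) / _ = _
    rw [Path.extend_one]
    exact hend _
  · show (γT.extend 0 - z0) / _ = _
    rw [Path.extend_zero]
    exact hend _
  · show (γT.extend 1 - z0) / _ = _
    rw [Path.extend_one]
    exact hend _

end F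
end FBM
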